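import Mathlib

/-!
# Module Pars (1.5 h): the parameters

`ℓ = log n`, `lam = D/ℓ`, so `n^(-lam) = exp (-D)`. For large `n`: `ℓ ≥ 8 D`; `2 (16/lam^2)^8 = 2 * 16^8 * ℓ^16 / D^16 ≤ exp (X ℓ) = n^X`; `log (2n/lam) = log 2 + ℓ + log (ℓ/D) ≤ 2 ℓ`.
(All by `Filter.Tendsto` / `isLittleO` as `ℓ → ∞`.) `J = 2 * ⌈J0/2⌉₊`, `J0 = log (2/X) / log (1 + lam/4) > 0`: `(1+lam/4)^J ≥ 2/X`, `(1+lam/4)^J * log (n^X) ≥ (2/X) X ℓ = 2 ℓ`.
`log (1+y) ≥ y/(1+y)` (`1 - 1/(1+y) ≤ log (1+y)`) with `y = lam/4`: `J0 ≤ (4/lam + 1) log (2/X) ≤ (5/lam) log (2/X)`, `J ≤ J0 + 2`.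
-/

set_option autoImplicit false

namespace Pool.Agent.Lib.P325v

open Filter in
private lemma pars_ev {D X : ℝ} (hD : 0 < D) (hX : 0 < X) :
    ∃ l0 : ℝ, 1 ≤ l0 ∧ ∀ l : ℝ, l0 ≤ l → 8 * D ≤ l ∧
      2 * 16 ^ 8 / D ^ 16 * l ^ 16 ≤ Real.exp (X * l) ∧
      Real.log 2 + l + Real.log (l / D) ≤ 2 * l := by
  have h1 : ∀ᶠ l : ℝ in atTop, 8 * D ≤ l := eventually_ge_atTop _
  have hc : (0 : ℝ) < D ^ 16 / (2 * 16 ^ 8) := by positivity
  have h2 : ∀ᶠ l : ℝ in atTop, ‖l ^ 16‖ ≤ D ^ 16 / (2 * 16 ^ 8) * ‖Real.exp (X * l)‖ :=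
    (isLittleO_pow_exp_pos_mul_atTop 16 hX).bound hc
  have h3 : ∀ᶠ l : ℝ in atTop, ‖Real.log l‖ ≤ 1 / 2 * ‖l‖ :=
    Real.isLittleO_log_id_atTop.bound (by norm_num)
  have h4 : ∀ᶠ l : ℝ in atTop, 2 * (Real.log 2 - Real.log D) ≤ l := eventually_ge_atTop _
  obtain ⟨a, ha⟩ := eventually_atTop.mp (h1.and (h2.and (h3.and h4)))
  refine ⟨max a 1, le_max_right _ _, fun l hl => ?_⟩
  obtain ⟨g1, g2, g3, g4⟩ := ha l ((le_max_left _ _).trans hl)
  have hl1 : 1 ≤ l := (le_max_right _ _).trans hl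
  have hl0 : 0 < l := by linarith
  refine ⟨g1, ?_, ?_⟩
  · rw [Real.norm_of_nonneg (by positivity), Real.norm_of_nonneg (Real.exp_pos _).le] at g2
    calc 2 * 16 ^ 8 / D ^ 16 * l ^ 16
        ≤ 2 * 16 ^ 8 / D ^ 16 * (D ^ 16 / (2 * 16 ^ 8) * Real.exp (X * l)) :=
          mul_le_mul_of_nonneg_left g2 (by positivity)
      _ = Real.exp (X * l) := by
          field_simp
  · rw [Real.norm_of_nonneg (Real.log_nonneg hl1), Real.norm_of_nonneg hl0.le] at g3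
    rw [Real.log_div hl0.ne' hD.ne']
    linarith

theorem pars {D X : ℝ} (hD : 0 < D) (hX : 0 < X) (hX1 : X ≤ 1) :
    ∃ n0 : ℝ, 1 < n0 ∧ ∀ n : ℝ, n0 ≤ n → ∃ (J : ℕ) (lam : ℝ), Even J ∧ 0 < J ∧ 0 < lam ∧
      lam ≤ 1 / 8 ∧ n ^ (-lam) = Real.exp (-D) ∧ 2 * (16 / lam ^ 2) ^ 8 ≤ n ^ X ∧
      Real.log (2 * n / lam) ≤ (1 + lam / 4) ^ J * Real.log (n ^ X) ∧
      (J : ℝ) ≤ 5 * (Real.log n / D) * Real.log (2 / X) + 2 := by
  obtain ⟨l0, hl01, hl0⟩ := pars_ev hD hX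
  refine ⟨Real.exp l0, Real.one_lt_exp_iff.mpr (by linarith), fun n hn => ?_⟩
  have hn0 : 0 < n := lt_of_lt_of_le (Real.exp_pos _) hn
  set l : ℝ := Real.log n with hl
  have hll : l0 ≤ l := by
    rw [hl, Real.le_log_iff_exp_le hn0]
    exact hn
  have hlp : 0 < l := by linarith
  have hnl : n = Real.exp l := (Real.exp_log hn0).symm
  obtain ⟨g1, g2, g3⟩ := hl0 l hll
  set lam : ℝ := D / l with hlam
  have hlam0 : 0 < lam := div_pos hD hlp
  have hlam8 : lam ≤ 1 / 8 := by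
    rw [hlam, div_le_iff₀ hlp]
    linarith
  set y : ℝ := lam / 4 with hy
  have hy0 : 0 < y := by positivity
  have hlogy : 0 < Real.log (1 + y) := Real.log_pos (by linarith)
  have hX2 : 0 < Real.log (2 / X) := by
    refine Real.log_pos ?_
    rw [lt_div_iff₀ hX]
    linarith
  set J0 : ℝ := Real.log (2 / X) / Real.log (1 + y) with hJ0
  have hJ0p : 0 < J0 := div_pos hX2 hlogy
  have hceil : 0 < ⌈J0 / 2⌉₊ := Nat.ceil_pos.mpr (by positivity)
  have hJge : J0 ≤ ((2 * ⌈J0 / 2⌉₊ : ℕ) : ℝ) := by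
    have := Nat.le_ceil (J0 / 2)
    push_cast
    linarith
  have hJle : ((2 * ⌈J0 / 2⌉₊ : ℕ) : ℝ) ≤ J0 + 2 := by
    have := (Nat.ceil_lt_add_one (show 0 ≤ J0 / 2 by positivity)).le
    push_cast
    linarith
  have hnX : n ^ X = Real.exp (X * l) := by
    rw [hnl, ← Real.exp_mul, mul_comm]
  refine ⟨2 * ⌈J0 / 2⌉₊, lam, even_two_mul _, by omega, hlam0, hlam8, ?_, ?_, ?_, ?_⟩
  · rw [hnl, ← Real.exp_mul]
    congr 1
    rw [hlam]
    field_simp
  · rw [hnX]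
    refine le_trans (le_of_eq ?_) g2
    rw [hlam]
    field_simp
  · have e1 : Real.log (2 * n / lam) = Real.log 2 + l + Real.log (l / D) := by
      have : 2 * n / lam = 2 * n * (l / D) := by
        rw [hlam]
        field_simp
      rw [this, Real.log_mul (by positivity) (by positivity), Real.log_mul (by norm_num) hn0.ne']
    have e2 : Real.log (n ^ X) = X * l := by
      rw [hnX, Real.log_exp]
    have e3 : 2 / X ≤ (1 + y) ^ (2 * ⌈J0 / 2⌉₊) := by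
      have e4 : Real.log (2 / X) ≤ ((2 * ⌈J0 / 2⌉₊ : ℕ) : ℝ) * Real.log (1 + y) := by
        have e5 : Real.log (2 / X) = J0 * Real.log (1 + y) := by
          rw [hJ0, div_mul_cancel₀ _ hlogy.ne']
        rw [e5]
        exact mul_le_mul_of_nonneg_right hJge hlogy.le
      rw [← Real.log_pow] at e4
      exact (Real.log_le_log_iff (by positivity) (by positivity)).mp e4
    rw [e1, e2]
    refine g3.trans ?_
    calc 2 * l = 2 / X * (X * l) := by
          field_simp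
      _ ≤ (1 + y) ^ (2 * ⌈J0 / 2⌉₊) * (X * l) :=
          mul_le_mul_of_nonneg_right e3 (by positivity)
  · refine hJle.trans ?_
    have e1 : y / (1 + y) ≤ Real.log (1 + y) := by
      have := Real.one_sub_inv_le_log_of_pos (show 0 < 1 + y by linarith)
      refine le_trans (le_of_eq ?_) this
      field_simp
      ring
    have e2 : J0 ≤ 5 * (l / D) * Real.log (2 / X) := by
      rw [hJ0, div_le_iff₀ hlogy]
      have e3 : 1 ≤ 5 * (l / D) * (y / (1 + y)) := by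
        have e4 : 5 * (l / D) * (y / (1 + y)) = 5 / (4 + lam) := by
          rw [hy, hlam]
          field_simp
        rw [e4, le_div_iff₀ (by positivity)]
        linarith
      have e5 : 1 ≤ 5 * (l / D) * Real.log (1 + y) :=
        e3.trans (mul_le_mul_of_nonneg_left e1 (by positivity))
      calc Real.log (2 / X) = Real.log (2 / X) * 1 := (mul_one _).symm
        _ ≤ Real.log (2 / X) * (5 * (l / D) * Real.log (1 + y)) :=
            mul_le_mul_of_nonneg_left e5 hX2.le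
        _ = 5 * (l / D) * Real.log (2 / X) * Real.log (1 + y) := by ring
    linarith

end Pool.Agent.Lib.P325v
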