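import Pool.Agent.Lib.P325v.CoreMain
import Pool.Agent.Lib.P325v.Pars
import Pool.Agent.Lib.P325F.Sos

/-!
# Module FinC (2 h): completeness at most 31/32, independent rounding

`A = -log s0 > 0`, `B = -log δ > 0`, `X = A/B ≤ 1/1200`. `A ≥ 1/32` (`log y ≤ y - 1`), so `B ≥ 1200/32 = 37.5`. `D = (B - 5 A - log 8192)/2`, `log 8192 = 13 log 2 ≤ 9.02`, `5 A ≤ B/240`: `D ≥ B/4 > 0`.
`exp (-2D) = 8192 δ / s0^5`. Take `n0` from `pars D X`, `K = exp (12 A) + 3`. For `n = card V ≥ n0` take `J, lam`; `Q = n^X ≥ 1`, `f e = E (P325u.sat ..)`, `τ = s0^3`.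
Degree: `Q τ⁻¹^(2J) = n^X exp (6 A J)` and `6 A J ≤ 30 (A/D) log (2/X) log n + 12 A ≤ 120 X log (2/X) log n + 12 A` (`A/D ≤ 4 A/B = 4 X`), `X ≤ X log (2/X)`, so
`Q τ⁻¹^(2J) + 3 ≤ exp (12 A) n^(121 X log (2/X)) + 3 ≤ K n^(130 X log (2/X)) ≤ r`. `sos_of_pe` gives `SOS s t perm f J Q τ`, hence `RND s t perm G J Q v` with `G e = (s0^2 ≤ f e)`, `v = s0^2 - s0^3`
(`∑ w f - τ ∑ w ≥ (s0^2 - s0^3) ∑ w`). `s e ≠ t e` from `hside`. `v ≥ s0^2/32`.
`w = 1` on `{G}` and `0` off it: `s0 m ≤ ∑ f ≤ ∑ w + s0^2 (m - ∑ w)` (`f ≤ 1`, `pe_sat_mem`; `2 ≤ r`), `m = card ι`, so `∑ w ≥ (s0 - s0^2)/(1 - s0^2) m = s0/(1+s0) m ≥ (s0/2) m`.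
`core_main`: `sat 1 x ≥ sat w x ≥ (v exp (-D)/2)^2 (s0/2) m ≥ (s0^2/64)^2 exp (-2D) (s0/2) m = s0^5 exp (-2D)/8192 m = δ m`.
-/

set_option autoImplicit false

open Finset Matrix Pool.Agent.Lib.P325F Pool.Agent.Lib.P325u

namespace Pool.Agent.Lib.P325v

private theorem sat_mono {V ι L : Type} [Fintype V] [DecidableEq V] [Fintype ι] {s t : ι → V}
    (perm : ι → Equiv.Perm L) {w w' : ι → ℝ} (h : ∀ e, w e ≤ w' e) (x : V → L) :
    P325F.sat s t perm w x ≤ P325F.sat s t perm w' x := by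
  unfold P325F.sat
  refine Finset.sum_le_sum fun e _ => ?_
  split_ifs
  · exact h e
  · exact le_rfl

private theorem final_num {s0 δ y v W m : ℝ} (hδ : 0 < δ) (hs0 : 0 < s0) (hy : 0 < y)
    (hy2 : y ^ 2 = 8192 * δ / s0 ^ 5) (hv : s0 ^ 2 / 32 ≤ v) (hm : 0 ≤ m) (hW : s0 / 2 * m ≤ W) :
    δ * m ≤ (v * y / 2) ^ 2 * W := by
  have h6 : s0 ^ 2 / 32 * y / 2 ≤ v * y / 2 := by gcongr
  have h7 : (s0 ^ 2 / 32 * y / 2) ^ 2 ≤ (v * y / 2) ^ 2 :=
    pow_le_pow_left₀ (by positivity) h6 2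
  have e1 : (s0 ^ 2 / 32 * y / 2) ^ 2 * (s0 / 2 * m) = s0 ^ 5 * y ^ 2 / 8192 * m := by ring
  have e2 : s0 ^ 5 * y ^ 2 / 8192 = δ := by
    rw [hy2]
    have : s0 ^ 5 ≠ 0 := by positivity
    field_simp
  rw [e2] at e1
  rw [← e1]
  exact mul_le_mul h7 hW (by positivity) (by positivity)

/-- the size of the exponents -/
private theorem deg_bound {A D X ln Lg : ℝ} {J : ℝ} (hA : 0 ≤ A) (hD : 0 < D) (hX : 0 < X)
    (hAD : A ≤ 4 * X * D) (hln : 0 ≤ ln) (hL : 1 ≤ Lg) (hJ : J ≤ 5 * (ln / D) * Lg + 2) :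
    ln * X + 3 * A * (2 * J) ≤ 12 * A + ln * (130 * X * Lg) := by
  have h1 : 3 * A * (2 * J) ≤ 6 * A * (5 * (ln / D) * Lg + 2) := by nlinarith
  have h2 : A / D ≤ 4 * X := by
    rw [div_le_iff₀ hD]
    exact hAD
  have h3 : 6 * A * (5 * (ln / D) * Lg + 2) = 30 * (A / D) * (ln * Lg) + 12 * A := by
    field_simp
    ring
  have h4 : 0 ≤ ln * Lg := by positivity
  have h5 : 30 * (A / D) * (ln * Lg) ≤ 30 * (4 * X) * (ln * Lg) := by gcongr
  have h6 : ln * X ≤ ln * Lg * X := by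
    have : ln ≤ ln * Lg := le_mul_of_one_le_right hln hL
    gcongr
  have h7 : 0 ≤ ln * Lg * X := by positivity
  rw [h3] at h1
  nlinarith

theorem fin_indep {s0 δ X : ℝ} (hδ : 0 < δ) (hs : δ < s0) (hs1 : s0 ≤ 31 / 32)
    (hX : X = Real.log s0 / Real.log δ) (hX1 : X ≤ 1 / 1200) :
    ∃ n0 K : ℝ, ∀ (V ι L : Type) [Fintype V] [DecidableEq V] [Fintype ι] [Fintype L]
      [DecidableEq L] (s t : ι → V) (side : V → Bool) (perm : ι → Equiv.Perm L)
      (E : ((V → L) → ℝ) →ₗ[ℝ] ℝ) (r : ℕ), (∀ e, side (s e) ≠ side (t e)) →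
      IsPseudoExpectation r E → n0 ≤ Fintype.card V →
      K * (Fintype.card V : ℝ) ^ (130 * X * Real.log (2 / X)) ≤ r →
      s0 * Fintype.card ι ≤ ∑ e, E (P325u.sat (s e) (t e) (perm e)) →
      ∃ x : V → L, δ * Fintype.card ι ≤ P325F.sat s t perm (fun _ => 1) x := by
  have hs0 : 0 < s0 := hδ.trans hs
  set A := -Real.log s0 with hAdef
  set B := -Real.log δ with hBdef
  have hA : 1 / 32 ≤ A := by
    have := Real.log_le_sub_one_of_pos hs0
    rw [hAdef]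
    linarith
  have hBA : A < B := by
    have := Real.log_lt_log hδ hs
    rw [hAdef, hBdef]
    linarith
  have hB : 0 < B := by linarith
  have hXAB : X = A / B := by rw [hX, hAdef, hBdef, neg_div_neg_eq]
  have hX0 : 0 < X := by
    rw [hXAB]
    positivity
  have hAX : A = X * B := by rw [hXAB, div_mul_cancel₀ _ hB.ne']
  have h1200 : 1200 * A ≤ B := by
    rw [hAX]
    nlinarith
  have hlog : Real.log 8192 ≤ 9.02 := by
    have h1 : Real.log 8192 = 13 * Real.log 2 := by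
      rw [show (8192 : ℝ) = 2 ^ (13 : ℕ) by norm_num, Real.log_pow]
      norm_num
    rw [h1]
    have := Real.log_two_lt_d9
    linarith
  set D := (B - 5 * A - Real.log 8192) / 2 with hDdef
  have hD4 : B / 4 ≤ D := by
    rw [hDdef]
    linarith
  have hD : 0 < D := by linarith
  obtain ⟨n0, hn0, hpars⟩ := pars hD hX0 (by linarith)
  refine ⟨n0, Real.exp (12 * A) + 3, ?_⟩
  intro V ι L _ _ _ _ _ s t side perm E r hside hE hn hr hsum
  obtain ⟨J, lam, hJe, hJ0, hl, hl8, hnl, hQ, hJQ, hJle⟩ := hpars (Fintype.card V) hn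
  set n : ℝ := (Fintype.card V : ℝ) with hndef
  have hn1 : 1 < n := hn0.trans_le hn
  have hnpos : 0 < n := by linarith
  have hln : 0 ≤ Real.log n := Real.log_nonneg hn1.le
  set Q := n ^ X with hQdef
  have hQ1 : 1 ≤ Q := Real.one_le_rpow hn1.le hX0.le
  have hLg : 1 ≤ Real.log (2 / X) := by
    rw [Real.le_log_iff_exp_le (by positivity)]
    have h1 := Real.exp_one_lt_d9
    have h2 : (2400 : ℝ) ≤ 2 / X := by
      rw [le_div_iff₀ hX0]
      linarith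
    linarith
  have hsexp : s0 = Real.exp (-A) := by rw [hAdef, neg_neg, Real.exp_log hs0]
  have hτinv : (s0 ^ 3)⁻¹ ^ (2 * J) = Real.exp (3 * A * (2 * J)) := by
    rw [hsexp, ← Real.exp_nat_mul, ← Real.exp_neg, ← Real.exp_nat_mul]
    congr 1
    push_cast
    ring
  have hAD : A ≤ 4 * X * D := by
    rw [hAX]
    nlinarith
  have hexp := deg_bound (by linarith : (0 : ℝ) ≤ A) hD hX0 hAD hln hLg hJle
  have hpow1 : 1 ≤ n ^ (130 * X * Real.log (2 / X)) :=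
    Real.one_le_rpow hn1.le (by positivity)
  have hdeg : Q * (s0 ^ 3)⁻¹ ^ (2 * J) + 3 ≤ r := by
    refine le_trans ?_ hr
    have h1 : Q * (s0 ^ 3)⁻¹ ^ (2 * J) ≤
        Real.exp (12 * A) * n ^ (130 * X * Real.log (2 / X)) := by
      rw [hτinv, hQdef, Real.rpow_def_of_pos hnpos, Real.rpow_def_of_pos hnpos, ← Real.exp_add,
        ← Real.exp_add]
      exact Real.exp_le_exp.2 hexp
    rw [add_mul]
    have h2 : (3 : ℝ) ≤ 3 * n ^ (130 * X * Real.log (2 / X)) := by linarith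
    linarith
  have hr2 : 2 ≤ r := by
    have h1 : 0 ≤ Q * (s0 ^ 3)⁻¹ ^ (2 * J) := by positivity
    have h2 : (2 : ℝ) ≤ r := by linarith
    exact_mod_cast h2
  have hst : ∀ e, s e ≠ t e := fun e h => hside e (by rw [h])
  have hSOS := sos_of_pe (s := s) (t := t) perm hst hE (Or.inr hJe) hJ0 hQ1
    (by positivity : (0 : ℝ) < s0 ^ 3) hdeg
  have hf := fun e => pe_sat_mem (s := s) (t := t) perm hE hr2 e
  set f : ι → ℝ := fun e => E (P325u.sat (s e) (t e) (perm e)) with hfdef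
  have hf1 : ∀ e, f e ≤ 1 := fun e => (hf e).2
  have hs01 : s0 < 1 := by linarith
  set v := s0 ^ 2 - s0 ^ 3 with hvdef
  have hv32 : s0 ^ 2 / 32 ≤ v := by
    have h1 : v = s0 ^ 2 * (1 - s0) := by rw [hvdef]; ring
    rw [h1, div_eq_mul_one_div]
    have h2 : (1 : ℝ) / 32 ≤ 1 - s0 := by linarith
    gcongr
  have hv : 0 < v := lt_of_lt_of_le (by positivity) hv32
  have hRND : RND s t perm (fun e => s0 ^ 2 ≤ f e) J Q v := by
    intro w hw hwG htr
    obtain ⟨x, hx⟩ := hSOS w hw htr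
    refine ⟨x, le_trans ?_ hx⟩
    have h1 : s0 ^ 2 * ∑ e, w e ≤ ∑ e, w e * f e := by
      rw [Finset.mul_sum]
      refine Finset.sum_le_sum fun e _ => ?_
      by_cases h : w e = 0
      · rw [h]
        simp
      · have := mul_le_mul_of_nonneg_left (hwG e h) (hw e)
        linarith
    rw [hvdef, sub_mul]
    linarith
  -- the edges of large value
  classical
  set w0 : ι → ℝ := fun e => if s0 ^ 2 ≤ f e then 1 else 0 with hw0def
  have hw0 : ∀ e, 0 ≤ w0 e := by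
    intro e
    simp only [hw0def]
    split_ifs <;> norm_num
  have hw01 : ∀ e, w0 e ≤ (fun _ => (1 : ℝ)) e := by
    intro e
    simp only [hw0def]
    split_ifs <;> norm_num
  have hw0G : ∀ e, w0 e ≠ 0 → s0 ^ 2 ≤ f e := by
    intro e h
    by_contra hcon
    apply h
    simp only [hw0def]
    rw [if_neg hcon]
  have hm : (∑ _e : ι, (1 : ℝ)) = Fintype.card ι := by simp
  have hfw : ∑ e, f e ≤ ∑ e, w0 e + s0 ^ 2 * ((Fintype.card ι : ℝ) - ∑ e, w0 e) := by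
    rw [← hm, ← Finset.sum_sub_distrib, Finset.mul_sum, ← Finset.sum_add_distrib]
    refine Finset.sum_le_sum fun e _ => ?_
    simp only [hw0def]
    split_ifs with h
    · have := hf1 e
      linarith
    · have := not_le.1 h
      linarith
  have hW : s0 / 2 * Fintype.card ι ≤ ∑ e, w0 e := by
    have h1 := hsum.trans hfw
    have h2 : 0 < 1 - s0 := by linarith
    have h3 : 0 ≤ ∑ e, w0 e := Finset.sum_nonneg fun e _ => hw0 e
    have h4 : (1 - s0) * (s0 * Fintype.card ι) ≤ (1 - s0) * ((1 + s0) * ∑ e, w0 e) := by nlinarith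
    have h5 := le_of_mul_le_mul_left h4 h2
    nlinarith
  have hL : Nonempty (V → L) := nonempty_labelings hE
  obtain ⟨x, hx⟩ := core_main hL perm hside (fun e => s0 ^ 2 ≤ f e) hJ0 hl hl8 hQ hJQ hv hRND w0 hw0
    hw0G
  refine ⟨x, le_trans ?_ (hx.trans (sat_mono perm hw01 x))⟩
  have hE2 : Real.exp (-D) ^ 2 = 8192 * δ / s0 ^ 5 := by
    have h1 : δ = Real.exp (-B) := by rw [hBdef, neg_neg, Real.exp_log hδ]
    have h2 : (8192 : ℝ) = Real.exp (Real.log 8192) := (Real.exp_log (by norm_num)).symm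
    rw [eq_div_iff (by positivity), hsexp, ← Real.exp_nat_mul, ← Real.exp_nat_mul, ← Real.exp_add]
    conv_rhs => rw [h2, h1]
    rw [← Real.exp_add]
    congr 1
    rw [hDdef]
    push_cast
    ring
  rw [← hndef, hnl]
  exact final_num hδ hs0 (Real.exp_pos _) hE2 hv32 (Nat.cast_nonneg _) hW

end Pool.Agent.Lib.P325v
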