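import Pool.Agent.Lib.P325v.FinB
import Pool.Agent.Lib.P325v.FinC
import Pool.Agent.Lib.P325u.Main

/-!
# Assembly: the exponent of the gap problem
-/

set_option autoImplicit false

open Finset Matrix Pool.Agent.Lib.P325F Pool.Agent.Lib.P325u

namespace Pool.Agent.Lib.P325v

theorem trace_sq_le {V ι : Type} [Fintype V] [DecidableEq V] [Fintype ι] {s t : ι → V}
    {w : ι → ℝ} (hw : ∀ e, 0 ≤ w e) : (MM s t w ^ 2).trace ≤ Fintype.card V := by
  rw [pow_two, Matrix.trace]
  have h1 : ∀ x, (MM s t w * MM s t w).diag x ≤ 1 := by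
    intro x
    have h2 : (MM s t w * MM s t w).diag x =
        (MM s t w *ᵥ Pi.single x 1) ⬝ᵥ (MM s t w *ᵥ Pi.single x 1) := by
      rw [Matrix.diag_apply, Matrix.mul_apply, dotProduct]
      refine Finset.sum_congr rfl fun y _ => ?_
      rw [Matrix.mulVec_single_one]
      have h3 : MM s t w x y = MM s t w y x := by
        conv_lhs => rw [← MM_transpose (s := s) (t := t) (w := w)]
        rfl
      rw [h3]
      rfl
    rw [h2]
    refine (contr hw _).trans ?_
    rw [single_one_dotProduct, Pi.single_eq_same]
  calc ∑ x, (MM s t w * MM s t w).diag x ≤ ∑ _x : V, (1 : ℝ) :=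
        Finset.sum_le_sum fun x _ => h1 x
    _ = Fintype.card V := by
        rw [Finset.sum_const, Finset.card_univ, nsmul_eq_mul, mul_one]

theorem triv_bound {V ι L : Type} [Fintype V] [DecidableEq V] [Fintype ι] [Fintype L]
    [DecidableEq L] {s t : ι → V} (perm : ι → Equiv.Perm L) (hst : ∀ e, s e ≠ t e)
    {E : ((V → L) → ℝ) →ₗ[ℝ] ℝ} {r : ℕ} (hE : IsPseudoExpectation r E) {s0 δ : ℝ}
    (hδ : δ < s0) (hV : 1 ≤ (Fintype.card V : ℝ))
    (hr : (Fintype.card V : ℝ) * (s0 - δ)⁻¹ ^ 2 + 3 ≤ r)
    (hval : s0 * Fintype.card ι ≤ ∑ e, E (P325u.sat (s e) (t e) (perm e))) :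
    ∃ x : V → L, δ * Fintype.card ι ≤ P325F.sat s t perm (fun _ => 1) x := by
  obtain ⟨x, hx⟩ := sos_of_pe (s := s) (t := t) perm hst hE (J := 1) (Or.inl rfl) one_pos
    (Q := (Fintype.card V : ℝ)) (τ := s0 - δ) hV (by linarith) (by simpa using hr)
    (fun _ => 1) (fun _ => zero_le_one)
    (by simpa using trace_sq_le (s := s) (t := t) (w := fun _ => (1 : ℝ)) (fun _ => zero_le_one))
  refine ⟨x, le_trans ?_ hx⟩
  simp only [one_mul, Finset.sum_const, Finset.card_univ, nsmul_eq_mul, mul_one]
  nlinarith

theorem satFrac_card {U W Ω ι : Type} [Fintype ι] (I : P325x.Game U W Ω ι)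
    (hm : 0 < Fintype.card ι) (z : U ⊕ W → Ω) :
    I.satFrac (fun u => z (Sum.inl u)) (fun v => z (Sum.inr v)) * Fintype.card ι =
      P325F.sat (fun e => (Sum.inl (I.src e) : U ⊕ W)) (fun e => Sum.inr (I.dst e)) I.perm
        (fun _ => 1) z := by
  classical
  have hm' : (0 : ℝ) < Fintype.card ι := by exact_mod_cast hm
  unfold P325x.Game.satFrac P325F.sat
  rw [div_mul_cancel₀ _ hm'.ne']
  rw [Finset.sum_ite, Finset.sum_const, Finset.sum_const_zero, add_zero, nsmul_eq_mul, mul_one]
  unfold Good
  have : ∀ (A B : DecidablePred fun e : ι => (I.perm e) (z (Sum.inl (I.src e))) =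
      z (Sum.inr (I.dst e))), (@Finset.filter ι _ A univ).card =
      (@Finset.filter ι _ B univ).card := by
    intro A B
    have : A = B := Subsingleton.elim A B
    rw [this]
  exact_mod_cast this _ _

/-- The exponent of the gap problem `(s, δ)` is at most `200000 * x * log (2 / x)`,
`x = log s / log δ`. -/
theorem gap_exponent (s δ X : ℝ) (hδ : 0 < δ) (hδs : δ < s) (hs1 : s < 1) (hδ2 : δ ≤ 1 / 2)
    (hX : X = Real.log s / Real.log δ) :
    ∃ K : ℝ, ∀ (U W Ω ι : Type) [Fintype U] [Fintype W] [Fintype Ω] [Fintype ι]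
      (I : P325x.Game U W Ω ι) (r : ℕ) (E : ((U ⊕ W → Ω) → ℝ) →ₗ[ℝ] ℝ),
      IsPseudoExpectation r E →
      K * ((Fintype.card U : ℝ) + Fintype.card W) ^ (200000 * X * Real.log (2 / X)) ≤ r →
      s ≤ E (fun z => I.satFrac (fun u => z (Sum.inl u)) (fun v => z (Sum.inr v))) →
      δ ≤ I.value := by
  have hs0 : 0 < s := hδ.trans hδs
  have hA : 0 < -Real.log s := by
    have := Real.log_neg hs0 hs1
    linarith
  have hlt : Real.log δ < Real.log s := Real.log_lt_log hδ hδs
  have hB : 0 < -Real.log δ := by linarith
  have hX' : X = (-Real.log s) / (-Real.log δ) := by rw [hX, neg_div_neg_eq]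
  have hX0 : 0 < X := by rw [hX']; exact div_pos hA hB
  have hX1 : X < 1 := by rw [hX', div_lt_one hB]; linarith
  have hlog2 : (2 : ℝ) / 3 ≤ Real.log 2 := by
    have := Real.log_two_gt_d9
    linarith
  have hlogX : Real.log 2 ≤ Real.log (2 / X) := by
    apply Real.log_le_log (by norm_num)
    rw [le_div_iff₀ hX0]
    linarith
  have hlogX0 : 0 < Real.log (2 / X) := by linarith
  set e0 : ℝ := 200000 * X * Real.log (2 / X) with he0
  have he00 : 0 < e0 := by positivity
  -- the claim for large n
  have key : ∃ n0 K : ℝ, ∀ (U W Ω ι : Type) [Fintype U] [Fintype W] [Fintype Ω] [Fintype ι]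
      [DecidableEq Ω] (I : P325x.Game U W Ω ι) (r : ℕ) (E : ((U ⊕ W → Ω) → ℝ) →ₗ[ℝ] ℝ),
      Nonempty ι → 1 ≤ (Fintype.card U : ℝ) + Fintype.card W →
      n0 ≤ (Fintype.card U : ℝ) + Fintype.card W →
      IsPseudoExpectation r E →
      |K| * ((Fintype.card U : ℝ) + Fintype.card W) ^ e0 ≤ r →
      s ≤ E (fun z => I.satFrac (fun u => z (Sum.inl u)) (fun v => z (Sum.inr v))) →
      s * Fintype.card ι ≤ ∑ e, E (P325u.sat (Sum.inl (I.src e) : U ⊕ W)
        (Sum.inr (I.dst e)) (I.perm e)) →
      (∃ x : U ⊕ W → Ω, δ * Fintype.card ι ≤ P325F.sat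
        (fun e => (Sum.inl (I.src e) : U ⊕ W)) (fun e => Sum.inr (I.dst e)) I.perm
        (fun _ => 1) x) ∨ δ ≤ I.value := by
    rcases le_or_gt (1 / 100000) X with hcA | hcA
    · -- large X: the trivial bound
      refine ⟨0, (s - δ)⁻¹ ^ 2 + 3, ?_⟩
      intro U W Ω ι _ _ _ _ _ I r E _ hn1 _ hE hr _ hval
      classical
      left
      have hcard : (Fintype.card (U ⊕ W) : ℝ) = (Fintype.card U : ℝ) + Fintype.card W := by
        rw [Fintype.card_sum]; push_cast; ring
      have he1 : 1 ≤ e0 := by
        rw [he0]
        have h1 : 2 ≤ 200000 * X := by linarith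
        nlinarith
      have hpow : (Fintype.card U : ℝ) + Fintype.card W ≤
          ((Fintype.card U : ℝ) + Fintype.card W) ^ e0 := by
        calc (Fintype.card U : ℝ) + Fintype.card W =
            ((Fintype.card U : ℝ) + Fintype.card W) ^ (1 : ℝ) := (Real.rpow_one _).symm
          _ ≤ _ := Real.rpow_le_rpow_of_exponent_le hn1 he1
      have hpos : 0 ≤ (s - δ)⁻¹ ^ 2 := by positivity
      rw [abs_of_nonneg (by linarith)] at hr
      apply triv_bound (s := fun e => (Sum.inl (I.src e) : U ⊕ W))
        (t := fun e => Sum.inr (I.dst e)) I.perm (fun e => Sum.inl_ne_inr) hE hδs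
        (by rw [hcard]; exact hn1) _ hval
      rw [hcard]
      refine le_trans ?_ hr
      nlinarith
    · rcases le_or_gt s (31 / 32) with hcC | hcC
      · -- independent rounding
        obtain ⟨n0, K, h⟩ := fin_indep hδ hδs hcC hX (by linarith)
        refine ⟨n0, K, ?_⟩
        intro U W Ω ι _ _ _ _ _ I r E _ hn1 hn0 hE hr _ hval
        classical
        left
        have hcard : (Fintype.card (U ⊕ W) : ℝ) = (Fintype.card U : ℝ) + Fintype.card W := by
          rw [Fintype.card_sum]; push_cast; ring
        refine h (U ⊕ W) ι Ω (fun e => Sum.inl (I.src e)) (fun e => Sum.inr (I.dst e))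
          (fun v => v.isLeft) I.perm E r (by intro e; simp) hE (by rw [hcard]; exact hn0) ?_ hval
        rw [hcard]
        refine le_trans ?_ hr
        have h1 : ((Fintype.card U : ℝ) + Fintype.card W) ^ (130 * X * Real.log (2 / X)) ≤
            ((Fintype.card U : ℝ) + Fintype.card W) ^ e0 := by
          apply Real.rpow_le_rpow_of_exponent_le hn1
          rw [he0]
          have : 0 ≤ X * Real.log (2 / X) := by positivity
          nlinarith
        have h2 : 0 ≤ ((Fintype.card U : ℝ) + Fintype.card W) ^
            (130 * X * Real.log (2 / X)) := by positivity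
        calc K * ((Fintype.card U : ℝ) + Fintype.card W) ^ (130 * X * Real.log (2 / X)) ≤
            |K| * ((Fintype.card U : ℝ) + Fintype.card W) ^ (130 * X * Real.log (2 / X)) :=
              mul_le_mul_of_nonneg_right (le_abs_self K) h2
          _ ≤ _ := mul_le_mul_of_nonneg_left h1 (abs_nonneg K)
      · rcases le_or_gt δ (1 / 1024) with hcB | hcB
        · -- threshold rounding
          obtain ⟨n0, K, h⟩ := fin_thr hδ hcB hcC.le hs1 hX
          refine ⟨n0, K, ?_⟩
          intro U W Ω ι _ _ _ _ _ I r E _ hn1 hn0 hE hr _ hval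
          classical
          left
          have hcard : (Fintype.card (U ⊕ W) : ℝ) = (Fintype.card U : ℝ) + Fintype.card W := by
            rw [Fintype.card_sum]; push_cast; ring
          refine h (U ⊕ W) ι Ω (fun e => Sum.inl (I.src e)) (fun e => Sum.inr (I.dst e))
            (fun v => v.isLeft) I.perm E r (by intro e; simp) hE (by rw [hcard]; exact hn0) ?_
            hval
          rw [hcard]
          refine le_trans ?_ hr
          have h1 : ((Fintype.card U : ℝ) + Fintype.card W) ^ (1300 * X * Real.log (2 / X)) ≤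
              ((Fintype.card U : ℝ) + Fintype.card W) ^ e0 := by
            apply Real.rpow_le_rpow_of_exponent_le hn1
            rw [he0]
            have : 0 ≤ X * Real.log (2 / X) := by positivity
            nlinarith
          have h2 : 0 ≤ ((Fintype.card U : ℝ) + Fintype.card W) ^
              (1300 * X * Real.log (2 / X)) := by positivity
          calc K * ((Fintype.card U : ℝ) + Fintype.card W) ^ (1300 * X * Real.log (2 / X)) ≤
              |K| * ((Fintype.card U : ℝ) + Fintype.card W) ^ (1300 * X * Real.log (2 / X)) :=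
                mul_le_mul_of_nonneg_right (le_abs_self K) h2
            _ ≤ _ := mul_le_mul_of_nonneg_left h1 (abs_nonneg K)
        · -- the theorem for completeness near one
          refine ⟨0, 579, ?_⟩
          intro U W Ω ι _ _ _ _ _ I r E hι hn1 _ hE hr hval' _
          right
          have hε0 : 0 < 1 - s := by linarith
          have hεA : 1 - s ≤ -Real.log s := by
            have := Real.log_le_sub_one_of_pos hs0
            linarith
          have hB7 : -Real.log δ ≤ 6.94 := by
            have h1 : Real.log (1 / 1024) < Real.log δ := Real.log_lt_log (by norm_num) hcB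
            have h2 : Real.log (1 / 1024) = -(10 * Real.log 2) := by
              rw [one_div, Real.log_inv]
              have : (1024 : ℝ) = 2 ^ (10 : ℕ) := by norm_num
              rw [this, Real.log_pow]
              push_cast
              ring
            have h3 := Real.log_two_lt_d9
            linarith
          have hAX : -Real.log s ≤ 6.94 * X := by
            have h1 : -Real.log s = X * (-Real.log δ) := by
              rw [hX', div_mul_cancel₀ _ hB.ne']
            rw [h1]
            nlinarith
          set y : ℝ := 87056 * X with hy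
          have hy0 : 0 < y := by positivity
          have hy1 : y ≤ 1 := by
            rw [hy]
            linarith
          have hmain := sos_main (1 - s) y hε0 hy0 hy1 U W Ω ι I r ?_ E hE
            (by linarith)
          · have h1 : (1 - s) / y ≤ (1 / 112) ^ 2 := by
              rw [div_le_iff₀ hy0, hy]
              nlinarith
            have h2 : √((1 - s) / y) ≤ 1 / 112 := by
              rw [Real.sqrt_le_left (by norm_num)]
              exact h1
            linarith
          · refine le_trans ?_ hr
            rw [abs_of_nonneg (by norm_num : (0 : ℝ) ≤ 579)]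
            have h1 : y * (1 + Real.log (1 / y)) ≤ e0 := by
              have h2 : Real.log (1 / y) ≤ Real.log (1 / X) := by
                apply Real.log_le_log (by positivity)
                apply one_div_le_one_div_of_le hX0
                rw [hy]
                linarith
              have h3 : Real.log (2 / X) = Real.log 2 + Real.log (1 / X) := by
                rw [← Real.log_mul (by norm_num) (by positivity)]
                congr 1
                ring
              have h4 : 0 ≤ Real.log (1 / X) := by
                apply Real.log_nonneg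
                rw [le_div_iff₀ hX0]
                linarith
              have h5 : 1 + Real.log (1 / y) ≤ 2 * Real.log (2 / X) := by
                linarith
              calc y * (1 + Real.log (1 / y)) ≤ y * (2 * Real.log (2 / X)) :=
                    mul_le_mul_of_nonneg_left h5 hy0.le
                _ = 174112 * (X * Real.log (2 / X)) := by rw [hy]; ring
                _ ≤ 200000 * (X * Real.log (2 / X)) := by
                    have : 0 ≤ X * Real.log (2 / X) := by positivity
                    linarith
                _ = e0 := by rw [he0]; ring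
            have h6 : ((Fintype.card U : ℝ) + Fintype.card W) ^ (y * (1 + Real.log (1 / y))) ≤
                ((Fintype.card U : ℝ) + Fintype.card W) ^ e0 :=
              Real.rpow_le_rpow_of_exponent_le hn1 h1
            have h7 : 1 ≤ ((Fintype.card U : ℝ) + Fintype.card W) ^ e0 :=
              Real.one_le_rpow hn1 he00.le
            linarith
  obtain ⟨n0, K, hkey⟩ := key
  refine ⟨|K| + |n0| * (s - δ)⁻¹ ^ 2 + 3, ?_⟩
  intro U W Ω ι _ _ _ _ I r E hE hr hval
  classical
  have hm : 0 < Fintype.card ι := by
    by_contra hcon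
    have h0 : Fintype.card ι = 0 := by omega
    have h1 : (fun z : U ⊕ W → Ω =>
        I.satFrac (fun u => z (Sum.inl u)) (fun v => z (Sum.inr v))) = 0 := by
      funext z
      unfold P325x.Game.satFrac
      rw [h0]
      simp
    rw [h1, map_zero] at hval
    linarith
  have hm' : (0 : ℝ) < Fintype.card ι := by exact_mod_cast hm
  have hι : Nonempty ι := Fintype.card_pos_iff.1 hm
  obtain ⟨i0⟩ := hι
  set n : ℝ := (Fintype.card U : ℝ) + Fintype.card W with hn
  have hcard : (Fintype.card (U ⊕ W) : ℝ) = n := by
    rw [Fintype.card_sum, hn]; push_cast; ring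
  have hn1 : 1 ≤ n := by
    have : 1 ≤ Fintype.card U := Fintype.card_pos_iff.2 ⟨I.src i0⟩
    have h2 : (1 : ℝ) ≤ Fintype.card U := by exact_mod_cast this
    have h3 : (0 : ℝ) ≤ Fintype.card W := Nat.cast_nonneg _
    linarith
  have hpow1 : 1 ≤ n ^ e0 := Real.one_le_rpow hn1 he00.le
  have hsum : s * Fintype.card ι ≤ ∑ e, E (P325u.sat (Sum.inl (I.src e) : U ⊕ W)
      (Sum.inr (I.dst e)) (I.perm e)) := by
    have h1 : (fun z : U ⊕ W → Ω =>
        I.satFrac (fun u => z (Sum.inl u)) (fun v => z (Sum.inr v))) =
        (Fintype.card ι : ℝ)⁻¹ • ∑ e, P325u.sat (Sum.inl (I.src e) : U ⊕ W)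
          (Sum.inr (I.dst e)) (I.perm e) := by
      funext z
      have h2 := satFrac_card I hm z
      rw [Pi.smul_apply, Finset.sum_apply, smul_eq_mul, ← div_eq_inv_mul, eq_div_iff hm'.ne', h2]
      unfold P325F.sat P325u.sat Good
      apply Finset.sum_congr rfl
      intro e _
      by_cases hc : I.perm e (z (Sum.inl (I.src e))) = z (Sum.inr (I.dst e))
      · simp only [hc, if_true]
      · simp only [hc, if_false]
    rw [h1, map_smul, map_sum, smul_eq_mul, ← div_eq_inv_mul, le_div_iff₀ hm'] at hval
    exact hval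
  have hq : 0 ≤ (s - δ)⁻¹ ^ 2 := by positivity
  have hfin : (∃ x : U ⊕ W → Ω, δ * Fintype.card ι ≤ P325F.sat
        (fun e => (Sum.inl (I.src e) : U ⊕ W)) (fun e => Sum.inr (I.dst e)) I.perm
        (fun _ => 1) x) ∨ δ ≤ I.value := by
    rcases le_or_gt n0 n with hlarge | hsmall
    · refine hkey U W Ω ι I r E ⟨i0⟩ hn1 hlarge hE (le_trans ?_ hr) hval hsum
      have h1 : |K| ≤ |K| + |n0| * (s - δ)⁻¹ ^ 2 + 3 := by
        have : 0 ≤ |n0| * (s - δ)⁻¹ ^ 2 := mul_nonneg (abs_nonneg _) hq
        linarith
      exact mul_le_mul_of_nonneg_right h1 (by linarith)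
    · left
      apply triv_bound (s := fun e => (Sum.inl (I.src e) : U ⊕ W))
        (t := fun e => Sum.inr (I.dst e)) I.perm (fun e => Sum.inl_ne_inr) hE hδs
        (by rw [hcard]; exact hn1) _ hsum
      rw [hcard]
      refine le_trans ?_ hr
      have h1 : n * (s - δ)⁻¹ ^ 2 ≤ |n0| * (s - δ)⁻¹ ^ 2 :=
        mul_le_mul_of_nonneg_right (hsmall.le.trans (le_abs_self n0)) hq
      have h2 : n * (s - δ)⁻¹ ^ 2 + 3 ≤ |K| + |n0| * (s - δ)⁻¹ ^ 2 + 3 := by
        have := abs_nonneg K
        linarith
      have h3 : 0 ≤ |K| + |n0| * (s - δ)⁻¹ ^ 2 + 3 := by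
        have h4 : 0 ≤ |n0| * (s - δ)⁻¹ ^ 2 := mul_nonneg (abs_nonneg _) hq
        have := abs_nonneg K
        linarith
      nlinarith
  rcases hfin with ⟨z, hz⟩ | h
  · rw [← satFrac_card I hm z] at hz
    exact (le_of_mul_le_mul_right hz hm').trans (P325u.satFrac_le_value I _ _)
  · exact h

end Pool.Agent.Lib.P325v
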