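import Pool.Agent.Lib.P325v.Nash

/-!
# Module Decay (2.5 h): few closed walks in a core

`A = res M S Lam` is symmetric with entries `≥ 0`, `A φ = φ`, `|A f| ≤ |f|` (for `f` supported on `S`: `|<f, A g>| ≤ (|f|^2+|g|^2)/2` by `fk` with `T = S` for `|f|`, `|g|` and `|f|+|g|`, or: `fk` gives
`<f, A f> ≤ |f|^2` for all `f` supported on `S`, and the same for `-A` since `<f, -A f> ≤ <|f|, A |f|>`; so `-1 ≤ A ≤ 1` and `A^2 ≤ 1`).
`trace (A^(2J)) = ∑ v ∈ S, |A^J e_v|^2` (`0 < J`). Fix `v ∈ S`, `f j = A^j e_v / φ v ≥ 0`, `U j = |f j|^2`, `<f j, φ> = 1`, `U j ≥ 1`, `U (j+1) ≤ U j`, `U 0 = 1/φ v^2 ≤ 2 card S/lam ≤ 2 card V/lam`.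
It is enough that `U J ≤ Q` (`trace = ∑ v, φ v^2 U J ≤ Q`). Suppose `U J > Q`. Let `j < J`, `u = U j`, `u' = U (j+1) > Q`. Since `M x y = 0` for `x, y` on the same side, `f j` and `f (j+1)` have disjoint
supports (`f j` lives on one side). `f = f j/√u + f (j+1)/√u'`: `f ⬝ᵥ f = 2`, `f ⬝ᵥ (A *ᵥ f) ≥ 2 <f (j+1), A f j>/√(u u') = 2 √(u'/u)`, `f ⬝ᵥ φ = 1/√u + 1/√u' ≤ 2/√u'`, so
`(f ⬝ᵥ f)/(f ⬝ᵥ φ)^2 ≥ u'/2 ≥ (16/lam^2)^8`. `nash` (`f ⬝ᵥ (M *ᵥ f) = Lam * (f ⬝ᵥ (A *ᵥ f))`): `√(u'/u) ≤ (u'/2)^(-lam/4) ≤ u'^(-lam/8)` (`u'/2 ≥ √u'` as `u' ≥ 4`). So `u ≥ u'^(1 + lam/4)`,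
`log (U j) ≥ (1 + lam/4) log (U (j+1))`. Hence `log (U 0) ≥ (1+lam/4)^J log (U J) > (1+lam/4)^J log Q ≥ log (2 card V/lam) ≥ log (U 0)`, a contradiction.
-/

set_option autoImplicit false

open Finset Matrix

namespace Pool.Agent.Lib.P325v

variable {V : Type} [Fintype V] [DecidableEq V] {M : Matrix V V ℝ} {lam Lam : ℝ} {S : Finset V}
  {φ : V → ℝ}

namespace DecayAux

omit [Fintype V] in
theorem res_symm (hs : M.IsSymm) (x y : V) : res M S Lam x y = res M S Lam y x := by
  unfold res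
  rw [hs.apply x y]
  by_cases h1 : x ∈ S <;> by_cases h2 : y ∈ S <;> simp [h1, h2]

omit [Fintype V] in
theorem res_nonneg (h0 : ∀ x y, 0 ≤ M x y) (hL : 0 < Lam) (x y : V) : 0 ≤ res M S Lam x y := by
  unfold res
  split_ifs
  · exact div_nonneg (h0 x y) hL.le
  · exact le_rfl

omit [Fintype V] in
theorem res_side {side : V → Bool} (hb : ∀ x y, side x = side y → M x y = 0) {x y : V}
    (h : side x = side y) : res M S Lam x y = 0 := by
  unfold res
  rw [hb x y h]
  simp

omit [Fintype V] in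
theorem res_off {x : V} (hx : x ∉ S) (y : V) : res M S Lam x y = 0 := by
  unfold res
  simp [hx]

omit [Fintype V] in
theorem res_off' {x : V} (hx : x ∉ S) (y : V) : res M S Lam y x = 0 := by
  unfold res
  simp [hx]

theorem res_phi (hC : IsCore M lam S Lam φ) : res M S Lam *ᵥ φ = φ := by
  funext x
  by_cases hx : x ∈ S
  · have h1 : (res M S Lam *ᵥ φ) x = (M *ᵥ φ) x / Lam := by
      rw [Matrix.mulVec, dotProduct, Matrix.mulVec, dotProduct, Finset.sum_div]
      refine Finset.sum_congr rfl fun y _ => ?_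
      unfold res
      by_cases hy : y ∈ S
      · rw [if_pos ⟨hx, hy⟩]
        ring
      · rw [hC.supp y hy]
        simp
    rw [h1, hC.eig x hx]
    have := hC.pos.ne'
    field_simp
  · rw [hC.supp x hx, Matrix.mulVec, dotProduct]
    refine Finset.sum_eq_zero fun y _ => ?_
    rw [res_off hx, zero_mul]

/-- the quadratic form of `res` on functions supported on `S` -/
theorem quad_res (hL : 0 < Lam) {f : V → ℝ} (hf : ∀ x, x ∉ S → f x = 0) :
    f ⬝ᵥ (M *ᵥ f) = Lam * (f ⬝ᵥ (res M S Lam *ᵥ f)) := by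
  rw [dotProduct, dotProduct, Finset.mul_sum]
  refine Finset.sum_congr rfl fun x _ => ?_
  by_cases hx : x ∈ S
  · rw [Matrix.mulVec, dotProduct, Matrix.mulVec, dotProduct]
    rw [mul_left_comm]
    congr 1
    rw [Finset.mul_sum]
    refine Finset.sum_congr rfl fun y _ => ?_
    unfold res
    by_cases hy : y ∈ S
    · rw [if_pos ⟨hx, hy⟩]
      field_simp
    · rw [hf y hy]
      simp
  · rw [hf x hx]
    ring

theorem quad_le (hC : IsCore M lam S Lam φ) (f : V → ℝ) :
    f ⬝ᵥ (res M S Lam *ᵥ f) ≤ f ⬝ᵥ f := by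
  set g : V → ℝ := fun x => if x ∈ S then f x else 0 with hg
  have hgS : ∀ x, x ∉ S → g x = 0 := fun x hx => by simp [hg, hx]
  have h1 : f ⬝ᵥ (res M S Lam *ᵥ f) = g ⬝ᵥ (res M S Lam *ᵥ g) := by
    rw [dotProduct, dotProduct]
    refine Finset.sum_congr rfl fun x _ => ?_
    rw [Matrix.mulVec, dotProduct, Matrix.mulVec, dotProduct]
    by_cases hx : x ∈ S
    · have : g x = f x := by simp [hg, hx]
      rw [this]
      congr 1
      refine Finset.sum_congr rfl fun y _ => ?_
      by_cases hy : y ∈ S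
      · have : g y = f y := by simp [hg, hy]
        rw [this]
      · rw [res_off' hy, zero_mul, zero_mul]
    · rw [hgS x hx, zero_mul]
      have : ∑ y, res M S Lam x y * f y = 0 :=
        Finset.sum_eq_zero fun y _ => by rw [res_off hx, zero_mul]
      rw [this, mul_zero]
  have h2 : g ⬝ᵥ g ≤ f ⬝ᵥ f := by
    rw [dotProduct, dotProduct]
    refine Finset.sum_le_sum fun x _ => ?_
    by_cases hx : x ∈ S
    · simp [hg, hx]
    · rw [hgS x hx, mul_zero]
      exact mul_self_nonneg _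
  have h3 := hC.fk S g (Finset.Subset.refl S) hgS
  have hS0 : (S.card : ℝ) ≠ 0 := by
    have := hC.nonempty.card_pos
    positivity
  rw [div_self hS0, Real.one_rpow, mul_one, quad_res hC.pos hgS] at h3
  rw [h1]
  exact (le_of_mul_le_mul_left h3 hC.pos).trans h2

theorem quad_ge (h0 : ∀ x y, 0 ≤ M x y) (hC : IsCore M lam S Lam φ) (f : V → ℝ) :
    -(f ⬝ᵥ f) ≤ f ⬝ᵥ (res M S Lam *ᵥ f) := by
  have h1 := quad_le hC (fun x => |f x|)
  have h2 : (fun x => |f x|) ⬝ᵥ (fun x => |f x|) = f ⬝ᵥ f := by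
    rw [dotProduct, dotProduct]
    exact Finset.sum_congr rfl fun x _ => abs_mul_abs_self _
  have h3 : -(f ⬝ᵥ (res M S Lam *ᵥ f)) ≤
      (fun x => |f x|) ⬝ᵥ (res M S Lam *ᵥ (fun x => |f x|)) := by
    rw [dotProduct, dotProduct, ← Finset.sum_neg_distrib]
    refine Finset.sum_le_sum fun x _ => ?_
    rw [Matrix.mulVec, dotProduct, Matrix.mulVec, dotProduct, Finset.mul_sum, Finset.mul_sum,
      ← Finset.sum_neg_distrib]
    refine Finset.sum_le_sum fun y _ => ?_
    have h4 := res_nonneg (S := S) h0 hC.pos x y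
    have h5 : |f x| * (res M S Lam x y * |f y|) = |f x * (res M S Lam x y * f y)| := by
      rw [abs_mul, abs_mul, abs_of_nonneg h4]
    rw [h5]
    exact neg_le_abs _
  rw [h2] at h1
  linarith

theorem symm_dot (hs : M.IsSymm) (f g : V → ℝ) :
    f ⬝ᵥ (res M S Lam *ᵥ g) = (res M S Lam *ᵥ f) ⬝ᵥ g := by
  have h1 : (res M S Lam)ᵀ = res M S Lam := by
    ext x y
    rw [Matrix.transpose_apply, res_symm hs]
  rw [Matrix.dotProduct_mulVec, ← Matrix.mulVec_transpose, h1]

theorem contr (hs : M.IsSymm) (h0 : ∀ x y, 0 ≤ M x y) (hC : IsCore M lam S Lam φ) (g : V → ℝ) :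
    (res M S Lam *ᵥ g) ⬝ᵥ (res M S Lam *ᵥ g) ≤ g ⬝ᵥ g := by
  set A := res M S Lam with hA
  set f := A *ᵥ g with hf
  have h1 := quad_le hC (f + g)
  have h2 := quad_ge h0 hC (f - g)
  rw [← hA] at h1 h2
  have h3 : g ⬝ᵥ (A *ᵥ f) = f ⬝ᵥ (A *ᵥ g) := by
    rw [hA, symm_dot hs, dotProduct_comm]
  have h4 : f ⬝ᵥ g = g ⬝ᵥ f := dotProduct_comm _ _
  have h5 : f ⬝ᵥ (A *ᵥ g) = f ⬝ᵥ f := rfl
  simp only [Matrix.mulVec_add, Matrix.mulVec_sub, dotProduct_add, add_dotProduct,
    dotProduct_sub, sub_dotProduct] at h1 h2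
  linarith

/-- one step of the decay -/
theorem step (hs : M.IsSymm) (h0 : ∀ x y, 0 ≤ M x y) (hC : IsCore M lam S Lam φ)
    (hl : 0 < lam) (hl8 : lam ≤ 1 / 8) {Q : ℝ} (hQ : 2 * (16 / lam ^ 2) ^ 8 ≤ Q)
    {g : V → ℝ} (hg0 : ∀ x, 0 ≤ g x) (hgS : ∀ x, x ∉ S → g x = 0) (hg1 : g ⬝ᵥ φ = 1)
    (hdis : g ⬝ᵥ (res M S Lam *ᵥ g) = 0)
    (hu' : Q < (res M S Lam *ᵥ g) ⬝ᵥ (res M S Lam *ᵥ g)) :
    (1 + lam / 4) * Real.log ((res M S Lam *ᵥ g) ⬝ᵥ (res M S Lam *ᵥ g)) ≤
      Real.log (g ⬝ᵥ g) := by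
  set A := res M S Lam with hA
  set h := A *ᵥ g with hh
  set u := g ⬝ᵥ g with hu
  set u' := h ⬝ᵥ h with hu'd
  have hh0 : ∀ x, 0 ≤ h x := by
    intro x
    rw [hh, Matrix.mulVec, dotProduct]
    exact Finset.sum_nonneg fun y _ => mul_nonneg (res_nonneg h0 hC.pos x y) (hg0 y)
  have hhS : ∀ x, x ∉ S → h x = 0 := by
    intro x hx
    rw [hh, Matrix.mulVec, dotProduct]
    exact Finset.sum_eq_zero fun y _ => by rw [hA, res_off hx, zero_mul]
  have hh1 : h ⬝ᵥ φ = 1 := by
    rw [hh, hA, ← symm_dot hs, res_phi hC, hg1]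
  have huu' : u' ≤ u := contr hs h0 hC g
  -- Q is large
  have h16 : (1024 : ℝ) ≤ 16 / lam ^ 2 := by
    rw [le_div_iff₀ (by positivity)]
    nlinarith
  have hQ4 : (4 : ℝ) ≤ Q := by
    have : (1024 : ℝ) ^ 8 ≤ (16 / lam ^ 2) ^ 8 := by gcongr
    have h2 : (4 : ℝ) ≤ 2 * 1024 ^ 8 := by norm_num
    linarith
  have hu'4 : (4 : ℝ) < u' := lt_of_le_of_lt hQ4 hu'
  have hu'0 : 0 < u' := by linarith
  have hu0 : 0 < u := by linarith
  set a := 1 / Real.sqrt u with ha
  set b := 1 / Real.sqrt u' with hb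
  have hsu : 0 < Real.sqrt u := Real.sqrt_pos.2 hu0
  have hsu' : 0 < Real.sqrt u' := Real.sqrt_pos.2 hu'0
  have ha0 : 0 < a := by positivity
  have hb0 : 0 < b := by positivity
  have ha2 : a ^ 2 * u = 1 := by
    rw [ha, div_pow, one_pow, Real.sq_sqrt hu0.le]
    field_simp
  have hb2 : b ^ 2 * u' = 1 := by
    rw [hb, div_pow, one_pow, Real.sq_sqrt hu'0.le]
    field_simp
  have hab : a ≤ b := by
    rw [ha, hb]
    exact one_div_le_one_div_of_le hsu' (Real.sqrt_le_sqrt huu')
  set f := a • g + b • h with hf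
  have hgh : g ⬝ᵥ h = 0 := hdis
  have hhg : h ⬝ᵥ g = 0 := by rw [dotProduct_comm]; exact hdis
  have hff : f ⬝ᵥ f = 2 := by
    rw [hf]
    simp only [dotProduct_add, add_dotProduct, dotProduct_smul, smul_dotProduct, smul_eq_mul]
    rw [hgh, hhg, ← hu, ← hu'd]
    linarith
  have hf0 : ∀ x, 0 ≤ f x := by
    intro x
    rw [hf]
    simp only [Pi.add_apply, Pi.smul_apply, smul_eq_mul]
    have := hg0 x
    have := hh0 x
    positivity
  have hfS : ∀ x, x ∉ S → f x = 0 := by
    intro x hx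
    rw [hf]
    simp only [Pi.add_apply, Pi.smul_apply, smul_eq_mul]
    rw [hgS x hx, hhS x hx]
    ring
  have hfφ : f ⬝ᵥ φ = a + b := by
    rw [hf]
    simp only [add_dotProduct, smul_dotProduct, smul_eq_mul]
    rw [hg1, hh1]
    ring
  have hℓ : 0 < f ⬝ᵥ φ := by
    rw [hfφ]
    positivity
  have hratio : u' / 2 ≤ (f ⬝ᵥ f) / (f ⬝ᵥ φ) ^ 2 := by
    rw [hff, hfφ, div_le_div_iff₀ (by norm_num) (by positivity)]
    have : (a + b) ^ 2 ≤ (2 * b) ^ 2 := by
      gcongr
      linarith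
    nlinarith
  have hU : (16 / lam ^ 2) ^ 8 ≤ (f ⬝ᵥ f) / (f ⬝ᵥ φ) ^ 2 := by
    linarith
  have hn := nash hs h0 hC hl hl8 hf0 hfS hℓ hU
  rw [quad_res hC.pos hfS, mul_assoc] at hn
  have hn1 := le_of_mul_le_mul_left hn hC.pos
  rw [← hA] at hn1
  -- lower bound for the quadratic form
  have hlow : 2 * (a * b * u') ≤ f ⬝ᵥ (A *ᵥ f) := by
    have e1 : A *ᵥ f = a • h + b • (A *ᵥ h) := by
      rw [hf, Matrix.mulVec_add, Matrix.mulVec_smul, Matrix.mulVec_smul]
    have e2 : g ⬝ᵥ (A *ᵥ h) = u' := by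
      rw [hA, symm_dot hs]
    have e3 : 0 ≤ h ⬝ᵥ (A *ᵥ h) := by
      rw [dotProduct]
      refine Finset.sum_nonneg fun x _ => mul_nonneg (hh0 x) ?_
      rw [Matrix.mulVec, dotProduct]
      exact Finset.sum_nonneg fun y _ => mul_nonneg (res_nonneg h0 hC.pos x y) (hh0 y)
    rw [e1, hf]
    simp only [dotProduct_add, add_dotProduct, dotProduct_smul, smul_dotProduct, smul_eq_mul]
    rw [hgh, e2, ← hu'd]
    have e4 : 0 ≤ b * (b * (h ⬝ᵥ A *ᵥ h)) := by positivity
    linarith
  have hpow : ((f ⬝ᵥ f) / (f ⬝ᵥ φ) ^ 2) ^ (-(lam / 4)) ≤ u' ^ (-(lam / 8)) := by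
    have e1 : ((f ⬝ᵥ f) / (f ⬝ᵥ φ) ^ 2) ^ (-(lam / 4)) ≤ (u' / 2) ^ (-(lam / 4)) :=
      Real.rpow_le_rpow_of_nonpos (by positivity) hratio (by linarith)
    have e2 : (u' / 2) ^ (-(lam / 4)) ≤ (Real.sqrt u') ^ (-(lam / 4)) := by
      refine Real.rpow_le_rpow_of_nonpos hsu' ?_ (by linarith)
      have e3 : 2 ≤ Real.sqrt u' := by
        rw [show (2 : ℝ) = Real.sqrt 4 by
          rw [show (4 : ℝ) = 2 ^ 2 by norm_num, Real.sqrt_sq (by norm_num)]]
        exact Real.sqrt_le_sqrt hu'4.le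
      have e4 : Real.sqrt u' * Real.sqrt u' = u' := Real.mul_self_sqrt hu'0.le
      nlinarith
    have e5 : (Real.sqrt u') ^ (-(lam / 4)) = u' ^ (-(lam / 8)) := by
      rw [Real.sqrt_eq_rpow, ← Real.rpow_mul hu'0.le]
      congr 1
      ring
    rw [← e5]
    exact e1.trans e2
  have hfin : a * b * u' ≤ u' ^ (-(lam / 8)) := by
    rw [hff] at hn1
    rw [hff] at hpow
    nlinarith
  -- take logarithms
  have hab' : a * b * u' = Real.sqrt u' / Real.sqrt u := by
    have e4 : Real.sqrt u' * Real.sqrt u' = u' := Real.mul_self_sqrt hu'0.le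
    rw [ha, hb]
    field_simp
    linarith
  have hlog := Real.log_le_log (by positivity) hfin
  rw [hab', Real.log_div hsu'.ne' hsu.ne', Real.log_sqrt hu'0.le, Real.log_sqrt hu0.le,
    Real.log_rpow hu'0] at hlog
  linarith

end DecayAux

open DecayAux

theorem core_trace (hs : M.IsSymm) (h0 : ∀ x y, 0 ≤ M x y) {side : V → Bool}
    (hb : ∀ x y, side x = side y → M x y = 0) (hC : IsCore M lam S Lam φ)
    (hl : 0 < lam) (hl8 : lam ≤ 1 / 8) {Q : ℝ} (hQ : 2 * (16 / lam ^ 2) ^ 8 ≤ Q) {J : ℕ}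
    (hJ : 0 < J)
    (hJQ : Real.log (2 * Fintype.card V / lam) ≤ (1 + lam / 4) ^ J * Real.log Q) :
    (res M S Lam ^ (2 * J)).trace ≤ Q := by
  set A := res M S Lam with hA
  have hAs : Aᵀ = A := by
    ext x y
    rw [Matrix.transpose_apply, hA, res_symm hs]
  have hAJs : (A ^ J)ᵀ = A ^ J := by
    rw [Matrix.transpose_pow, hAs]
  have hcardS : 0 < (S.card : ℝ) := by
    have := hC.nonempty.card_pos
    positivity
  have hQ0 : 0 < Q := by
    have : 0 < 2 * (16 / lam ^ 2) ^ 8 := by positivity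
    linarith
  -- the bound for one vertex
  have hone : ∀ v ∈ S, (A ^ (2 * J)) v v ≤ φ v ^ 2 * Q := by
    intro v hv
    have hφ2 : 0 < φ v ^ 2 := lt_of_lt_of_le (by positivity) (hC.low v hv)
    have hφv : 0 < φ v := by
      rcases (hC.nonneg v).lt_or_eq with h | h
      · exact h
      · rw [← h] at hφ2
        norm_num at hφ2
    set F : ℕ → V → ℝ := fun j => (A ^ j) *ᵥ (Pi.single v (φ v)⁻¹) with hF
    have hFs : ∀ j, F (j + 1) = A *ᵥ F j := by
      intro j
      rw [hF]
      simp only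
      rw [Matrix.mulVec_mulVec, ← pow_succ']
    have hF0' : F 0 = Pi.single v (φ v)⁻¹ := by
      rw [hF]
      simp only
      rw [pow_zero, Matrix.one_mulVec]
    have hFnn : ∀ j x, 0 ≤ F j x := by
      intro j
      induction j with
      | zero =>
        intro x
        rw [hF0', Pi.single_apply]
        split_ifs
        · positivity
        · exact le_rfl
      | succ j ih =>
        intro x
        rw [hFs, Matrix.mulVec, dotProduct]
        exact Finset.sum_nonneg fun y _ => mul_nonneg (res_nonneg h0 hC.pos x y) (ih y)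
    have hFS : ∀ j x, x ∉ S → F j x = 0 := by
      intro j
      cases j with
      | zero =>
        intro x hx
        rw [hF0', Pi.single_apply, if_neg]
        rintro rfl
        exact hx hv
      | succ j =>
        intro x hx
        rw [hFs, Matrix.mulVec, dotProduct]
        exact Finset.sum_eq_zero fun y _ => by rw [hA, res_off hx, zero_mul]
    have hFφ : ∀ j, F j ⬝ᵥ φ = 1 := by
      intro j
      induction j with
      | zero =>
        rw [hF0', single_dotProduct]
        field_simp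
      | succ j ih =>
        rw [hFs, hA, ← symm_dot hs, res_phi hC, ih]
    have hFside : ∀ j, ∃ c : Bool, ∀ x, side x ≠ c → F j x = 0 := by
      intro j
      induction j with
      | zero =>
        refine ⟨side v, fun x hx => ?_⟩
        rw [hF0', Pi.single_apply, if_neg]
        rintro rfl
        exact hx rfl
      | succ j ih =>
        obtain ⟨c, hc⟩ := ih
        refine ⟨!c, fun x hx => ?_⟩
        rw [hFs, Matrix.mulVec, dotProduct]
        refine Finset.sum_eq_zero fun y _ => ?_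
        by_cases hy : side y = c
        · have : side x = side y := by
            rw [hy]
            cases c <;> cases hxx : side x <;> simp_all
          rw [hA, res_side hb this, zero_mul]
        · rw [hc y hy, mul_zero]
    have hdis : ∀ j, F j ⬝ᵥ (A *ᵥ F j) = 0 := by
      intro j
      obtain ⟨c, hc⟩ := hFside j
      rw [dotProduct]
      refine Finset.sum_eq_zero fun x _ => ?_
      by_cases hx : side x = c
      · have : (A *ᵥ F j) x = 0 := by
          rw [Matrix.mulVec, dotProduct]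
          refine Finset.sum_eq_zero fun y _ => ?_
          by_cases hy : side y = c
          · rw [hA, res_side hb (hx.trans hy.symm), zero_mul]
          · rw [hc y hy, mul_zero]
        rw [this, mul_zero]
      · rw [hc x hx, zero_mul]
    set U : ℕ → ℝ := fun j => F j ⬝ᵥ F j with hU
    have hUmono : ∀ j, U (j + 1) ≤ U j := by
      intro j
      rw [hU]
      simp only
      rw [hFs]
      exact contr hs h0 hC (F j)
    have hUanti : Antitone U := antitone_nat_of_succ_le hUmono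
    have hUJ : U J ≤ Q := by
      by_contra hneg
      have hneg' : Q < U J := not_le.1 hneg
      have hstep : ∀ i, i ≤ J → (1 + lam / 4) ^ i * Real.log (U J) ≤ Real.log (U (J - i)) := by
        intro i
        induction i with
        | zero =>
          intro _
          simp
        | succ i ih =>
          intro hi
          have h1 := ih (by omega)
          have h2 : J - i = (J - (i + 1)) + 1 := by omega
          have h3 : Q < U ((J - (i + 1)) + 1) := by
            refine lt_of_lt_of_le hneg' (hUanti ?_)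
            omega
          have h4 := step hs h0 hC hl hl8 hQ (hFnn (J - (i + 1))) (hFS (J - (i + 1)))
            (hFφ (J - (i + 1))) (hdis (J - (i + 1))) (by
              have : U ((J - (i + 1)) + 1) = (A *ᵥ F (J - (i + 1))) ⬝ᵥ (A *ᵥ F (J - (i + 1))) := by
                rw [hU]
                simp only
                rw [hFs]
              rw [← this]
              exact h3)
          have h5 : (A *ᵥ F (J - (i + 1))) ⬝ᵥ (A *ᵥ F (J - (i + 1))) = U (J - i) := by
            rw [h2, hU]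
            simp only
            rw [hFs]
          rw [← hA, h5] at h4
          calc (1 + lam / 4) ^ (i + 1) * Real.log (U J) =
              (1 + lam / 4) * ((1 + lam / 4) ^ i * Real.log (U J)) := by ring
            _ ≤ (1 + lam / 4) * Real.log (U (J - i)) := by gcongr
            _ ≤ _ := h4
      have h6 := hstep J le_rfl
      rw [Nat.sub_self] at h6
      have h7 : U 0 = 1 / φ v ^ 2 := by
        rw [hU]
        simp only
        rw [hF0', single_dotProduct, Pi.single_eq_same]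
        field_simp
      have h8 : U 0 ≤ 2 * Fintype.card V / lam := by
        rw [h7, div_le_div_iff₀ hφ2 hl]
        have h9 := hC.low v hv
        rw [div_le_iff₀ (by positivity)] at h9
        have h10 : (S.card : ℝ) ≤ Fintype.card V := by
          exact_mod_cast Finset.card_le_univ S
        calc 1 * lam = lam := one_mul _
          _ ≤ φ v ^ 2 * (2 * S.card) := h9
          _ ≤ φ v ^ 2 * (2 * Fintype.card V) := by gcongr
          _ = _ := by ring
      have h11 : Real.log (U 0) ≤ Real.log (2 * Fintype.card V / lam) :=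
        Real.log_le_log (by rw [h7]; positivity) h8
      have h12 : Real.log Q < Real.log (U J) := Real.log_lt_log hQ0 hneg'
      have h13 : (1 + lam / 4) ^ J * Real.log Q < (1 + lam / 4) ^ J * Real.log (U J) := by
        gcongr
      linarith
    -- the entry
    have h14 : (A ^ (2 * J)) v v = φ v ^ 2 * U J := by
      have h15 : F J = fun x => (A ^ J) x v * (φ v)⁻¹ := by
        rw [hF]
        simp only
        funext x
        rw [Matrix.mulVec_single]
        simp [Matrix.col_apply, mul_comm]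
      rw [hU]
      simp only
      rw [h15, two_mul, pow_add, Matrix.mul_apply, dotProduct, Finset.mul_sum]
      refine Finset.sum_congr rfl fun x _ => ?_
      have h16 : (A ^ J) v x = (A ^ J) x v := by
        conv_lhs => rw [← hAJs]
        rw [Matrix.transpose_apply]
      rw [h16]
      field_simp
    rw [h14]
    gcongr
  have hzero : ∀ v, v ∉ S → (A ^ (2 * J)) v v = 0 := by
    intro v hv
    obtain ⟨k, hk⟩ : ∃ k, 2 * J = k + 1 := ⟨2 * J - 1, by omega⟩
    rw [hk, pow_succ', Matrix.mul_apply]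
    exact Finset.sum_eq_zero fun y _ => by rw [hA, res_off hv, zero_mul]
  rw [Matrix.trace]
  simp only [Matrix.diag_apply]
  calc ∑ v, (A ^ (2 * J)) v v ≤ ∑ v, φ v ^ 2 * Q := by
        refine Finset.sum_le_sum fun v _ => ?_
        by_cases hv : v ∈ S
        · exact hone v hv
        · rw [hzero v hv]
          positivity
    _ = Q := by
        rw [← Finset.sum_mul]
        have : ∑ v, φ v ^ 2 = 1 := by
          rw [← hC.norm, dotProduct]
          exact Finset.sum_congr rfl fun x _ => sq _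
        rw [this, one_mul]

end Pool.Agent.Lib.P325v
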