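import Pool.Agent.Lib.P325v.Defs

/-!
# Module Greedy (1.5 h): greedy extraction

Strong induction on the number of vertices `x` with `0 < dg s t w x`. If `∑ w = 0`, any labelling (`hL`; both sides are `0`, `sat ≥ 0`). Otherwise take `T, y` from `hstep`;
`w2 e = 0` if `s e ∈ T` or `t e ∈ T`, and `w e` otherwise. The vertices with `dg s t w2 > 0` are among those with `dg s t w > 0` and not in `T`, and `T` contains a vertex with `dg s t w > 0`.
Let `z` be the labelling for `w2`, and `u x = y x` for `x ∈ T`, `z x` otherwise. `sat w u ≥ sat (ins T) y + sat w2 z ≥ κ (∑ x ∈ T, dg s t w x) + κ ∑ w2 ≥ κ ∑ w`, since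
`w e ≤ w2 e + w e * ([s e ∈ T] + [t e ∈ T])`, whose sum is `∑ w2 + ∑ x ∈ T, dg s t w x`.
-/

set_option autoImplicit false

open Finset Matrix Pool.Agent.Lib.P325F

namespace Pool.Agent.Lib.P325v

variable {V ι L : Type} [Fintype V] [DecidableEq V] [Fintype ι] {s t : ι → V}

namespace GreedyAux

theorem main (hL : Nonempty (V → L)) (perm : ι → Equiv.Perm L) (G : ι → Prop) {κ : ℝ}
    (hκ : 0 ≤ κ)
    (hstep : ∀ w : ι → ℝ, (∀ e, 0 ≤ w e) → (∀ e, w e ≠ 0 → G e) → 0 < ∑ e, w e →
      ∃ (T : Finset V) (y : V → L), 0 < ∑ x ∈ T, dg s t w x ∧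
        κ * ∑ x ∈ T, dg s t w x ≤ sat s t perm (ins s t w T) y) (n : ℕ) :
    ∀ w : ι → ℝ, (∀ e, 0 ≤ w e) → (∀ e, w e ≠ 0 → G e) →
      (univ.filter fun x => 0 < dg s t w x).card ≤ n →
      ∃ u : V → L, κ * ∑ e, w e ≤ sat s t perm w u := by
  classical
  induction n with
  | zero =>
    intro w hw hG hc
    obtain ⟨u⟩ := hL
    refine ⟨u, ?_⟩
    have hall : ∀ x, dg s t w x = 0 := by
      intro x
      by_contra hx
      have hpos : 0 < dg s t w x := lt_of_le_of_ne (dg_nonneg hw x) (Ne.symm hx)
      have : x ∈ univ.filter fun x => 0 < dg s t w x := mem_filter.2 ⟨mem_univ _, hpos⟩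
      have := Finset.card_pos.2 ⟨x, this⟩
      omega
    have h0 : ∑ e, w e = 0 := by
      have h1 := sum_dg (s := s) (t := t) (w := w)
      rw [Finset.sum_eq_zero fun x _ => hall x] at h1
      linarith
    rw [h0, mul_zero]
    unfold sat
    refine Finset.sum_nonneg fun e _ => ?_
    split_ifs
    · exact hw e
    · exact le_rfl
  | succ n ih =>
    intro w hw hG hc
    by_cases hsum : 0 < ∑ e, w e
    · obtain ⟨T, y, hT, hTy⟩ := hstep w hw hG hsum
      set w2 : ι → ℝ := fun e => if s e ∈ T ∨ t e ∈ T then 0 else w e with hw2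
      have hw20 : ∀ e, 0 ≤ w2 e := by
        intro e
        rw [hw2]
        simp only
        split_ifs
        · exact le_rfl
        · exact hw e
      have hw2le : ∀ e, w2 e ≤ w e := by
        intro e
        rw [hw2]
        simp only
        split_ifs
        · exact hw e
        · exact le_rfl
      have hG2 : ∀ e, w2 e ≠ 0 → G e := by
        intro e he
        refine hG e fun h0 => he ?_
        exact le_antisymm (by rw [← h0]; exact hw2le e) (hw20 e)
      have hdle : ∀ x, dg s t w2 x ≤ dg s t w x := by
        intro x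
        unfold dg
        refine Finset.sum_le_sum fun e _ => mul_le_mul_of_nonneg_right (hw2le e) ?_
        split_ifs <;> norm_num
      have hdT : ∀ x ∈ T, dg s t w2 x = 0 := by
        intro x hx
        unfold dg
        refine Finset.sum_eq_zero fun e _ => ?_
        by_cases h1 : s e ∈ T ∨ t e ∈ T
        · rw [hw2]; simp only [if_pos h1, zero_mul]
        · have h2 : ¬ s e = x := fun h => h1 (Or.inl (by rw [h]; exact hx))
          have h3 : ¬ t e = x := fun h => h1 (Or.inr (by rw [h]; exact hx))
          rw [if_neg h2, if_neg h3]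
          ring
      obtain ⟨x0, hx0T, hx0⟩ : ∃ x ∈ T, 0 < dg s t w x := by
        by_contra hno
        have : ∑ x ∈ T, dg s t w x ≤ 0 := Finset.sum_nonpos fun x hx => by
          by_contra hh
          exact hno ⟨x, hx, not_le.1 hh⟩
        linarith
      have hcard : (univ.filter fun x => 0 < dg s t w2 x).card ≤ n := by
        have hss : (univ.filter fun x => 0 < dg s t w2 x) ⊆
            (univ.filter fun x => 0 < dg s t w x).erase x0 := by
          intro x hx
          have hx1 := (mem_filter.1 hx).2
          refine mem_erase.2 ⟨?_, mem_filter.2 ⟨mem_univ _, hx1.trans_le (hdle x)⟩⟩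
          rintro rfl
          rw [hdT _ hx0T] at hx1
          exact lt_irrefl _ hx1
        have h1 := Finset.card_le_card hss
        have h2 : x0 ∈ univ.filter (fun x => 0 < dg s t w x) := mem_filter.2 ⟨mem_univ _, hx0⟩
        rw [Finset.card_erase_of_mem h2] at h1
        omega
      obtain ⟨z, hz⟩ := ih w2 hw20 hG2 hcard
      refine ⟨fun x => if x ∈ T then y x else z x, ?_⟩
      have h1 : sat s t perm (ins s t w T) y + sat s t perm w2 z ≤
          sat s t perm w (fun x => if x ∈ T then y x else z x) := by
        unfold sat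
        rw [← Finset.sum_add_distrib]
        refine Finset.sum_le_sum fun e _ => ?_
        by_cases hs : s e ∈ T
        · by_cases ht : t e ∈ T
          · have e1 : ins s t w T e = w e := by unfold ins; rw [if_pos ⟨hs, ht⟩]
            have e2 : w2 e = 0 := by rw [hw2]; simp only [if_pos (Or.inl hs)]
            have e3 : Good s t perm (fun x => if x ∈ T then y x else z x) e ↔
                Good s t perm y e := by
              unfold Good
              simp only [if_pos hs, if_pos ht]
            rw [e1, e2]
            by_cases hg : Good s t perm y e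
            · rw [if_pos hg, if_pos (e3.2 hg)]
              split_ifs <;> simp
            · rw [if_neg hg, if_neg (fun h => hg (e3.1 h))]
              split_ifs <;> simp
          · have e1 : ins s t w T e = 0 := by unfold ins; rw [if_neg (fun h => ht h.2)]
            have e2 : w2 e = 0 := by rw [hw2]; simp only [if_pos (Or.inl hs)]
            rw [e1, e2]
            have := hw e
            split_ifs <;> simp [this]
        · by_cases ht : t e ∈ T
          · have e1 : ins s t w T e = 0 := by unfold ins; rw [if_neg (fun h => hs h.1)]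
            have e2 : w2 e = 0 := by rw [hw2]; simp only [if_pos (Or.inr ht)]
            rw [e1, e2]
            have := hw e
            split_ifs <;> simp [this]
          · have e1 : ins s t w T e = 0 := by unfold ins; rw [if_neg (fun h => hs h.1)]
            have e2 : w2 e = w e := by
              rw [hw2]
              simp only
              rw [if_neg (fun h => h.elim hs ht)]
            have e3 : Good s t perm (fun x => if x ∈ T then y x else z x) e ↔
                Good s t perm z e := by
              unfold Good
              simp only [if_neg hs, if_neg ht]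
            rw [e1, e2]
            by_cases hg : Good s t perm z e
            · rw [if_pos hg, if_pos (e3.2 hg)]
              split_ifs <;> simp
            · rw [if_neg hg, if_neg (fun h => hg (e3.1 h))]
              split_ifs <;> simp
      have h2 : ∑ e, w e ≤ ∑ x ∈ T, dg s t w x + ∑ e, w2 e := by
        have a1 := sum_dg_mul (s := s) (t := t) (w := w) (fun x => if x ∈ T then (1 : ℝ) else 0)
        have a2 : ∑ x, dg s t w x * (if x ∈ T then (1 : ℝ) else 0) = ∑ x ∈ T, dg s t w x := by
          simp only [mul_ite, mul_one, mul_zero]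
          rw [Finset.sum_ite_mem, Finset.univ_inter]
        rw [← a2, a1, ← Finset.sum_add_distrib]
        refine Finset.sum_le_sum fun e _ => ?_
        have hwe := hw e
        rw [hw2]
        simp only
        by_cases hs : s e ∈ T
        · rw [if_pos hs, if_pos (Or.inl hs)]
          split_ifs <;> linarith
        · by_cases ht : t e ∈ T
          · rw [if_neg hs, if_pos ht, if_pos (Or.inr ht)]
            linarith
          · rw [if_neg hs, if_neg ht, if_neg (fun h => h.elim hs ht)]
            linarith
      have h3 : κ * ∑ e, w e ≤ κ * (∑ x ∈ T, dg s t w x + ∑ e, w2 e) :=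
        mul_le_mul_of_nonneg_left h2 hκ
      rw [mul_add] at h3
      linarith
    · obtain ⟨u⟩ := hL
      refine ⟨u, ?_⟩
      have h0 : ∑ e, w e = 0 := le_antisymm (not_lt.1 hsum) (Finset.sum_nonneg fun e _ => hw e)
      rw [h0, mul_zero]
      unfold sat
      refine Finset.sum_nonneg fun e _ => ?_
      split_ifs
      · exact hw e
      · exact le_rfl

end GreedyAux

theorem greedy (hL : Nonempty (V → L)) (perm : ι → Equiv.Perm L) (G : ι → Prop) {κ : ℝ}
    (hκ : 0 ≤ κ)
    (hstep : ∀ w : ι → ℝ, (∀ e, 0 ≤ w e) → (∀ e, w e ≠ 0 → G e) → 0 < ∑ e, w e →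
      ∃ (T : Finset V) (y : V → L), 0 < ∑ x ∈ T, dg s t w x ∧
        κ * ∑ x ∈ T, dg s t w x ≤ sat s t perm (ins s t w T) y)
    (w : ι → ℝ) (hw : ∀ e, 0 ≤ w e) (hG : ∀ e, w e ≠ 0 → G e) :
    ∃ u : V → L, κ * ∑ e, w e ≤ sat s t perm w u :=
  GreedyAux.main hL perm G hκ hstep _ w hw hG le_rfl

end Pool.Agent.Lib.P325v
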