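import Pool.Agent.Lib.P325v.Defs
import Pool.Agent.Lib.P325F.Layer

/-!
# Module LevelSat (1.5 h): from soft sets to sets

Write `[e]` for `1` if `Good s t perm x e` and `0` otherwise. `a ≤ ∑ e, w e * (h_s * h_t) * [e]`, `h_s h_t = √(min (h_s^2) (h_t^2)) √(max (h_s^2) (h_t^2))`. By Cauchy-Schwarz
`a^2 ≤ (∑ w min [e]) (∑ w max)` and `∑ w max ≤ ∑ w (h_s^2 + h_t^2) ≤ 1`. Apply `P325F.layer` to `f x = h x ^ 2`: `∑ i, c i * sat (ins (S i)) x = ∑ w min [e] ≥ a^2` and
`∑ i, c i * ∑ x ∈ S i, dg x = ∑ x, dg x * h x ^ 2 = ∑ w (h_s^2 + h_t^2) ≤ 1` (`sum_dg_mul`). If `sat (ins (S i)) x < a^2 * ∑ x ∈ S i, dg x` for all `i` with `∑ x ∈ S i, dg x > 0` (for the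
others `sat (ins (S i)) x = 0`, because `sat (ins S) x ≤ ∑ ins S ≤ ∑ x ∈ S, dg x`), then `a^2 ≤ ∑ i, c i sat (ins (S i)) x < a^2` (some `i` has `∑ x ∈ S i, dg x > 0` as `a > 0`), a contradiction.
-/

set_option autoImplicit false

open Finset Matrix Pool.Agent.Lib.P325F

namespace Pool.Agent.Lib.P325v

variable {V ι L : Type} [Fintype V] [DecidableEq V] [Fintype ι] {s t : ι → V} {w : ι → ℝ}

namespace LevelSatAux

theorem sum_ins_le (hw : ∀ e, 0 ≤ w e) (S : Finset V) :
    ∑ e, ins s t w S e ≤ ∑ x ∈ S, dg s t w x := by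
  have h1 := sum_dg_mul (s := s) (t := t) (w := w) (fun x => if x ∈ S then (1 : ℝ) else 0)
  have h2 : ∑ x, dg s t w x * (if x ∈ S then (1 : ℝ) else 0) = ∑ x ∈ S, dg s t w x := by
    simp only [mul_ite, mul_one, mul_zero]
    rw [Finset.sum_ite_mem, Finset.univ_inter]
  rw [← h2, h1]
  apply Finset.sum_le_sum
  intro e _
  unfold ins
  have hwe := hw e
  by_cases hs : s e ∈ S
  · by_cases ht : t e ∈ S
    · rw [if_pos ⟨hs, ht⟩, if_pos hs, if_pos ht]
      linarith
    · rw [if_neg (fun h => ht h.2), if_pos hs, if_neg ht]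
      linarith
  · rw [if_neg (fun h => hs h.1), if_neg hs]
    split_ifs <;> linarith

omit [Fintype V] [DecidableEq V] in
theorem sat_le_sum (perm : ι → Equiv.Perm L) {w' : ι → ℝ} (hw : ∀ e, 0 ≤ w' e) (x : V → L) :
    sat s t perm w' x ≤ ∑ e, w' e := by
  classical
  unfold sat
  refine Finset.sum_le_sum fun e _ => ?_
  split_ifs
  · exact le_rfl
  · exact hw e

omit [Fintype V] [Fintype ι] in
theorem ins_nonneg (hw : ∀ e, 0 ≤ w e) (S : Finset V) (e : ι) : 0 ≤ ins s t w S e := by
  unfold ins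
  split_ifs
  · exact hw e
  · exact le_rfl

end LevelSatAux

open LevelSatAux

theorem level_sat (perm : ι → Equiv.Perm L) (hw : ∀ e, 0 ≤ w e) {h : V → ℝ}
    (hh : ∀ x, 0 ≤ h x) {x : V → L} {a : ℝ} (ha : 0 < a)
    (hvol : ∑ e, w e * (h (s e) ^ 2 + h (t e) ^ 2) ≤ 1)
    (hsat : a ≤ sat s t perm (fun e => w e * (h (s e) * h (t e))) x) :
    ∃ T : Finset V, 0 < ∑ x ∈ T, dg s t w x ∧
      a ^ 2 * ∑ x ∈ T, dg s t w x ≤ sat s t perm (ins s t w T) x := by
  classical
  set m : ℝ := ∑ e, (if Good s t perm x e then w e * min (h (s e) ^ 2) (h (t e) ^ 2) else 0) with hm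
  set D : ℝ := ∑ e, w e * (h (s e) ^ 2 + h (t e) ^ 2) with hD
  have hCS : (sat s t perm (fun e => w e * (h (s e) * h (t e))) x) ^ 2 ≤ m * D := by
    have h1 : sat s t perm (fun e => w e * (h (s e) * h (t e))) x =
        ∑ e, (if Good s t perm x e then √(w e) * min (h (s e)) (h (t e)) else 0) *
          (√(w e) * max (h (s e)) (h (t e))) := by
      unfold sat
      refine Finset.sum_congr rfl fun e _ => ?_
      by_cases hg : Good s t perm x e
      · rw [if_pos hg, if_pos hg]
        have h2 : √(w e) * √(w e) = w e := Real.mul_self_sqrt (hw e)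
        have h3 : min (h (s e)) (h (t e)) * max (h (s e)) (h (t e)) = h (s e) * h (t e) :=
          min_mul_max _ _
        calc w e * (h (s e) * h (t e)) = (√(w e) * √(w e)) *
              (min (h (s e)) (h (t e)) * max (h (s e)) (h (t e))) := by rw [h2, h3]
          _ = _ := by ring
      · rw [if_neg hg, if_neg hg, zero_mul]
    have h4 := Finset.sum_mul_sq_le_sq_mul_sq univ
      (fun e => if Good s t perm x e then √(w e) * min (h (s e)) (h (t e)) else 0)
      (fun e => √(w e) * max (h (s e)) (h (t e)))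
    rw [← h1] at h4
    have h5 : ∑ e, (if Good s t perm x e then √(w e) * min (h (s e)) (h (t e)) else 0) ^ 2 = m := by
      rw [hm]
      apply Finset.sum_congr rfl
      intro e _
      by_cases hg : Good s t perm x e
      · rw [if_pos hg, if_pos hg, mul_pow, Real.sq_sqrt (hw e)]
        congr 1
        rcases le_total (h (s e)) (h (t e)) with h' | h'
        · rw [min_eq_left h', min_eq_left (pow_le_pow_left₀ (hh _) h' 2)]
        · rw [min_eq_right h', min_eq_right (pow_le_pow_left₀ (hh _) h' 2)]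
      · rw [if_neg hg, if_neg hg]
        norm_num
    have h6 : ∑ e, (√(w e) * max (h (s e)) (h (t e))) ^ 2 ≤ D := by
      rw [hD]
      apply Finset.sum_le_sum
      intro e _
      rw [mul_pow, Real.sq_sqrt (hw e)]
      apply mul_le_mul_of_nonneg_left _ (hw e)
      rcases le_total (h (s e)) (h (t e)) with h' | h'
      · rw [max_eq_right h']
        nlinarith [sq_nonneg (h (s e))]
      · rw [max_eq_left h']
        nlinarith [sq_nonneg (h (t e))]
    have hm0 : 0 ≤ m := by
      rw [← h5]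
      exact Finset.sum_nonneg fun e _ => sq_nonneg _
    refine h4.trans ?_
    rw [h5]
    exact mul_le_mul_of_nonneg_left h6 hm0
  have hm0 : 0 ≤ m := by
    rw [hm]
    refine Finset.sum_nonneg fun e _ => ?_
    split_ifs
    · exact mul_nonneg (hw e) (le_min (sq_nonneg _) (sq_nonneg _))
    · exact le_rfl
  have ham : a ^ 2 ≤ m := by
    have h1 : a ^ 2 ≤ (sat s t perm (fun e => w e * (h (s e) * h (t e))) x) ^ 2 :=
      pow_le_pow_left₀ ha.le hsat 2
    have h2 : m * D ≤ m * 1 := mul_le_mul_of_nonneg_left hvol hm0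
    linarith
  obtain ⟨k, c, S, hc, hS, hf, hmin⟩ := layer (fun y => h y ^ 2) (fun y => sq_nonneg _)
  have hDs : D = ∑ i, c i * ∑ y ∈ S i, dg s t w y := by
    rw [hD]
    have h1 := sum_dg_mul (s := s) (t := t) (w := w) (fun y => h y ^ 2)
    rw [← h1]
    have h2 : ∀ y, dg s t w y * h y ^ 2 = ∑ i, dg s t w y * (if y ∈ S i then c i else 0) := by
      intro y
      have h3 : h y ^ 2 = ∑ i, if y ∈ S i then c i else 0 := hf y
      rw [h3, Finset.mul_sum]
    simp only [h2]
    rw [Finset.sum_comm]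
    apply Finset.sum_congr rfl
    intro i _
    rw [Finset.mul_sum]
    simp only [mul_ite, mul_zero]
    rw [Finset.sum_ite_mem, Finset.univ_inter]
    apply Finset.sum_congr rfl
    intro y _
    ring
  have hms : m = ∑ i, c i * sat s t perm (ins s t w (S i)) x := by
    rw [hm]
    have h2 : ∀ e, (if Good s t perm x e then w e * min (h (s e) ^ 2) (h (t e) ^ 2) else 0) =
        ∑ i, c i * (if Good s t perm x e then ins s t w (S i) e else 0) := by
      intro e
      have h3 : min (h (s e) ^ 2) (h (t e) ^ 2) =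
          ∑ i, if s e ∈ S i ∧ t e ∈ S i then c i else 0 := hmin (s e) (t e)
      by_cases hg : Good s t perm x e
      · simp only [if_pos hg]
        rw [h3, Finset.mul_sum]
        apply Finset.sum_congr rfl
        intro i _
        unfold ins
        split_ifs
        · ring
        · ring
      · simp only [if_neg hg, mul_zero, Finset.sum_const_zero]
    simp only [h2]
    rw [Finset.sum_comm]
    apply Finset.sum_congr rfl
    intro i _
    rw [← Finset.mul_sum]
    rfl
  by_contra hcon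
  have hcon' : ∀ T : Finset V, 0 < ∑ y ∈ T, dg s t w y →
      sat s t perm (ins s t w T) x < a ^ 2 * ∑ y ∈ T, dg s t w y := by
    intro T hT
    by_contra hh'
    exact hcon ⟨T, hT, not_lt.1 hh'⟩
  have hle0 : ∀ T : Finset V, ¬ 0 < ∑ y ∈ T, dg s t w y → sat s t perm (ins s t w T) x ≤ 0 := by
    intro T hT
    have h1 := sat_le_sum (s := s) (t := t) perm (ins_nonneg (s := s) (t := t) hw T) x
    have h2 := sum_ins_le (s := s) (t := t) hw T
    linarith [not_lt.1 hT]
  have hnn : ∀ T : Finset V, 0 ≤ ∑ y ∈ T, dg s t w y := fun T =>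
    Finset.sum_nonneg fun y _ => dg_nonneg hw y
  have hle : ∀ i, c i * sat s t perm (ins s t w (S i)) x ≤
      c i * (a ^ 2 * ∑ y ∈ S i, dg s t w y) := by
    intro i
    apply mul_le_mul_of_nonneg_left _ (hc i).le
    by_cases h1 : 0 < ∑ y ∈ S i, dg s t w y
    · exact (hcon' (S i) h1).le
    · exact (hle0 (S i) h1).trans (mul_nonneg (sq_nonneg a) (hnn _))
  have hex : ∃ i, 0 < ∑ y ∈ S i, dg s t w y := by
    by_contra hno
    have hall : ∀ i, ¬ 0 < ∑ y ∈ S i, dg s t w y := fun i hi => hno ⟨i, hi⟩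
    have : m ≤ 0 := by
      rw [hms]
      exact Finset.sum_nonpos fun i _ =>
        mul_nonpos_of_nonneg_of_nonpos (hc i).le (hle0 _ (hall i))
    have ha2 : 0 < a ^ 2 := by positivity
    linarith
  obtain ⟨i0, hi0⟩ := hex
  have hlt : ∑ i, c i * sat s t perm (ins s t w (S i)) x <
      ∑ i, c i * (a ^ 2 * ∑ y ∈ S i, dg s t w y) := by
    apply Finset.sum_lt_sum (fun i _ => hle i)
    exact ⟨i0, mem_univ _, mul_lt_mul_of_pos_left (hcon' (S i0) hi0) (hc i0)⟩
  have h2 : ∑ i, c i * (a ^ 2 * ∑ y ∈ S i, dg s t w y) = a ^ 2 * D := by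
    rw [hDs, Finset.mul_sum]
    apply Finset.sum_congr rfl
    intro i _
    ring
  rw [← hms, h2] at hlt
  have h3 : a ^ 2 * D ≤ a ^ 2 * 1 := mul_le_mul_of_nonneg_left hvol (sq_nonneg a)
  linarith

end Pool.Agent.Lib.P325v
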