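import Pool.Agent.Lib.P325v.Defs

/-!
# Module Wts (1.5 h): the weights of a core

`h x = φ x / √(dg x)`, `w' e = w e * (h (s e) * h (t e))`, `M = MM s t w`. If `dg x = 0` then `(M φ) x = 0` (`MM_zero`), so `x ∈ S` would give `φ x = 0` by `eig`, against `low`: `dg x > 0` on `S`.
`dg s t w' x = h x * ∑ y, aj x y * h y = h x * √(dg x) * (M φ) x = φ x * (M φ) x` (`aj x y = 0` if `dg y = 0`), which is `Lam * φ x ^ 2` for `x ∈ S` and `0` otherwise (`φ x = 0`).
`aj s t w' x y = h x * h y * aj x y`. So for `x, y ∈ S`: `MM s t w' x y = aj x y * h x * h y / (Lam φ x φ y) = aj x y / (Lam √(dg x) √(dg y)) = M x y / Lam`; if `x ∉ S` or `y ∉ S` both sides are `0`.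
`2 ∑ w' = ∑ x, dg s t w' x = Lam * (φ ⬝ᵥ φ) = Lam` (`sum_dg`). `∑ e, w e * (h (s e)^2 + h (t e)^2) = ∑ x, dg x * h x ^ 2 = φ ⬝ᵥ φ = 1` (`sum_dg_mul`).
-/

set_option autoImplicit false

open Finset Matrix Pool.Agent.Lib.P325F

namespace Pool.Agent.Lib.P325v

variable {V ι : Type} [Fintype V] [DecidableEq V] [Fintype ι] {s t : ι → V} {w : ι → ℝ}
  {lam Lam : ℝ} {S : Finset V} {φ : V → ℝ}

namespace WtsAux

omit [Fintype V] in
theorem aj_w (h : V → ℝ) (x y : V) :
    aj s t (fun e => w e * (h (s e) * h (t e))) x y = h x * h y * aj s t w x y := by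
  unfold aj
  rw [Finset.mul_sum]
  refine Finset.sum_congr rfl fun e _ => ?_
  beta_reduce
  by_cases h1 : s e = x ∧ t e = y
  · rw [if_pos h1]
    by_cases h2 : s e = y ∧ t e = x
    · rw [if_pos h2, h1.1, h1.2]; ring
    · rw [if_neg h2, h1.1, h1.2]; ring
  · rw [if_neg h1]
    by_cases h2 : s e = y ∧ t e = x
    · rw [if_pos h2, h2.1, h2.2]; ring
    · rw [if_neg h2]; ring

end WtsAux

open WtsAux

theorem core_weights (hw : ∀ e, 0 ≤ w e) (hl : 0 < lam)
    (hC : IsCore (MM s t w) lam S Lam φ) {h : V → ℝ} (hh : ∀ x, h x = φ x / √(dg s t w x)) :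
    MM s t (fun e => w e * (h (s e) * h (t e))) = res (MM s t w) S Lam ∧
      ∑ e, w e * (h (s e) * h (t e)) = Lam / 2 ∧
      ∑ e, w e * (h (s e) ^ 2 + h (t e) ^ 2) = 1 := by
  have hLam := hC.pos
  have hcard : (0 : ℝ) < S.card := by exact_mod_cast Finset.card_pos.2 hC.nonempty
  have hφpos : ∀ x ∈ S, 0 < φ x := by
    intro x hx
    have h1 := hC.low x hx
    have h2 : 0 < lam / (2 * S.card) := by positivity
    rcases (hC.nonneg x).eq_or_lt with h3 | h3
    · rw [← h3] at h1
      norm_num at h1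
      linarith
    · exact h3
  have hdgpos : ∀ x ∈ S, 0 < dg s t w x := by
    intro x hx
    rcases (dg_nonneg (s := s) (t := t) hw x).eq_or_lt with h3 | h3
    · exfalso
      have h4 : (MM s t w *ᵥ φ) x = 0 := by
        simp only [Matrix.mulVec, dotProduct]
        exact Finset.sum_eq_zero fun y _ => by rw [MM_zero hw h3.symm, zero_mul]
      have h5 := hC.eig x hx
      rw [h4] at h5
      have := mul_pos hLam (hφpos x hx)
      linarith
    · exact h3
  have hnot : ∀ x, x ∉ S → h x = 0 := fun x hx => by rw [hh, hC.supp x hx, zero_div]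
  -- `h x * √(dg x) = φ x`
  have hsq : ∀ x, h x * √(dg s t w x) = φ x := by
    intro x
    by_cases hx : x ∈ S
    · rw [hh]
      have := (Real.sqrt_pos.2 (hdgpos x hx)).ne'
      field_simp
    · rw [hnot x hx, hC.supp x hx, zero_mul]
  have hMφ : ∀ x, ∑ y, aj s t w x y * h y = √(dg s t w x) * (MM s t w *ᵥ φ) x := by
    intro x
    simp only [Matrix.mulVec, dotProduct]
    rw [Finset.mul_sum]
    refine Finset.sum_congr rfl fun y _ => ?_
    by_cases hx : dg s t w x = 0
    · rw [aj_zero hw hx, MM_zero hw hx]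
      ring
    · have hx0 : 0 < dg s t w x := lt_of_le_of_ne (dg_nonneg hw x) (Ne.symm hx)
      have hs : √(dg s t w x) ≠ 0 := (Real.sqrt_pos.2 hx0).ne'
      by_cases hy : dg s t w y = 0
      · rw [aj_symm, aj_zero hw hy]
        simp only [MM]
        rw [aj_symm, aj_zero hw hy]
        simp
      · have hy0 : 0 < dg s t w y := lt_of_le_of_ne (dg_nonneg hw y) (Ne.symm hy)
        have hs' : √(dg s t w y) ≠ 0 := (Real.sqrt_pos.2 hy0).ne'
        rw [hh y]
        simp only [MM]
        field_simp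
  have hdg' : ∀ x, dg s t (fun e => w e * (h (s e) * h (t e))) x = φ x * (MM s t w *ᵥ φ) x := by
    intro x
    rw [← sum_aj]
    have e1 : ∀ y, aj s t (fun e => w e * (h (s e) * h (t e))) x y = h x * (aj s t w x y * h y) :=
      fun y => by rw [aj_w]; ring
    rw [Finset.sum_congr rfl fun y _ => e1 y, ← Finset.mul_sum, hMφ, ← mul_assoc, hsq]
  have hdgS : ∀ x ∈ S, dg s t (fun e => w e * (h (s e) * h (t e))) x = Lam * φ x ^ 2 := by
    intro x hx
    rw [hdg', hC.eig x hx]
    ring
  have hdgall : ∀ x, dg s t (fun e => w e * (h (s e) * h (t e))) x = Lam * (φ x * φ x) := by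
    intro x
    by_cases hx : x ∈ S
    · rw [hdgS x hx]; ring
    · rw [hdg', hC.supp x hx]; ring
  refine ⟨?_, ?_, ?_⟩
  · ext x y
    unfold res
    by_cases hx : x ∈ S
    · by_cases hy : y ∈ S
      · rw [if_pos ⟨hx, hy⟩]
        simp only [MM]
        rw [aj_w, hdgS x hx, hdgS y hy]
        have hφx := hφpos x hx
        have hφy := hφpos y hy
        have r1 : √(Lam * φ x ^ 2) * √(Lam * φ y ^ 2) = Lam * (φ x * φ y) := by
          rw [Real.sqrt_mul hLam.le, Real.sqrt_mul hLam.le, Real.sqrt_sq hφx.le,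
            Real.sqrt_sq hφy.le]
          calc √Lam * φ x * (√Lam * φ y) = (√Lam * √Lam) * (φ x * φ y) := by ring
            _ = _ := by rw [Real.mul_self_sqrt hLam.le]
        rw [r1, hh x, hh y]
        have hsx : √(dg s t w x) ≠ 0 := (Real.sqrt_pos.2 (hdgpos x hx)).ne'
        have hsy : √(dg s t w y) ≠ 0 := (Real.sqrt_pos.2 (hdgpos y hy)).ne'
        have h1 := hφx.ne'
        have h2 := hφy.ne'
        have h3 := hLam.ne'
        field_simp
      · rw [if_neg (fun hc => hy hc.2)]
        simp only [MM]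
        rw [aj_w, hnot y hy]
        simp
    · rw [if_neg (fun hc => hx hc.1)]
      simp only [MM]
      rw [aj_w, hnot x hx]
      simp
  · have h1 := sum_dg (s := s) (t := t) (w := fun e => w e * (h (s e) * h (t e)))
    rw [Finset.sum_congr rfl fun x _ => hdgall x, ← Finset.mul_sum] at h1
    have h2 := hC.norm
    simp only [dotProduct] at h2
    rw [h2] at h1
    linarith
  · rw [← sum_dg_mul (s := s) (t := t) (w := w) (fun x => h x ^ 2)]
    have h2 := hC.norm
    simp only [dotProduct] at h2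
    rw [← h2]
    refine Finset.sum_congr rfl fun x _ => ?_
    have h3 := hsq x
    have h4 : √(dg s t w x) * √(dg s t w x) = dg s t w x := Real.mul_self_sqrt (dg_nonneg hw x)
    calc dg s t w x * h x ^ 2 = (√(dg s t w x) * √(dg s t w x)) * h x ^ 2 := by rw [h4]
      _ = (h x * √(dg s t w x)) * (h x * √(dg s t w x)) := by ring
      _ = φ x * φ x := by rw [h3]

end Pool.Agent.Lib.P325v
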