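import Pool.Agent.Lib.P325v.Core
import Pool.Agent.Lib.P325v.Decay
import Pool.Agent.Lib.P325v.Wts
import Pool.Agent.Lib.P325v.LevelSat
import Pool.Agent.Lib.P325v.Greedy

/-!
# Module CoreMain (1.5 h): one structured piece after the other

`greedy` with `κ = (v * (card V)^(-lam) / 2)^2`. Step: `w` with `∑ w > 0`, `M = MM s t w` is symmetric (`MM_transpose`), `≥ 0` (`MM_nonneg`), `M x y = 0` if `side x = side y` (then `aj x y = 0`: no edge
joins `x` and `y`); in particular `M x x = 0`. `f x = √(dg x / (2 ∑ w))`: `f ⬝ᵥ f = 1` (`sum_dg`), `f ⬝ᵥ (M *ᵥ f) = 1` (`MM_mulVec_sqrt`). Take the core (`exists_core`), `h`, `w'` as in `core_weights`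
(`h ≥ 0`, `w' ≥ 0`, `w' e ≠ 0 → w e ≠ 0 → G e`). `trace (MM w' ^ (2J)) ≤ Q` by `core_trace`, so `hrnd` gives `x` with `v * Lam/2 ≤ sat w' x`; `a = v * (card V)^(-lam) / 2 ≤ v * Lam/2`, `level_sat`.
-/

set_option autoImplicit false

open Finset Matrix Pool.Agent.Lib.P325F

namespace Pool.Agent.Lib.P325v

variable {V ι L : Type} [Fintype V] [DecidableEq V] [Fintype ι] {s t : ι → V}

theorem core_main (hL : Nonempty (V → L)) (perm : ι → Equiv.Perm L) {side : V → Bool}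
    (hside : ∀ e, side (s e) ≠ side (t e)) (G : ι → Prop) {J : ℕ} (hJ : 0 < J) {Q lam v : ℝ}
    (hl : 0 < lam) (hl8 : lam ≤ 1 / 8) (hQ : 2 * (16 / lam ^ 2) ^ 8 ≤ Q)
    (hJQ : Real.log (2 * Fintype.card V / lam) ≤ (1 + lam / 4) ^ J * Real.log Q) (hv : 0 < v)
    (hrnd : RND s t perm G J Q v) (w : ι → ℝ) (hw : ∀ e, 0 ≤ w e) (hG : ∀ e, w e ≠ 0 → G e) :
    ∃ x : V → L, (v * (Fintype.card V : ℝ) ^ (-lam) / 2) ^ 2 * ∑ e, w e ≤
      sat s t perm w x := by
  refine greedy hL perm G (sq_nonneg _) ?_ w hw hG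
  clear hG hw w
  intro w hw hG hpos
  have hM0 : ∀ x y, 0 ≤ MM s t w x y := MM_nonneg hw
  have hMs : (MM s t w).IsSymm := MM_transpose
  have hb : ∀ x y, side x = side y → MM s t w x y = 0 := by
    intro x y hxy
    have h1 : aj s t w x y = 0 := by
      unfold aj
      refine Finset.sum_eq_zero fun e _ => ?_
      rw [if_neg, if_neg, add_zero, mul_zero]
      · rintro ⟨h2, h3⟩
        exact hside e (by rw [h2, h3, hxy])
      · rintro ⟨h2, h3⟩
        exact hside e (by rw [h2, h3, hxy])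
    simp only [MM]
    rw [h1, zero_div]
  have hd : ∀ x, MM s t w x x = 0 := fun x => hb x x rfl
  have hW : 0 < 2 * ∑ e, w e := by linarith
  have hsW : 0 < √(2 * ∑ e, w e) := Real.sqrt_pos.2 hW
  let f : V → ℝ := (√(2 * ∑ e, w e))⁻¹ • fun x => √(dg s t w x)
  have hf : f ⬝ᵥ f = 1 := by
    have h1 : (fun x => √(dg s t w x)) ⬝ᵥ (fun x => √(dg s t w x)) = 2 * ∑ e, w e := by
      rw [← sum_dg (s := s) (t := t)]
      refine Finset.sum_congr rfl fun x _ => ?_
      exact Real.mul_self_sqrt (dg_nonneg hw x)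
    simp only [f]
    rw [smul_dotProduct, dotProduct_smul, h1, smul_eq_mul, smul_eq_mul]
    have h2 := Real.mul_self_sqrt hW.le
    field_simp
    rw [sq, h2]
  have hf1 : 1 ≤ f ⬝ᵥ (MM s t w *ᵥ f) := by
    have h1 : MM s t w *ᵥ f = f := by
      simp only [f]
      rw [Matrix.mulVec_smul, MM_mulVec_sqrt hw]
    rw [h1, hf]
  obtain ⟨S, Lam, φ, hC, hLam⟩ := exists_core hMs hM0 hd hl (by linarith) hf hf1
  obtain ⟨hw1, hw2, hw3⟩ := core_weights hw hl hC (h := fun x => φ x / √(dg s t w x))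
    (fun x => rfl)
  have hh : ∀ x, 0 ≤ φ x / √(dg s t w x) := fun x => div_nonneg (hC.nonneg x) (Real.sqrt_nonneg _)
  have htr := core_trace hMs hM0 hb hC hl hl8 hQ hJ hJQ
  obtain ⟨x, hx⟩ := hrnd
    (fun e => w e * (φ (s e) / √(dg s t w (s e)) * (φ (t e) / √(dg s t w (t e)))))
    (fun e => mul_nonneg (hw e) (mul_nonneg (hh _) (hh _)))
    (fun e he => hG e (fun h0 => he (by simp only [h0, zero_mul])))
    (by rw [hw1]; exact htr)
  rw [hw2] at hx
  have hcard : 0 < (Fintype.card V : ℝ) := by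
    obtain ⟨z, _⟩ := hC.nonempty
    have : 0 < Fintype.card V := Fintype.card_pos_iff.2 ⟨z⟩
    exact_mod_cast this
  have ha : 0 < v * (Fintype.card V : ℝ) ^ (-lam) / 2 := by positivity
  have ha2 : v * (Fintype.card V : ℝ) ^ (-lam) / 2 ≤ v * (Lam / 2) := by
    have := mul_le_mul_of_nonneg_left hLam hv.le
    linarith
  obtain ⟨T, hT1, hT2⟩ := level_sat perm hw hh ha hw3.le (ha2.trans hx)
  exact ⟨T, x, hT1, hT2⟩

end Pool.Agent.Lib.P325v
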