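import Pool.Agent.Lib.P325v.FinU

/-!
# All gaps

For `0 < δ < s < 1`, `D = log (1 / δ)`, `y = log (1 / s) / min D (D ^ 2)` and `C = 200` for
`s ≤ 31 / 32`, `C = 1500` for `s > 31 / 32`, `δ ≤ 1 / 1024`, `C = 22000` otherwise: degree
`K n ^ (C y log (2 + 1 / y))` suffices for the gap `(s, δ)`.
-/

set_option autoImplicit false

open Finset Matrix Pool.Agent.Lib.P325F Pool.Agent.Lib.P325u

namespace Pool.Agent.Lib.P325v

namespace FinAll

/-- The statement for games with many vertices. -/
def Large (s δ b : ℝ) : Prop :=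
  ∃ n0 K : ℝ, ∀ (U W Ω ι : Type) [Fintype U] [Fintype W] [Fintype Ω] [Fintype ι]
      [DecidableEq Ω] (I : P325x.Game U W Ω ι) (r : ℕ) (E : ((U ⊕ W → Ω) → ℝ) →ₗ[ℝ] ℝ),
      Nonempty ι → 1 ≤ (Fintype.card U : ℝ) + Fintype.card W →
      n0 ≤ (Fintype.card U : ℝ) + Fintype.card W →
      IsPseudoExpectation r E →
      |K| * ((Fintype.card U : ℝ) + Fintype.card W) ^ b ≤ r →
      s ≤ E (fun z => I.satFrac (fun u => z (Sum.inl u)) (fun v => z (Sum.inr v))) →
      s * Fintype.card ι ≤ ∑ e, E (P325u.sat (Sum.inl (I.src e) : U ⊕ W)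
        (Sum.inr (I.dst e)) (I.perm e)) →
      (∃ x : U ⊕ W → Ω, δ * Fintype.card ι ≤ P325F.sat
        (fun e => (Sum.inl (I.src e) : U ⊕ W)) (fun e => Sum.inr (I.dst e)) I.perm
        (fun _ => 1) x) ∨ δ ≤ I.value

theorem Large.mono {s δ b b' : ℝ} (hb : b ≤ b') (h : Large s δ b) : Large s δ b' := by
  obtain ⟨n0, K, h⟩ := h
  refine ⟨n0, K, ?_⟩
  intro U W Ω ι _ _ _ _ _ I r E hι hn1 hn0 hE hr hval hsum
  refine h U W Ω ι I r E hι hn1 hn0 hE (le_trans ?_ hr) hval hsum
  exact mul_le_mul_of_nonneg_left (Real.rpow_le_rpow_of_exponent_le hn1 hb) (abs_nonneg K)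

theorem large_triv {s δ b : ℝ} (hδs : δ < s) (hb : 1 ≤ b) : Large s δ b := by
  refine ⟨0, (s - δ)⁻¹ ^ 2 + 3, ?_⟩
  intro U W Ω ι _ _ _ _ _ I r E _ hn1 _ hE hr _ hval
  classical
  left
  have hcard : (Fintype.card (U ⊕ W) : ℝ) = (Fintype.card U : ℝ) + Fintype.card W := by
    rw [Fintype.card_sum]; push_cast; ring
  have hpow : (Fintype.card U : ℝ) + Fintype.card W ≤
      ((Fintype.card U : ℝ) + Fintype.card W) ^ b := by
    calc (Fintype.card U : ℝ) + Fintype.card W =
        ((Fintype.card U : ℝ) + Fintype.card W) ^ (1 : ℝ) := (Real.rpow_one _).symm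
      _ ≤ _ := Real.rpow_le_rpow_of_exponent_le hn1 hb
  have hpos : 0 ≤ (s - δ)⁻¹ ^ 2 := by positivity
  rw [abs_of_nonneg (by linarith)] at hr
  apply triv_bound (s := fun e => (Sum.inl (I.src e) : U ⊕ W))
    (t := fun e => Sum.inr (I.dst e)) I.perm (fun e => Sum.inl_ne_inr) hE hδs
    (by rw [hcard]; exact hn1) _ hval
  rw [hcard]
  refine le_trans ?_ hr
  nlinarith

theorem large_indep {s δ X : ℝ} (hδ : 0 < δ) (hδs : δ < s) (hs : s ≤ 31 / 32)
    (hX : X = Real.log s / Real.log δ) (hX1 : X ≤ 1 / 1200) :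
    Large s δ (130 * X * Real.log (2 / X)) := by
  obtain ⟨n0, K, h⟩ := fin_indep hδ hδs hs hX hX1
  refine ⟨n0, K, ?_⟩
  intro U W Ω ι _ _ _ _ _ I r E _ hn1 hn0 hE hr _ hval
  classical
  left
  have hcard : (Fintype.card (U ⊕ W) : ℝ) = (Fintype.card U : ℝ) + Fintype.card W := by
    rw [Fintype.card_sum]; push_cast; ring
  refine h (U ⊕ W) ι Ω (fun e => Sum.inl (I.src e)) (fun e => Sum.inr (I.dst e))
    (fun v => v.isLeft) I.perm E r (by intro e; simp) hE (by rw [hcard]; exact hn0) ?_ hval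
  rw [hcard]
  refine le_trans ?_ hr
  exact mul_le_mul_of_nonneg_right (le_abs_self K) (by positivity)

theorem large_thr {s δ X : ℝ} (hδ : 0 < δ) (hδ1 : δ ≤ 1 / 1024) (hs : 31 / 32 ≤ s)
    (hs1 : s < 1) (hX : X = Real.log s / Real.log δ) :
    Large s δ (1300 * X * Real.log (2 / X)) := by
  obtain ⟨n0, K, h⟩ := fin_thr hδ hδ1 hs hs1 hX
  refine ⟨n0, K, ?_⟩
  intro U W Ω ι _ _ _ _ _ I r E _ hn1 hn0 hE hr _ hval
  classical
  left
  have hcard : (Fintype.card (U ⊕ W) : ℝ) = (Fintype.card U : ℝ) + Fintype.card W := by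
    rw [Fintype.card_sum]; push_cast; ring
  refine h (U ⊕ W) ι Ω (fun e => Sum.inl (I.src e)) (fun e => Sum.inr (I.dst e))
    (fun v => v.isLeft) I.perm E r (by intro e; simp) hE (by rw [hcard]; exact hn0) ?_ hval
  rw [hcard]
  refine le_trans ?_ hr
  exact mul_le_mul_of_nonneg_right (le_abs_self K) (by positivity)

theorem large_near {s δ z : ℝ} (hs1 : s < 1) (hδ1 : δ < 1) (hz0 : 0 < z) (hz1 : z ≤ 1)
    (h : 3136 * (1 - s) ≤ (1 - δ) ^ 2 * z) :
    Large s δ (z * (1 + Real.log (1 / z))) := by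
  refine ⟨0, 579, ?_⟩
  intro U W Ω ι _ _ _ _ _ I r E hι hn1 _ hE hr hval' _
  right
  have hmain := sos_main (1 - s) z (by linarith) hz0 hz1 U W Ω ι I r ?_ E hE (by linarith)
  · have h1 : (1 - s) / z ≤ ((1 - δ) / 56) ^ 2 := by
      rw [div_le_iff₀ hz0, div_pow]
      linarith
    have h2 : √((1 - s) / z) ≤ (1 - δ) / 56 := by
      rw [Real.sqrt_le_left (by linarith)]
      exact h1
    linarith
  · refine le_trans ?_ hr
    rw [abs_of_nonneg (by norm_num : (0 : ℝ) ≤ 579)]
    have h0 : 0 ≤ Real.log (1 / z) := Real.log_nonneg (by rw [le_div_iff₀ hz0]; linarith)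
    have h7 : 1 ≤ ((Fintype.card U : ℝ) + Fintype.card W) ^ (z * (1 + Real.log (1 / z))) :=
      Real.one_le_rpow hn1 (by positivity)
    linarith

/-- From many vertices to all games. -/
theorem wrap {s δ b : ℝ} (hδ : 0 < δ) (hδs : δ < s) (hb : 0 ≤ b) (key : Large s δ b) :
    ∃ K : ℝ, ∀ (U W Ω ι : Type) [Fintype U] [Fintype W] [Fintype Ω] [Fintype ι]
      (I : P325x.Game U W Ω ι) (r : ℕ) (E : ((U ⊕ W → Ω) → ℝ) →ₗ[ℝ] ℝ),
      IsPseudoExpectation r E →
      K * ((Fintype.card U : ℝ) + Fintype.card W) ^ b ≤ r →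
      s ≤ E (fun z => I.satFrac (fun u => z (Sum.inl u)) (fun v => z (Sum.inr v))) →
      δ ≤ I.value := by
  have hs0 : 0 < s := hδ.trans hδs
  obtain ⟨n0, K, hkey⟩ := key
  refine ⟨|K| + |n0| * (s - δ)⁻¹ ^ 2 + 3, ?_⟩
  intro U W Ω ι _ _ _ _ I r E hE hr hval
  classical
  have hm : 0 < Fintype.card ι := by
    by_contra hcon
    have h0 : Fintype.card ι = 0 := by omega
    have h1 : (fun z : U ⊕ W → Ω =>
        I.satFrac (fun u => z (Sum.inl u)) (fun v => z (Sum.inr v))) = 0 := by
      funext z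
      unfold P325x.Game.satFrac
      rw [h0]
      simp
    rw [h1, map_zero] at hval
    linarith
  have hm' : (0 : ℝ) < Fintype.card ι := by exact_mod_cast hm
  have hι : Nonempty ι := Fintype.card_pos_iff.1 hm
  obtain ⟨i0⟩ := hι
  set n : ℝ := (Fintype.card U : ℝ) + Fintype.card W with hn
  have hcard : (Fintype.card (U ⊕ W) : ℝ) = n := by
    rw [Fintype.card_sum, hn]; push_cast; ring
  have hn1 : 1 ≤ n := by
    have : 1 ≤ Fintype.card U := Fintype.card_pos_iff.2 ⟨I.src i0⟩
    have h2 : (1 : ℝ) ≤ Fintype.card U := by exact_mod_cast this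
    have h3 : (0 : ℝ) ≤ Fintype.card W := Nat.cast_nonneg _
    linarith
  have hpow1 : 1 ≤ n ^ b := Real.one_le_rpow hn1 hb
  have hsum : s * Fintype.card ι ≤ ∑ e, E (P325u.sat (Sum.inl (I.src e) : U ⊕ W)
      (Sum.inr (I.dst e)) (I.perm e)) := by
    have h1 : (fun z : U ⊕ W → Ω =>
        I.satFrac (fun u => z (Sum.inl u)) (fun v => z (Sum.inr v))) =
        (Fintype.card ι : ℝ)⁻¹ • ∑ e, P325u.sat (Sum.inl (I.src e) : U ⊕ W)
          (Sum.inr (I.dst e)) (I.perm e) := by
      funext z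
      have h2 := satFrac_card I hm z
      rw [Pi.smul_apply, Finset.sum_apply, smul_eq_mul, ← div_eq_inv_mul, eq_div_iff hm'.ne', h2]
      unfold P325F.sat P325u.sat Good
      apply Finset.sum_congr rfl
      intro e _
      by_cases hc : I.perm e (z (Sum.inl (I.src e))) = z (Sum.inr (I.dst e))
      · simp only [hc, if_true]
      · simp only [hc, if_false]
    rw [h1, map_smul, map_sum, smul_eq_mul, ← div_eq_inv_mul, le_div_iff₀ hm'] at hval
    exact hval
  have hq : 0 ≤ (s - δ)⁻¹ ^ 2 := by positivity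
  have hfin : (∃ x : U ⊕ W → Ω, δ * Fintype.card ι ≤ P325F.sat
        (fun e => (Sum.inl (I.src e) : U ⊕ W)) (fun e => Sum.inr (I.dst e)) I.perm
        (fun _ => 1) x) ∨ δ ≤ I.value := by
    rcases le_or_gt n0 n with hlarge | hsmall
    · refine hkey U W Ω ι I r E ⟨i0⟩ hn1 hlarge hE (le_trans ?_ hr) hval hsum
      have h1 : |K| ≤ |K| + |n0| * (s - δ)⁻¹ ^ 2 + 3 := by
        have : 0 ≤ |n0| * (s - δ)⁻¹ ^ 2 := mul_nonneg (abs_nonneg _) hq
        linarith
      exact mul_le_mul_of_nonneg_right h1 (by linarith)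
    · left
      apply triv_bound (s := fun e => (Sum.inl (I.src e) : U ⊕ W))
        (t := fun e => Sum.inr (I.dst e)) I.perm (fun e => Sum.inl_ne_inr) hE hδs
        (by rw [hcard]; exact hn1) _ hsum
      rw [hcard]
      refine le_trans ?_ hr
      have h1 : n * (s - δ)⁻¹ ^ 2 ≤ |n0| * (s - δ)⁻¹ ^ 2 :=
        mul_le_mul_of_nonneg_right (hsmall.le.trans (le_abs_self n0)) hq
      have h2 : n * (s - δ)⁻¹ ^ 2 + 3 ≤ |K| + |n0| * (s - δ)⁻¹ ^ 2 + 3 := by
        have := abs_nonneg K
        linarith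
      have h3 : 0 ≤ |K| + |n0| * (s - δ)⁻¹ ^ 2 + 3 := by
        have h4 : 0 ≤ |n0| * (s - δ)⁻¹ ^ 2 := mul_nonneg (abs_nonneg _) hq
        have := abs_nonneg K
        linarith
      nlinarith
  rcases hfin with ⟨z, hz⟩ | h
  · rw [← satFrac_card I hm z] at hz
    exact (le_of_mul_le_mul_right hz hm').trans (P325u.satFrac_le_value I _ _)
  · exact h

theorem log_ge (k : ℕ) {u : ℝ} (c : ℝ) (h : (2 : ℝ) ^ k ≤ u) (hc : c ≤ (k : ℝ) * 0.693) :
    c ≤ Real.log u := by
  have h1 := Real.log_le_log (by positivity) h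
  rw [Real.log_pow] at h1
  have h2 := Real.log_two_gt_d9
  have h3 : (0 : ℝ) ≤ k := Nat.cast_nonneg k
  nlinarith

/-- `200 y log (2 + 1 / y) ≥ 1` for `y ≥ 1 / 1200`. -/
theorem two_hundred {y : ℝ} (hy : 1 / 1200 ≤ y) : 1 ≤ 200 * y * Real.log (2 + 1 / y) := by
  have hy0 : 0 < y := by linarith
  have hinv : 0 < 1 / y := by positivity
  rcases le_or_gt (1 / 100) y with h1 | h1
  · have h2 := log_ge 1 (u := 2 + 1 / y) 0.693 (by linarith) (by norm_num)
    nlinarith
  · have ha : 100 < 1 / y := by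
      rw [lt_div_iff₀ hy0]; linarith
    rcases le_or_gt (1 / 600) y with h2 | h2
    · have h3 := log_ge 6 (u := 2 + 1 / y) 4.15 (by linarith) (by norm_num)
      nlinarith
    · have hb : 600 < 1 / y := by
        rw [lt_div_iff₀ hy0]; linarith
      have h3 := log_ge 9 (u := 2 + 1 / y) 6.23 (by linarith) (by norm_num)
      nlinarith

theorem cmp {y : ℝ} (hy0 : 0 < y) (hy : y ≤ 1 / 1200) {c c' : ℝ} (hc : 0 ≤ c)
    (hcc : c * 1.11 ≤ c') : c * y * Real.log (2 / y) ≤ c' * y * Real.log (2 + 1 / y) := by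
  have h1 : Real.log (2 / y) = Real.log 2 + Real.log (1 / y) := by
    rw [← Real.log_mul (by norm_num) (by positivity)]
    congr 1
    ring
  have h2 : 1200 ≤ 1 / y := by
    rw [le_div_iff₀ hy0]; linarith
  have h3 := log_ge 10 (u := 1 / y) 6.93 (by linarith) (by norm_num)
  have h4 : Real.log (1 / y) ≤ Real.log (2 + 1 / y) :=
    Real.log_le_log (by positivity) (by linarith)
  have h5 := Real.log_two_lt_d9
  have h6 : Real.log (2 / y) ≤ Real.log (2 + 1 / y) * 1.11 := by
    rw [h1]
    linarith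
  have h7 : 0 ≤ Real.log (2 + 1 / y) := by linarith
  calc c * y * Real.log (2 / y) ≤ c * y * (Real.log (2 + 1 / y) * 1.11) :=
        mul_le_mul_of_nonneg_left h6 (by positivity)
    _ = (c * 1.11) * (y * Real.log (2 + 1 / y)) := by ring
    _ ≤ c' * (y * Real.log (2 + 1 / y)) := mul_le_mul_of_nonneg_right hcc (by positivity)
    _ = c' * y * Real.log (2 + 1 / y) := by ring

theorem exp_neg_le' {z : ℝ} (hz : 0 ≤ z) : Real.exp (-z) ≤ 1 - z + z ^ 2 / 2 := by
  have h1 := Real.quadratic_le_exp_of_nonneg hz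
  have h2 : 0 < 1 + z + z ^ 2 / 2 := by positivity
  rw [Real.exp_neg]
  have h3 : (Real.exp z)⁻¹ ≤ (1 + z + z ^ 2 / 2)⁻¹ := inv_anti₀ h2 h1
  refine h3.trans ?_
  rw [inv_le_iff_one_le_mul₀ h2]
  nlinarith [sq_nonneg (z ^ 2)]

/-- `min B (B ^ 2) ≤ 7.0153 (1 - exp (-B)) ^ 2` for `0 < B ≤ 6.9315`. -/
theorem min_le {B δ : ℝ} (hB : 0 < B) (hB7 : B ≤ 6.9315) (hδ : δ = Real.exp (-B)) :
    3136 * min B (B ^ 2) ≤ 22000 * (1 - δ) ^ 2 := by
  have hmono : ∀ c d : ℝ, 0 ≤ d → d ≤ 1 → c ≤ B → Real.exp (-c) ≤ d →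
      (1 - d) ^ 2 ≤ (1 - δ) ^ 2 := by
    intro c d hd0 hd1 hc hd
    have h1 : δ ≤ d := by
      rw [hδ]
      exact (Real.exp_le_exp.2 (by linarith)).trans hd
    exact pow_le_pow_left₀ (by linarith) (by linarith) 2
  have he1 : Real.exp (-1) ≤ 0.3679 := by
    have := Real.exp_neg_one_lt_d9
    linarith
  have he2 : Real.exp (-2) ≤ 0.1354 := by
    have h1 : Real.exp (-2) = Real.exp (-1) ^ 2 := by
      rw [← Real.exp_nat_mul]; norm_num
    rw [h1]
    have h2 : 0 < Real.exp (-1) := Real.exp_pos _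
    nlinarith
  have he4 : Real.exp (-4) ≤ 0.0184 := by
    have h1 : Real.exp (-4) = Real.exp (-2) ^ 2 := by
      rw [← Real.exp_nat_mul]; norm_num
    rw [h1]
    have h2 : 0 < Real.exp (-2) := Real.exp_pos _
    nlinarith
  have he6 : Real.exp (-6) ≤ 0.0025 := by
    have h1 : Real.exp (-6) = Real.exp (-4) * Real.exp (-2) := by
      rw [← Real.exp_add]; norm_num
    rw [h1]
    have h2 : 0 < Real.exp (-2) := Real.exp_pos _
    have h3 : 0 < Real.exp (-4) := Real.exp_pos _
    nlinarith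
  rcases le_or_gt B 1 with h1 | h1
  · have h2 : δ ≤ 1 - B + B ^ 2 / 2 := by
      rw [hδ]
      exact exp_neg_le' hB.le
    have h3 : B / 2 ≤ 1 - δ := by nlinarith
    have h4 : (B / 2) ^ 2 ≤ (1 - δ) ^ 2 := pow_le_pow_left₀ (by linarith) h3 2
    have h5 : min B (B ^ 2) ≤ B ^ 2 := min_le_right _ _
    nlinarith
  · have h5 : min B (B ^ 2) ≤ B := min_le_left _ _
    rcases le_or_gt B 2 with h2 | h2
    · have := hmono 1 0.3679 (by norm_num) (by norm_num) h1.le he1
      norm_num at this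
      linarith
    · rcases le_or_gt B 4 with h3 | h3
      · have := hmono 2 0.1354 (by norm_num) (by norm_num) h2.le he2
        norm_num at this
        linarith
      · rcases le_or_gt B 6 with h4 | h4
        · have := hmono 4 0.0184 (by norm_num) (by norm_num) h3.le he4
          norm_num at this
          linarith
        · have := hmono 6 0.0025 (by norm_num) (by norm_num) h4.le he6
          norm_num at this
          linarith

end FinAll

open FinAll

/-- The exponent of the gap problem `(s, δ)`, for all gaps. -/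
theorem gap_all (s δ D y C : ℝ) (hδ : 0 < δ) (hδs : δ < s) (hs1 : s < 1)
    (hD : D = Real.log (1 / δ)) (hy : y = Real.log (1 / s) / min D (D ^ 2))
    (hC : (s ≤ 31 / 32 ∧ C = 200) ∨ (δ ≤ 1 / 1024 ∧ C = 1500) ∨ C = 22000) :
    ∃ K : ℝ, ∀ (U W Ω ι : Type) [Fintype U] [Fintype W] [Fintype Ω] [Fintype ι]
      (I : P325x.Game U W Ω ι) (r : ℕ) (E : ((U ⊕ W → Ω) → ℝ) →ₗ[ℝ] ℝ),
      IsPseudoExpectation r E →
      K * ((Fintype.card U : ℝ) + Fintype.card W) ^ (C * y * Real.log (2 + 1 / y)) ≤ r →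
      s ≤ E (fun z => I.satFrac (fun u => z (Sum.inl u)) (fun v => z (Sum.inr v))) →
      δ ≤ I.value := by
  have hs0 : 0 < s := hδ.trans hδs
  set A := Real.log (1 / s) with hAdef
  have hAs : A = -Real.log s := by rw [hAdef, one_div, Real.log_inv]
  have hDs : D = -Real.log δ := by rw [hD, one_div, Real.log_inv]
  have hA : 0 < A := by
    have := Real.log_neg hs0 hs1
    linarith
  have hAD : A < D := by
    have := Real.log_lt_log hδ hδs
    linarith
  have hD0 : 0 < D := by linarith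
  obtain ⟨X, hX⟩ : ∃ X, X = Real.log s / Real.log δ := ⟨_, rfl⟩
  have hX' : X = A / D := by rw [hX, hAs, hDs, neg_div_neg_eq]
  have hX0 : 0 < X := by rw [hX']; positivity
  have hmin : 0 < min D (D ^ 2) := lt_min hD0 (by positivity)
  have hXy : X ≤ y := by
    rw [hX', hy]
    exact div_le_div_of_nonneg_left hA.le hmin (min_le_left _ _)
  have hy0 : 0 < y := by linarith
  have hlog0 : 0.693 ≤ Real.log (2 + 1 / y) :=
    log_ge 1 0.693 (by have : 0 < 1 / y := by positivity
                       linarith) (by norm_num)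
  have hC0 : 200 ≤ C := by
    rcases hC with h | h | h <;> linarith [h]
  have hyl : 0 < y * Real.log (2 + 1 / y) := by positivity
  have hb0 : 0 ≤ C * y * Real.log (2 + 1 / y) := by
    rw [mul_assoc]; positivity
  apply wrap hδ hδs hb0
  -- large y: the trivial bound
  rcases le_or_gt (1 / 1200) y with hyl' | hys
  · apply large_triv hδs
    have h1 := two_hundred hyl'
    rw [mul_assoc] at h1 ⊢
    nlinarith
  -- small y
  have hX12 : X ≤ 1 / 1200 := by linarith
  rcases le_or_gt s (31 / 32) with hs | hs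
  · -- independent rounding
    have hA32 : 1 / 32 ≤ A := by
      have := Real.log_le_sub_one_of_pos hs0
      linarith
    have hD1 : 1 ≤ D := by
      have : A = X * D := by rw [hX', div_mul_cancel₀ _ hD0.ne']
      nlinarith
    have hyX : y = X := by
      rw [hy, hX', min_eq_left (by nlinarith)]
    refine (large_indep hδ hδs hs hX hX12).mono ?_
    rw [hyX]
    exact cmp hX0 hX12 (by norm_num) (by linarith)
  · rcases le_or_gt δ (1 / 1024) with hd | hd
    · -- threshold rounding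
      have hC1 : 1500 ≤ C := by
        rcases hC with h | h | h
        · exact absurd h.1 (not_le.2 hs)
        · linarith [h.2]
        · linarith
      have hD1 : 1 ≤ D := by
        have h1 := log_ge 10 (u := 1 / δ) 6.93 (by rw [le_div_iff₀ hδ]; linarith) (by norm_num)
        linarith
      have hyX : y = X := by
        rw [hy, hX', min_eq_left (by nlinarith)]
      refine (large_thr hδ hd hs.le hs1 hX).mono ?_
      rw [hyX]
      exact cmp hX0 hX12 (by norm_num) (by linarith)
    · -- both near one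
      have hC1 : C = 22000 := by
        rcases hC with h | h | h
        · exact absurd h.1 (not_le.2 hs)
        · exact absurd h.1 (not_le.2 hd)
        · exact h
      rcases le_or_gt (22000 * y) 1 with hz | hz
      · have hD7 : D ≤ 6.9315 := by
          have h1 : Real.log (1 / 1024) < Real.log δ := Real.log_lt_log (by norm_num) hd
          have h2 : Real.log (1 / 1024) = -(10 * Real.log 2) := by
            rw [one_div, Real.log_inv]
            have : (1024 : ℝ) = 2 ^ (10 : ℕ) := by norm_num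
            rw [this, Real.log_pow]
            push_cast
            ring
          have h3 := Real.log_two_lt_d9
          linarith
        have hδe : δ = Real.exp (-D) := by rw [hDs, neg_neg, Real.exp_log hδ]
        have hm := min_le hD0 hD7 hδe
        have heA : 1 - s ≤ A := by
          have := Real.log_le_sub_one_of_pos hs0
          linarith
        have hAy : A = y * min D (D ^ 2) := by rw [hy, div_mul_cancel₀ _ hmin.ne']
        refine (large_near (z := 22000 * y) hs1 (by linarith) (by positivity) hz ?_).mono ?_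
        · calc 3136 * (1 - s) ≤ 3136 * (y * min D (D ^ 2)) := by linarith
            _ = y * (3136 * min D (D ^ 2)) := by ring
            _ ≤ y * (22000 * (1 - δ) ^ 2) := mul_le_mul_of_nonneg_left hm hy0.le
            _ = (1 - δ) ^ 2 * (22000 * y) := by ring
        · rw [hC1]
          apply mul_le_mul_of_nonneg_left _ (by positivity)
          have h1 : Real.log (1 / (22000 * y)) = Real.log (1 / y) - Real.log 22000 := by
            rw [← Real.log_div (by positivity) (by norm_num)]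
            congr 1
            rw [div_div, mul_comm]
          have h2 := log_ge 2 (u := 22000) 1 (by norm_num) (by norm_num)
          have h3 : Real.log (1 / y) ≤ Real.log (2 + 1 / y) :=
            Real.log_le_log (by positivity) (by linarith)
          linarith
      · apply large_triv hδs
        rw [hC1]
        have h1 : 1200 < 1 / y := by
          rw [lt_div_iff₀ hy0]; linarith
        have h2 := log_ge 10 (u := 2 + 1 / y) 1 (by linarith) (by norm_num)
        nlinarith

end Pool.Agent.Lib.P325v
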