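import Pool.Agent.Lib.P325F.Corr

/-!
# Module CorrGen (1 h): the correlation inequality without a bound for the trace

The same proof as `P325F.corr_le` (read Lib/P325F/Corr.lean, proved): `μ x = dg x/(2 ∑ w)`, `X p q = √(μ p.1) * √(μ q.1) * C p q`, `trace X = Φ`, `trace (X * LL) = c` (`trace_LL`). Apply `moment_even` to
`Φ⁻¹ • X` (positive semidefinite, trace `1`): `(c/Φ)^J ≤ Φ⁻¹ * trace (X * LL^J)`, so `0 ≤ Φ * (c/Φ)^J ≤ trace (X * LL^J)` and `(trace (X * LL^J))^2 ≤ K * ∑ q, κ q * (LL^(2J)) q q ≤ K * Q`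
(`P325s.frob`, `P325s.lift_pow`, `K ≥ 0`).
-/

set_option autoImplicit false

open Finset Matrix Pool.Agent.Lib.P325F

namespace Pool.Agent.Lib.P325v

variable {V ι L : Type} [Fintype V] [DecidableEq V] [Fintype ι] [Fintype L] [DecidableEq L]
  {s t : ι → V} {w : ι → ℝ}

theorem corr_gen (perm : ι → Equiv.Perm L) (hw : ∀ e, 0 ≤ w e) (hm : 0 < ∑ e, w e)
    {C : V × L → V × L → ℝ} (hC : ∀ p q, C p q = C q p)
    (hCp : ∀ z : V × L → ℝ, 0 ≤ ∑ p, ∑ q, z p * z q * C p q) {κ : V × L → ℝ}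
    (hκ0 : ∀ q, 0 ≤ κ q) (hκ1 : ∀ x, ∑ a, κ (x, a) = 1) (hκC : ∀ p q, κ q = 0 → C p q = 0)
    {J : ℕ} (hJ : Even J) (hJ0 : 0 < J) {Q : ℝ} (htr : (MM s t w ^ (2 * J)).trace ≤ Q)
    {Φ c K : ℝ} (hΦ : Φ = ∑ x, dg s t w x / (2 * ∑ e, w e) * ∑ a, C (x, a) (x, a))
    (hΦ0 : 0 < Φ) (hc : c = (∑ e, w e * ∑ a, C (s e, a) (t e, perm e a)) / ∑ e, w e)
    (hK : K = ∑ x, ∑ a, ∑ y, ∑ b, dg s t w x / (2 * ∑ e, w e) *
      (dg s t w y / (2 * ∑ e, w e)) * (C (x, a) (y, b) ^ 2 / κ (y, b))) :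
    (Φ * (c / Φ) ^ J) ^ 2 ≤ K * Q := by
  set m : ℝ := ∑ e, w e with hmdef
  have hμ0 : ∀ x, 0 ≤ dg s t w x / (2 * m) := fun x =>
    div_nonneg (dg_nonneg hw x) (by positivity)
  have htrL := trace_LL (s := s) (t := t) perm hw hm hC
  rw [← hmdef] at htrL
  set X : Matrix (V × L) (V × L) ℝ := Matrix.of fun p q : V × L =>
    √(dg s t w p.1 / (2 * m)) * √(dg s t w q.1 / (2 * m)) * C p q with hXdef
  have hX : X.PosSemidef := by
    refine Matrix.PosSemidef.of_dotProduct_mulVec_nonneg ?_ ?_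
    · refine Matrix.IsHermitian.ext fun p q => ?_
      simp only [hXdef, Matrix.of_apply, star_trivial]
      rw [hC q p]
      ring
    · intro z
      have h := hCp (fun p => z p * √(dg s t w p.1 / (2 * m)))
      refine le_of_le_of_eq h ?_
      simp only [dotProduct, Matrix.mulVec, star_trivial, Finset.mul_sum, hXdef, Matrix.of_apply]
      refine sum_congr rfl fun p _ => sum_congr rfl fun q _ => ?_
      ring
  have htrX : X.trace = Φ := by
    rw [hΦ]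
    unfold Matrix.trace
    rw [Fintype.sum_prod_type]
    refine sum_congr rfl fun x _ => ?_
    rw [mul_sum]
    refine sum_congr rfl fun a _ => ?_
    simp only [Matrix.diag_apply, hXdef, Matrix.of_apply]
    rw [Real.mul_self_sqrt (hμ0 x)]
  rw [← hc] at htrL
  have hY : (Φ⁻¹ • X).PosSemidef := hX.smul (inv_nonneg.2 hΦ0.le)
  have hYtr : (Φ⁻¹ • X).trace ≤ 1 := by
    rw [Matrix.trace_smul, htrX, smul_eq_mul, inv_mul_cancel₀ hΦ0.ne']
  have h1 : Φ * (c / Φ) ^ J ≤ (X * LL s t perm w ^ J).trace := by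
    have h2 := moment_even hY (LL_symm (s := s) (t := t) (w := w) perm) hYtr hJ hJ0
    rw [Matrix.smul_mul, Matrix.smul_mul, Matrix.trace_smul, Matrix.trace_smul, htrL, smul_eq_mul,
      smul_eq_mul] at h2
    have h3 : c / Φ = Φ⁻¹ * c := by rw [div_eq_mul_inv, mul_comm]
    rw [h3]
    calc Φ * (Φ⁻¹ * c) ^ J ≤ Φ * (Φ⁻¹ * (X * LL s t perm w ^ J).trace) :=
          mul_le_mul_of_nonneg_left h2 hΦ0.le
      _ = (X * LL s t perm w ^ J).trace := by
          rw [← mul_assoc, mul_inv_cancel₀ hΦ0.ne', one_mul]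
  have h10 : 0 ≤ Φ * (c / Φ) ^ J := mul_nonneg hΦ0.le (hJ.pow_nonneg _)
  have h3 := P325s.frob (X := X) (LL_symm (s := s) (t := t) (w := w) perm) hκ0 (by
    intro p q hq
    simp only [hXdef, Matrix.of_apply]
    rw [hκC p q hq, mul_zero]) J
  have h4 := P325s.lift_pow (M := MM s t w) (M' := LL s t perm w) (LL_nonneg perm hw)
    (LL_row perm) hκ0 hκ1 (2 * J)
  have h5 : ∑ p, ∑ q, X p q ^ 2 / κ q = K := by
    rw [hK, Fintype.sum_prod_type]
    refine sum_congr rfl fun x _ => sum_congr rfl fun a _ => ?_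
    rw [Fintype.sum_prod_type]
    refine sum_congr rfl fun y _ => sum_congr rfl fun b _ => ?_
    simp only [hXdef, Matrix.of_apply]
    rw [mul_pow, mul_pow, Real.sq_sqrt (hμ0 x), Real.sq_sqrt (hμ0 y), mul_div_assoc]
  rw [h5] at h3
  have hK0 : 0 ≤ K := by
    rw [hK]
    exact sum_nonneg fun x _ => sum_nonneg fun a _ => sum_nonneg fun y _ =>
      sum_nonneg fun b _ => mul_nonneg (mul_nonneg (hμ0 x) (hμ0 y))
        (div_nonneg (sq_nonneg _) (hκ0 _))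
  calc (Φ * (c / Φ) ^ J) ^ 2 ≤ (X * LL s t perm w ^ J).trace ^ 2 :=
        pow_le_pow_left₀ h10 h1 2
    _ ≤ _ := h3
    _ ≤ K * Q := mul_le_mul_of_nonneg_left (h4.trans htr) hK0

end Pool.Agent.Lib.P325v
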