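import Pool.Agent.Lib.P325v.Defs
import Pool.Agent.Lib.P325v.CorrGen
import Pool.Agent.Lib.P325F.Cond

/-!
# Module Thr (2.5 h): the sum of squares lemma with threshold rounding

Write `f e = E (P325u.sat (s e) (t e) (perm e))`. Let `w ≥ 0` be supported on `{f ≥ 1 - 2 ε}`, `trace (MM^(2J)) ≤ Q`. `m = ∑ w = 0`: all `w e = 0`, any labelling (`nonempty_labelings`). Let `m > 0`,
`μ x = dg x/(2m)` (sum `1`), `R = ⌈64 Q (1-16ε)⁻¹^(2J)⌉₊`, `R + 2 ≤ r`. Apply `P325u.loop` with `M = 1/8`, `δ = (1-16ε)^(2J)/(64 Q)` (`1 - R δ ≤ 0`). Step: let `P, D` with `Φ = avVar E P μ > 1/8`,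
`C p q = cov E P (ind p.1 p.2) (ind q.1 q.2)`, `V x = ∑ a, C (x,a) (x,a)`, so `Φ = ∑ μ V`.
* For every edge `∑ a, C (s,a) (t,perm a) ≥ (V s + V t)/2 - (1 - f e)`: `2 C(F,G) = C(F,F) + C(G,G) - C(F-G,F-G)` (`cov_sub_sub`), `C(F-G,F-G) ≤ E ((F-G)(F-G))` (`IsPart.cov_self_le`) and
  `∑ a, E ((F_a-G_a)(F_a-G_a)) = 2 - 2 f e` (`ind_mul_self`, `∑ a, ind s a * ind t (perm a) = P325u.sat`, `sum_E_ind`).
* `∑ e, w e * (V s + V t)/2 = m Φ` (`sum_dg_mul`), so `c := (∑ w ∑ a, C)/m ≥ Φ - 2ε` and `c/Φ ≥ 1 - 2ε/Φ ≥ 1 - 16 ε ≥ 0` (as `Φ > 1/8`).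
* `corr_gen` (`κ q = E (ind q.1 q.2)`, `cov_psd`, `cov_null`, `cov_comm`): `(1/8)^2 (1-16ε)^(2J) ≤ (Φ (c/Φ)^J)^2 ≤ K Q`, so `K ≥ δ`. `K` is the sum in the hypothesis of `loop`.
The loop gives `P, D` with `D.card ≤ R`, `avVar ≤ 1/8`. `P325u.round_part` with `g = w`, `h = dg`: labels `ℓ` (the labelling), `Qx`, `er`, with
`∑ w er + ∑ dg (1 - Qx) ≤ ∑ w (1 - f) + ∑ dg V ≤ 2 ε m + 2 m/8 ≤ (1/16 + 1/4) m`. If `e` is violated by `ℓ` then `1 ≤ er e + (1 - Qx (s e)) + (1 - Qx (t e))`; so the violated weight is at most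
`∑ w er + ∑ w ((1 - Qx s) + (1 - Qx t)) = ∑ w er + ∑ dg (1 - Qx) ≤ m/2` (`sum_dg_mul`), and `sat w ℓ = m - violated ≥ m/2`.
(`Nonempty L`: a labelling and a vertex exist.)
-/

set_option autoImplicit false

open Finset Matrix Pool.Agent.Lib.P325F Pool.Agent.Lib.P325u

namespace Pool.Agent.Lib.P325v

variable {V ι L : Type} [Fintype V] [DecidableEq V] [Fintype ι] [Fintype L] [DecidableEq L]
  {s t : ι → V}

namespace ThrAux

theorem sum_ind_mul_ind (x y : V) (g : Equiv.Perm L) :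
    ∑ a, (ind x a : (V → L) → ℝ) * ind y (g a) = P325u.sat x y g := by
  funext σ
  rw [Finset.sum_apply]
  simp only [Pi.mul_apply, ind, P325u.sat]
  rw [Finset.sum_eq_single (σ x)]
  · by_cases h : g (σ x) = σ y
    · simp [h]
    · rw [if_pos rfl, one_mul, if_neg fun h' => h h'.symm, if_neg h]
  · intro a _ ha
    rw [if_neg fun h => ha h.symm, zero_mul]
  · intro h
    exact absurd (Finset.mem_univ _) h

/-- the covariances along an edge -/
theorem edge {E : ((V → L) → ℝ) →ₗ[ℝ] ℝ} {r : ℕ} (hE : IsPseudoExpectation r E) {κ : Type}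
    [Fintype κ] {P : κ → (V → L) → ℝ} {D : Finset V} (hP : IsPart P D) (hD : D.card ≤ r)
    (x y : V) (g : Equiv.Perm L) :
    (∑ a, cov E P (ind x a) (ind x a) + ∑ a, cov E P (ind y a) (ind y a)) / 2 -
      (1 - E (P325u.sat x y g)) ≤ ∑ a, cov E P (ind x a) (ind y (g a)) := by
  have h1 : ∀ a, cov E P (ind x a) (ind x a) + cov E P (ind y (g a)) (ind y (g a)) -
      (E (ind x a) + E (ind y (g a)) - 2 * E ((ind x a : (V → L) → ℝ) * ind y (g a))) ≤
      2 * cov E P (ind x a) (ind y (g a)) := by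
    intro a
    have h2 := cov_sub_sub (E := E) (P := P) (ind x a) (ind y (g a))
    have h3 := hP.cov_self_le hE hD (ind x a - ind y (g a))
    have h4 : (ind x a - ind y (g a) : (V → L) → ℝ) * (ind x a - ind y (g a)) =
        ind x a + ind y (g a) - (2 : ℝ) • ((ind x a : (V → L) → ℝ) * ind y (g a)) := by
      have e1 := ind_mul_self (V := V) x a
      have e2 := ind_mul_self (V := V) y (g a)
      have e3 : (ind x a - ind y (g a) : (V → L) → ℝ) * (ind x a - ind y (g a)) =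
          ind x a * ind x a + ind y (g a) * ind y (g a) -
            (2 : ℝ) • ((ind x a : (V → L) → ℝ) * ind y (g a)) := by
        funext σ
        simp only [Pi.mul_apply, Pi.sub_apply, Pi.add_apply, Pi.smul_apply, smul_eq_mul]
        ring
      rw [e3, e1, e2]
    rw [h4, map_sub, map_add, map_smul, smul_eq_mul] at h3
    linarith
  have h5 := Finset.sum_le_sum fun a (_ : a ∈ Finset.univ) => h1 a
  rw [Finset.sum_sub_distrib, Finset.sum_add_distrib, Finset.sum_sub_distrib,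
    Finset.sum_add_distrib, ← Finset.mul_sum, ← Finset.mul_sum,
    Equiv.sum_comp g (fun a => cov E P (ind y a) (ind y a)),
    Equiv.sum_comp g (fun a => E (ind y a)),
    sum_E_ind hE x, sum_E_ind hE y, ← map_sum, sum_ind_mul_ind] at h5
  linarith

end ThrAux

open ThrAux

theorem sos_thr (perm : ι → Equiv.Perm L) {E : ((V → L) → ℝ) →ₗ[ℝ] ℝ} {r : ℕ}
    (hE : IsPseudoExpectation r E) {J : ℕ} (hJ : Even J) (hJ0 : 0 < J) {Q ε : ℝ} (hQ : 1 ≤ Q)
    (hε : 0 ≤ ε) (hε1 : ε ≤ 1 / 32) (hr : 64 * Q * (1 - 16 * ε)⁻¹ ^ (2 * J) + 3 ≤ r) :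
    RND s t perm (fun e => 1 - 2 * ε ≤ E (P325u.sat (s e) (t e) (perm e))) J Q (1 / 2) := by
  intro w hw hG htr
  have hsat0 : ∀ x : V → L, 0 ≤ P325F.sat s t perm w x := by
    intro x
    unfold P325F.sat
    refine Finset.sum_nonneg fun e _ => ?_
    split_ifs
    · exact hw e
    · exact le_rfl
  obtain ⟨x0⟩ := nonempty_labelings hE
  have hm0 : 0 ≤ ∑ e, w e := Finset.sum_nonneg fun e _ => hw e
  rcases hm0.eq_or_lt with hm | hm
  · refine ⟨x0, ?_⟩
    rw [← hm, mul_zero]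
    exact hsat0 x0
  -- the set of vertices is not empty
  have hne : Nonempty L := by
    obtain ⟨e, _, he⟩ := Finset.exists_ne_zero_of_sum_ne_zero hm.ne'
    exact ⟨x0 (s e)⟩
  set m : ℝ := ∑ e, w e with hmdef
  have hmf : ∀ e, w e * (1 - E (P325u.sat (s e) (t e) (perm e))) ≤ w e * (2 * ε) := by
    intro e
    by_cases he : w e = 0
    · rw [he, zero_mul, zero_mul]
    · have := hG e he
      exact mul_le_mul_of_nonneg_left (by linarith) (hw e)
  have hsumf : ∑ e, w e * (1 - E (P325u.sat (s e) (t e) (perm e))) ≤ 2 * ε * m := by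
    refine (Finset.sum_le_sum fun e _ => hmf e).trans (le_of_eq ?_)
    rw [← Finset.sum_mul]
    ring
  set μ : V → ℝ := fun x => dg s t w x / (2 * m) with hμdef
  have hμ : ∀ x, 0 ≤ μ x := fun x => div_nonneg (dg_nonneg hw x) (by positivity)
  have hμ1 : ∑ x, μ x = 1 := by
    rw [hμdef, ← Finset.sum_div, sum_dg, ← hmdef]
    exact div_self (by positivity)
  have hsumV : ∀ F : V → ℝ, ∑ x, μ x * F x = (∑ e, w e * (F (s e) + F (t e))) / (2 * m) := by
    intro F
    rw [← sum_dg_mul, Finset.sum_div]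
    refine Finset.sum_congr rfl fun x _ => ?_
    simp only [hμdef]
    ring
  have hq : 0 < 1 - 16 * ε := by linarith
  have hq' : 0 < (1 - 16 * ε) ^ (2 * J) := pow_pos hq _
  set R : ℕ := ⌈64 * Q * (1 - 16 * ε)⁻¹ ^ (2 * J)⌉₊ with hR
  have hRr : R + 2 ≤ r := by
    have h1 : (R : ℝ) < 64 * Q * (1 - 16 * ε)⁻¹ ^ (2 * J) + 1 :=
      Nat.ceil_lt_add_one (by positivity)
    have h2 : ((R + 2 : ℕ) : ℝ) ≤ r := by
      push_cast
      linarith
    exact_mod_cast h2
  have hRδ : 1 - (R : ℝ) * ((1 - 16 * ε) ^ (2 * J) / (64 * Q)) ≤ 1 / 8 := by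
    have h1 : 64 * Q * (1 - 16 * ε)⁻¹ ^ (2 * J) ≤ (R : ℝ) := Nat.le_ceil _
    have h2 : 1 ≤ (R : ℝ) * ((1 - 16 * ε) ^ (2 * J) / (64 * Q)) := by
      calc (1 : ℝ) = (64 * Q * (1 - 16 * ε)⁻¹ ^ (2 * J)) * ((1 - 16 * ε) ^ (2 * J) / (64 * Q)) := by
            rw [inv_pow]
            field_simp
        _ ≤ _ := mul_le_mul_of_nonneg_right h1 (by positivity)
    linarith
  obtain ⟨κ, hκ, P, D, hP, hD, hav⟩ := loop hE μ hμ hμ1 (1 / 8)
    ((1 - 16 * ε) ^ (2 * J) / (64 * Q)) R hRδ (by omega) (by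
    intro κ _ P D hP hD hM
    have hΦ0 : 0 < avVar E P μ := by linarith
    set Φ : ℝ := avVar E P μ with hΦ
    set C : V × L → V × L → ℝ := fun p q => cov E P (ind p.1 p.2) (ind q.1 q.2) with hC
    set c : ℝ := (∑ e, w e * ∑ a, C (s e, a) (t e, perm e a)) / m with hc
    have hcΦ : Φ - 2 * ε ≤ c := by
      have h1 : Φ = (∑ e, w e * ((∑ a, cov E P (ind (s e) a) (ind (s e) a)) +
          ∑ a, cov E P (ind (t e) a) (ind (t e) a))) / (2 * m) := by
        rw [hΦ]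
        unfold avVar
        exact hsumV _
      rw [hc, le_div_iff₀ hm]
      have h2 : Φ * m = ∑ e, w e * ((∑ a, cov E P (ind (s e) a) (ind (s e) a) +
          ∑ a, cov E P (ind (t e) a) (ind (t e) a)) / 2) := by
        rw [h1, div_mul_eq_mul_div, div_eq_iff (by positivity), Finset.sum_mul, Finset.sum_mul]
        refine Finset.sum_congr rfl fun e _ => ?_
        ring
      have h3 : ∑ e, w e * ((∑ a, cov E P (ind (s e) a) (ind (s e) a) +
          ∑ a, cov E P (ind (t e) a) (ind (t e) a)) / 2) -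
          ∑ e, w e * (1 - E (P325u.sat (s e) (t e) (perm e))) ≤
          ∑ e, w e * ∑ a, C (s e, a) (t e, perm e a) := by
        rw [← Finset.sum_sub_distrib]
        refine Finset.sum_le_sum fun e _ => ?_
        rw [← mul_sub]
        exact mul_le_mul_of_nonneg_left (edge hE hP (by omega) (s e) (t e) (perm e)) (hw e)
      linarith
    have hratio : 1 - 16 * ε ≤ c / Φ := by
      rw [le_div_iff₀ hΦ0]
      nlinarith
    have hκ0 : ∀ q : V × L, 0 ≤ E (ind q.1 q.2) := fun q =>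
      E_ind_nonneg hE (by omega) q.1 q.2
    have hcg := corr_gen (s := s) (t := t) (w := w) perm hw hm (C := C)
      (fun p q => cov_comm _ _) (fun z => cov_psd hE hP (by omega) z)
      (κ := fun q => E (ind q.1 q.2)) hκ0 (fun x => sum_E_ind hE x)
      (fun p q h => cov_null hE hP hD p.1 q.1 p.2 q.2 h) hJ hJ0 htr
      (Φ := Φ) (c := c)
      (K := ∑ x, ∑ a, ∑ y, ∑ b, dg s t w x / (2 * ∑ e, w e) *
        (dg s t w y / (2 * ∑ e, w e)) * (C (x, a) (y, b) ^ 2 / E (ind y b)))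
      rfl hΦ0 rfl rfl
    have hlow : (1 / 8 * (1 - 16 * ε) ^ J) ^ 2 ≤ (Φ * (c / Φ) ^ J) ^ 2 := by
      refine pow_le_pow_left₀ (by positivity) ?_ 2
      exact mul_le_mul hM.le (pow_le_pow_left₀ hq.le hratio J) (by positivity) hΦ0.le
    have h5 : (1 / 8 * (1 - 16 * ε) ^ J) ^ 2 = (1 - 16 * ε) ^ (2 * J) / 64 := by
      rw [mul_pow, ← pow_mul, mul_comm J 2]
      ring
    have h6 := hlow.trans hcg
    rw [h5] at h6
    have hQ0 : 0 < Q := by linarith
    show (1 - 16 * ε) ^ (2 * J) / (64 * Q) ≤ ∑ x, ∑ a, ∑ y, ∑ b, dg s t w x / (2 * ∑ e, w e) *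
        (dg s t w y / (2 * ∑ e, w e)) * (C (x, a) (y, b) ^ 2 / E (ind y b))
    rw [← div_div, div_le_iff₀ hQ0]
    exact h6)
  obtain ⟨ℓ, q, er, hq01, her, -, hviol, hobj⟩ := round_part hE hP (by omega) s t perm w hw
    (fun x => dg s t w x) (fun x => dg_nonneg hw x)
  refine ⟨ℓ, ?_⟩
  have hVsum : ∑ x, dg s t w x * ∑ a, cov E P (ind x a) (ind x a) ≤ m / 4 := by
    have h1 : ∑ x, dg s t w x * ∑ a, cov E P (ind x a) (ind x a) = 2 * m * avVar E P μ := by
      unfold avVar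
      rw [Finset.mul_sum]
      refine Finset.sum_congr rfl fun x _ => ?_
      simp only [hμdef]
      field_simp
    rw [h1]
    nlinarith
  have hlast : ∑ e, w e * (1 - er e - (1 - q (s e)) - (1 - q (t e))) ≤
      P325F.sat s t perm w ℓ := by
    unfold P325F.sat
    refine Finset.sum_le_sum fun e _ => ?_
    have h1 := hq01 (s e)
    have h2 := hq01 (t e)
    have h3 := her e
    split_ifs with hgood
    · exact mul_le_of_le_one_right (hw e) (by linarith)
    · exact mul_nonpos_of_nonneg_of_nonpos (hw e) (by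
        have := hviol e hgood
        linarith)
  have hsum2 := sum_dg_mul (s := s) (t := t) (w := w) (fun x => 1 - q x)
  have hexp : ∑ e, w e * (1 - er e - (1 - q (s e)) - (1 - q (t e))) =
      m - ∑ e, w e * er e - ∑ x, dg s t w x * (1 - q x) := by
    rw [hsum2, hmdef, ← Finset.sum_sub_distrib, ← Finset.sum_sub_distrib]
    refine Finset.sum_congr rfl fun e _ => ?_
    ring
  rw [hexp] at hlast
  nlinarith

end Pool.Agent.Lib.P325v
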