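import Pool.Agent.Lib.P325v.Perron

/-!
# Module Core (1.5 h): existence of a core

For every nonempty `S` let `φ_S` be as in `exists_perron` and `Λ(S) = φ_S ⬝ᵥ (M *ᵥ φ_S)`. Among the nonempty `S` (`V` is nonempty as `f ⬝ᵥ f = 1`) choose one that
maximises `Λ(S) / card S ^ lam`. `Λ(univ) ≥ f ⬝ᵥ (M *ᵥ f) ≥ 1`, so `Λ(S) / card S ^ lam ≥ (card V)^(-lam)` and `Λ(S) ≥ (card V)^(-lam) > 0` (`card S ≥ 1`).
* `fk`: `T = ∅`: `f = 0`. Otherwise `Λ(T) ≤ Λ(S) (card T / card S)^lam` by maximality and `f ⬝ᵥ (M *ᵥ f) ≤ Λ(T) (f ⬝ᵥ f)`.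
* `low`: `p = φ x ^ 2 ≤ 1`, `N = card S`, `f = φ` with the value at `x` replaced by `0`, `T = S.erase x`: `f ⬝ᵥ f = 1 - p`, `f ⬝ᵥ (M *ᵥ f) = Λ - 2 φ x (M φ) x + p M x x = Λ (1 - 2 p)`
  (`M x x = 0`). `fk`: `1 - 2 p ≤ ((N-1)/N)^lam (1 - p) ≤ (1 - lam/N) (1 - p)` (Bernoulli, `Real.rpow_one_add_le_one_add_mul_self`-type, `0 ≤ lam ≤ 1`), so
  `p (1 + lam/N) ≥ lam/N`, `p ≥ lam/(N + lam) ≥ lam/(2N)` (`lam ≤ 1 ≤ N`).
-/

set_option autoImplicit false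

open Finset Matrix

namespace Pool.Agent.Lib.P325v

variable {V : Type} [Fintype V] [DecidableEq V]

namespace CoreAux

theorem single_dot (x : V) (g : V → ℝ) : (Pi.single x (1 : ℝ) : V → ℝ) ⬝ᵥ g = g x := by
  simp [single_dotProduct]

theorem quad_sub {M : Matrix V V ℝ} (hs : M.IsSymm) (hd : ∀ x, M x x = 0) (φ : V → ℝ) (x : V)
    (c : ℝ) :
    (φ - c • (Pi.single x (1 : ℝ) : V → ℝ)) ⬝ᵥ (M *ᵥ (φ - c • (Pi.single x (1 : ℝ) : V → ℝ))) =
      φ ⬝ᵥ (M *ᵥ φ) - 2 * c * (M *ᵥ φ) x := by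
  have h1 : φ ⬝ᵥ (M *ᵥ (Pi.single x (1 : ℝ) : V → ℝ)) = (M *ᵥ φ) x := by
    rw [dotProduct_mulVec, ← mulVec_transpose, hs.eq, dotProduct_comm, single_dot]
  have h2 : (M *ᵥ (Pi.single x (1 : ℝ) : V → ℝ)) x = 0 := by
    rw [mulVec_single_one]
    exact hd x
  rw [mulVec_sub, mulVec_smul, sub_dotProduct, dotProduct_sub, dotProduct_sub, smul_dotProduct,
    dotProduct_smul, smul_dotProduct, dotProduct_smul, single_dot, single_dot, h1, h2]
  simp only [smul_eq_mul]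
  ring

theorem dot_sub (φ : V → ℝ) (x : V) (c : ℝ) :
    (φ - c • (Pi.single x (1 : ℝ) : V → ℝ)) ⬝ᵥ (φ - c • (Pi.single x (1 : ℝ) : V → ℝ)) =
      φ ⬝ᵥ φ - 2 * c * φ x + c ^ 2 := by
  rw [sub_dotProduct, dotProduct_sub, dotProduct_sub, smul_dotProduct, dotProduct_smul,
    smul_dotProduct, dotProduct_smul, single_dot, single_dot, dotProduct_comm φ (Pi.single x 1),
    single_dot]
  simp only [smul_eq_mul, Pi.single_eq_same]
  ring

end CoreAux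

open CoreAux

theorem exists_core {M : Matrix V V ℝ} (hs : M.IsSymm) (h0 : ∀ x y, 0 ≤ M x y)
    (hd : ∀ x, M x x = 0) {lam : ℝ} (hl : 0 < lam) (hl1 : lam ≤ 1) {f : V → ℝ}
    (hf : f ⬝ᵥ f = 1) (hf1 : 1 ≤ f ⬝ᵥ (M *ᵥ f)) :
    ∃ (S : Finset V) (Lam : ℝ) (φ : V → ℝ), IsCore M lam S Lam φ ∧
      (Fintype.card V : ℝ) ^ (-lam) ≤ Lam := by
  classical
  have hV : Nonempty V := by
    by_contra h
    rw [not_nonempty_iff] at h
    rw [dotProduct, Finset.univ_eq_empty, Finset.sum_empty] at hf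
    exact zero_ne_one hf
  have hP : ∀ S : Finset V, ∃ φ : V → ℝ, S.Nonempty → (∀ x, 0 ≤ φ x) ∧ (∀ x, x ∉ S → φ x = 0) ∧
      φ ⬝ᵥ φ = 1 ∧ (∀ x ∈ S, (M *ᵥ φ) x = (φ ⬝ᵥ (M *ᵥ φ)) * φ x) ∧
      ∀ f : V → ℝ, (∀ x, x ∉ S → f x = 0) →
        f ⬝ᵥ (M *ᵥ f) ≤ (φ ⬝ᵥ (M *ᵥ φ)) * (f ⬝ᵥ f) := by
    intro S
    by_cases hS : S.Nonempty
    · obtain ⟨φ, h⟩ := exists_perron hs h0 hS
      exact ⟨φ, fun _ => h⟩
    · exact ⟨0, fun h => absurd h hS⟩
  choose φ hφ using hP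
  obtain ⟨S, hSm, hSmax⟩ := Finset.exists_max_image
    ((Finset.univ : Finset (Finset V)).filter Finset.Nonempty)
    (fun S => (φ S ⬝ᵥ (M *ᵥ φ S)) / (S.card : ℝ) ^ lam)
    ⟨Finset.univ, by simp⟩
  have hSne : S.Nonempty := (Finset.mem_filter.1 hSm).2
  obtain ⟨hn, hsupp, hnorm, heig, hray⟩ := hφ S hSne
  have hmax : ∀ T : Finset V, T.Nonempty → (φ T ⬝ᵥ (M *ᵥ φ T)) / (T.card : ℝ) ^ lam ≤
      (φ S ⬝ᵥ (M *ᵥ φ S)) / (S.card : ℝ) ^ lam := fun T hT =>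
    hSmax T (by simpa using hT)
  set Lam : ℝ := φ S ⬝ᵥ (M *ᵥ φ S) with hLam
  have hN1 : (1 : ℝ) ≤ (S.card : ℝ) := by exact_mod_cast hSne.card_pos
  have hN0 : (0 : ℝ) < (S.card : ℝ) := by linarith
  have hNl : 0 < (S.card : ℝ) ^ lam := Real.rpow_pos_of_pos hN0 _
  have hVc : (0 : ℝ) < (Fintype.card V : ℝ) := by exact_mod_cast Fintype.card_pos
  have hVl : 0 < (Fintype.card V : ℝ) ^ lam := Real.rpow_pos_of_pos hVc _
  -- the lower bound
  have hlow : (Fintype.card V : ℝ) ^ (-lam) ≤ Lam := by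
    have h1 := hmax Finset.univ Finset.univ_nonempty
    obtain ⟨-, -, -, -, h2⟩ := hφ Finset.univ Finset.univ_nonempty
    have h3 := h2 f (fun x hx => absurd (Finset.mem_univ x) hx)
    rw [hf, mul_one] at h3
    have h4 : (1 : ℝ) ≤ φ Finset.univ ⬝ᵥ (M *ᵥ φ Finset.univ) := hf1.trans h3
    rw [Finset.card_univ] at h1
    have h5 : (1 : ℝ) / (Fintype.card V : ℝ) ^ lam ≤ Lam / (S.card : ℝ) ^ lam :=
      (div_le_div_of_nonneg_right h4 hVl.le).trans h1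
    have h6 : (1 : ℝ) ≤ (S.card : ℝ) ^ lam := Real.one_le_rpow hN1 hl.le
    rw [Real.rpow_neg hVc.le, ← one_div]
    rw [le_div_iff₀ hNl] at h5
    refine le_trans ?_ h5
    exact le_mul_of_one_le_right (by positivity) h6
  have hpos : 0 < Lam := lt_of_lt_of_le (Real.rpow_pos_of_pos hVc _) hlow
  -- Faber-Krahn
  have hfk : ∀ (T : Finset V) (g : V → ℝ), T ⊆ S → (∀ x, x ∉ T → g x = 0) →
      g ⬝ᵥ (M *ᵥ g) ≤ Lam * ((T.card : ℝ) / S.card) ^ lam * (g ⬝ᵥ g) := by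
    intro T g hTS hg
    rcases T.eq_empty_or_nonempty with rfl | hT
    · have : g = 0 := by
        funext x
        exact hg x (Finset.notMem_empty x)
      rw [this]
      simp
    · obtain ⟨-, -, -, -, h2⟩ := hφ T hT
      have h3 := h2 g hg
      have h4 := hmax T hT
      have hT0 : (0 : ℝ) < (T.card : ℝ) := by exact_mod_cast hT.card_pos
      have hTl : 0 < (T.card : ℝ) ^ lam := Real.rpow_pos_of_pos hT0 _
      have h5 : φ T ⬝ᵥ (M *ᵥ φ T) ≤ Lam * ((T.card : ℝ) / S.card) ^ lam := by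
        rw [Real.div_rpow hT0.le hN0.le, mul_div_assoc']
        rw [div_le_div_iff₀ hTl hNl] at h4
        rw [le_div_iff₀ hNl]
        exact h4
      have h6 : 0 ≤ g ⬝ᵥ g := by
        rw [dotProduct]
        exact Finset.sum_nonneg fun x _ => mul_self_nonneg _
      exact h3.trans (mul_le_mul_of_nonneg_right h5 h6)
  refine ⟨S, Lam, φ S, ⟨hSne, hpos, hn, hsupp, hnorm, heig, ?_, hfk⟩, hlow⟩
  intro x hx
  have h1 := hfk (S.erase x) (φ S - (φ S x) • (Pi.single x (1 : ℝ) : V → ℝ))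
    (Finset.erase_subset _ _) (fun y hy => by
      simp only [Pi.sub_apply, Pi.smul_apply, smul_eq_mul]
      by_cases hyx : y = x
      · rw [hyx, Pi.single_eq_same]
        ring
      · rw [Pi.single_eq_of_ne hyx, mul_zero, sub_zero]
        exact hsupp y fun h => hy (Finset.mem_erase.2 ⟨hyx, h⟩))
  have hq0 : 0 ≤ (φ S - (φ S x) • (Pi.single x (1 : ℝ) : V → ℝ)) ⬝ᵥ
      (φ S - (φ S x) • (Pi.single x (1 : ℝ) : V → ℝ)) := by
    rw [dotProduct]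
    exact Finset.sum_nonneg fun x _ => mul_self_nonneg _
  rw [dot_sub, hnorm] at hq0
  rw [quad_sub hs hd, dot_sub, hnorm, heig x hx, Finset.card_erase_of_mem hx,
    Nat.cast_sub hSne.card_pos, Nat.cast_one, ← hLam] at h1
  have hb := _root_.rpow_one_add_le_one_add_mul_self (s := -(1 / (S.card : ℝ))) (by
    rw [neg_le_neg_iff, div_le_one hN0]
    exact hN1) hl.le hl1
  have he : ((S.card : ℝ) - 1) / (S.card : ℝ) = 1 + -(1 / (S.card : ℝ)) := by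
    field_simp
    ring
  rw [he] at h1
  set p : ℝ := φ S x ^ 2 with hp
  set w : ℝ := 1 / (S.card : ℝ) with hw
  have hp0 : 0 ≤ p := sq_nonneg _
  have hw0 : 0 < w := by positivity
  have hw1 : w ≤ 1 := by
    rw [hw, div_le_one hN0]
    exact hN1
  have h2 : Lam * (1 - 2 * p) ≤ Lam * ((1 + -w) ^ lam * (1 - p)) := by
    have e1 : Lam - 2 * φ S x * (Lam * φ S x) = Lam * (1 - 2 * p) := by rw [hp]; ring
    have e2 : Lam * (1 + -w) ^ lam * (1 - 2 * φ S x * φ S x + φ S x ^ 2) =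
        Lam * ((1 + -w) ^ lam * (1 - p)) := by rw [hp]; ring
    rw [e1, e2] at h1
    exact h1
  have h3 : 1 - 2 * p ≤ (1 + -w) ^ lam * (1 - p) := le_of_mul_le_mul_left h2 hpos
  have hq1 : 0 ≤ 1 - p := by
    have e1 : 1 - 2 * φ S x * φ S x + φ S x ^ 2 = 1 - p := by rw [hp]; ring
    rw [e1] at hq0
    exact hq0
  have h4 : 1 - 2 * p ≤ (1 + lam * -w) * (1 - p) := h3.trans (mul_le_mul_of_nonneg_right hb hq1)
  have h5 : lam * w ≤ 1 := by nlinarith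
  have e3 : lam / (2 * (S.card : ℝ)) = lam * w / 2 := by
    rw [hw]
    field_simp
  rw [e3]
  nlinarith

end Pool.Agent.Lib.P325v
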