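import Pool.Agent.Lib.P325F.Basic

/-!
# Cores of nonnegative symmetric matrices, and roundable weights
-/

set_option autoImplicit false

open Finset Matrix Pool.Agent.Lib.P325F

namespace Pool.Agent.Lib.P325v

/-- A core `S` of `M`: `Lam` is the largest eigenvalue of `M` on `S`, `φ` its eigenvector, and the
largest eigenvalue of `M` on a subset `T` of `S` is at most `Lam * (card T / card S) ^ lam`
(a Faber-Krahn inequality). -/
structure IsCore {V : Type} [Fintype V] (M : Matrix V V ℝ) (lam : ℝ) (S : Finset V) (Lam : ℝ)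
    (φ : V → ℝ) : Prop where
  nonempty : S.Nonempty
  pos : 0 < Lam
  nonneg : ∀ x, 0 ≤ φ x
  supp : ∀ x, x ∉ S → φ x = 0
  norm : φ ⬝ᵥ φ = 1
  eig : ∀ x ∈ S, (M *ᵥ φ) x = Lam * φ x
  low : ∀ x ∈ S, lam / (2 * S.card) ≤ φ x ^ 2
  fk : ∀ (T : Finset V) (f : V → ℝ), T ⊆ S → (∀ x, x ∉ T → f x = 0) →
    f ⬝ᵥ (M *ᵥ f) ≤ Lam * ((T.card : ℝ) / S.card) ^ lam * (f ⬝ᵥ f)

/-- the restriction of `M` to `S`, divided by `Lam` -/
noncomputable def res {V : Type} [DecidableEq V] (M : Matrix V V ℝ) (S : Finset V) (Lam : ℝ) :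
    Matrix V V ℝ := fun x y => if x ∈ S ∧ y ∈ S then M x y / Lam else 0

/-- weights on the edges with the property `G` whose graph has few closed walks of length `2 J`
have a labelling that satisfies a fraction `v` of the weight -/
def RND {V ι L : Type} [Fintype V] [DecidableEq V] [Fintype ι] (s t : ι → V)
    (perm : ι → Equiv.Perm L) (G : ι → Prop) (J : ℕ) (Q v : ℝ) : Prop :=
  ∀ w : ι → ℝ, (∀ e, 0 ≤ w e) → (∀ e, w e ≠ 0 → G e) → (MM s t w ^ (2 * J)).trace ≤ Q →
    ∃ x : V → L, v * ∑ e, w e ≤ sat s t perm w x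

end Pool.Agent.Lib.P325v
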