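import Pool.Agent.Lib.P325v.CoreMain
import Pool.Agent.Lib.P325v.Pars
import Pool.Agent.Lib.P325v.Thr
import Pool.Agent.Lib.P325F.Sos

/-!
# Module FinB (2 h): completeness near 1, threshold rounding

`A = -log s0 > 0`, `B = -log δ ≥ log 1024 = 2 log 32`, `X = A/B`, `0 < X < 1`. `ε = 1 - s0 ∈ (0, 1/32]`, `ε ≤ A`. `D = (B - log 32)/2 ≥ B/4 > 0`, `exp (-2D) = 32 δ`. `n0` from `pars D X`, `K = 64 exp 4 + 3`.
For `n = card V ≥ n0` take `J, lam`; `Q = n^X ≥ 1`. Degree: `(1-16ε)⁻¹ ≤ exp (32 ε)` (`16 ε ≤ 1/2`), `64 Q (1-16ε)⁻¹^(2J) ≤ 64 n^X exp (64 ε J)`,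
`64 ε J ≤ 320 (ε/D) log (2/X) log n + 128 ε ≤ 1280 X log (2/X) log n + 4` (`ε/D ≤ 4 A/B = 4 X`), `X ≤ 3/2 X log (2/X)` (`log (2/X) ≥ log 2 ≥ 2/3`). So
`64 Q (1-16ε)⁻¹^(2J) + 3 ≤ K n^(1300 X log (2/X)) ≤ r`. `sos_thr` gives `RND s t perm G J Q (1/2)` with `G e = (1 - 2 ε ≤ f e)`, `f e = E (P325u.sat ..)`.
`w = 1` on `{G}` and `0` off it: `ε m ≥ ∑ (1 - f) ≥ 2 ε (m - ∑ w)` (`f ≤ 1`, `pe_sat_mem`), `m = card ι`, so `∑ w ≥ m/2`.
`core_main`: `sat 1 x ≥ sat w x ≥ (exp (-D)/4)^2 (m/2) = exp (-2D)/32 m = δ m`.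
-/

set_option autoImplicit false

open Finset Matrix Pool.Agent.Lib.P325F Pool.Agent.Lib.P325u

namespace Pool.Agent.Lib.P325v

namespace FinBAux

private lemma inv_le_exp {y : ℝ} (h0 : 0 ≤ y) (h1 : y ≤ 1 / 2) : (1 - y)⁻¹ ≤ Real.exp (2 * y) := by
  have hpos : 0 < 1 - y := by linarith
  rw [inv_le_iff_one_le_mul₀ hpos]
  have h2 := Real.add_one_le_exp (2 * y)
  nlinarith

private lemma deg_bound {ε D X n : ℝ} {J : ℕ} (hε : 0 ≤ ε) (hε1 : ε ≤ 1 / 32) (hD : 0 < D)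
    (hX : 0 < X) (hX1 : X ≤ 1) (hεD : ε ≤ 4 * X * D) (hn : 1 < n)
    (hJ : (J : ℝ) ≤ 5 * (Real.log n / D) * Real.log (2 / X) + 2) :
    64 * n ^ X * (1 - 16 * ε)⁻¹ ^ (2 * J) + 3 ≤
      (64 * Real.exp 4 + 3) * n ^ (1300 * X * Real.log (2 / X)) := by
  have hl2 : (2 : ℝ) / 3 ≤ Real.log 2 := by have := Real.log_two_gt_d9; linarith
  have hlog : Real.log 2 ≤ Real.log (2 / X) := by
    apply Real.log_le_log (by norm_num)
    rw [le_div_iff₀ hX]; linarith
  have hLX : 2 / 3 ≤ Real.log (2 / X) := hl2.trans hlog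
  have hln : 0 < Real.log n := Real.log_pos hn
  have hn0 : 0 < n := by linarith
  have h1 : (1 - 16 * ε)⁻¹ ≤ Real.exp (32 * ε) := by
    have := inv_le_exp (y := 16 * ε) (by linarith) (by linarith)
    convert this using 2
    ring
  have hpos : 0 < 1 - 16 * ε := by linarith
  have h2 : (1 - 16 * ε)⁻¹ ^ (2 * J) ≤ Real.exp (64 * ε * J) := by
    calc (1 - 16 * ε)⁻¹ ^ (2 * J) ≤ Real.exp (32 * ε) ^ (2 * J) :=
          pow_le_pow_left₀ (inv_nonneg.2 hpos.le) h1 _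
      _ = Real.exp (64 * ε * J) := by
          rw [← Real.exp_nat_mul]; congr 1; push_cast; ring
  have h3 : 64 * ε * J ≤ 1280 * X * Real.log (2 / X) * Real.log n + 4 := by
    have ha : 64 * ε * J ≤ 64 * ε * (5 * (Real.log n / D) * Real.log (2 / X) + 2) :=
      mul_le_mul_of_nonneg_left hJ (by positivity)
    have hb : 64 * ε * (5 * (Real.log n / D) * Real.log (2 / X) + 2)
        = (ε / D) * (320 * (Real.log n * Real.log (2 / X))) + 128 * ε := by
      field_simp; ring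
    have hc : ε / D ≤ 4 * X := by rw [div_le_iff₀ hD]; exact hεD
    have hd : 0 ≤ 320 * (Real.log n * Real.log (2 / X)) := by
      have : 0 ≤ Real.log n * Real.log (2 / X) := mul_nonneg hln.le (by linarith)
      linarith
    have he := mul_le_mul_of_nonneg_right hc hd
    rw [hb] at ha
    nlinarith
  have h4 : n ^ X * Real.exp (64 * ε * J) ≤
      Real.exp 4 * n ^ (1300 * X * Real.log (2 / X)) := by
    rw [Real.rpow_def_of_pos hn0, Real.rpow_def_of_pos hn0, ← Real.exp_add, ← Real.exp_add]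
    apply Real.exp_le_exp.2
    have h5 : X ≤ 20 * X * Real.log (2 / X) := by nlinarith
    nlinarith [mul_le_mul_of_nonneg_left h5 hln.le]
  have h6 : 1 ≤ n ^ (1300 * X * Real.log (2 / X)) :=
    Real.one_le_rpow hn.le (by
      have : 0 ≤ X * Real.log (2 / X) := mul_nonneg hX.le (by linarith)
      nlinarith)
  have h7 : 0 ≤ n ^ X := by positivity
  have h8 := mul_le_mul_of_nonneg_left h2 h7
  nlinarith

end FinBAux

open FinBAux

theorem fin_thr {s0 δ X : ℝ} (hδ : 0 < δ) (hδ1 : δ ≤ 1 / 1024) (hs : 31 / 32 ≤ s0)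
    (hs1 : s0 < 1) (hX : X = Real.log s0 / Real.log δ) :
    ∃ n0 K : ℝ, ∀ (V ι L : Type) [Fintype V] [DecidableEq V] [Fintype ι] [Fintype L]
      [DecidableEq L] (s t : ι → V) (side : V → Bool) (perm : ι → Equiv.Perm L)
      (E : ((V → L) → ℝ) →ₗ[ℝ] ℝ) (r : ℕ), (∀ e, side (s e) ≠ side (t e)) →
      IsPseudoExpectation r E → n0 ≤ Fintype.card V →
      K * (Fintype.card V : ℝ) ^ (1300 * X * Real.log (2 / X)) ≤ r →
      s0 * Fintype.card ι ≤ ∑ e, E (P325u.sat (s e) (t e) (perm e)) →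
      ∃ x : V → L, δ * Fintype.card ι ≤ P325F.sat s t perm (fun _ => 1) x := by
  have hs0 : 0 < s0 := by linarith
  have hA : 1 - s0 ≤ -Real.log s0 := by
    have := Real.log_le_sub_one_of_pos hs0
    linarith
  have hB : 2 * Real.log 32 ≤ -Real.log δ := by
    have h1 : Real.log δ ≤ Real.log (1 / 1024) := Real.log_le_log hδ hδ1
    have h2 : Real.log (1 / 1024 : ℝ) = -(2 * Real.log 32) := by
      rw [one_div, Real.log_inv, show (1024 : ℝ) = 32 ^ 2 by norm_num, Real.log_pow]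
      push_cast; ring
    linarith
  have hl32 : 0 < Real.log 32 := Real.log_pos (by norm_num)
  have hBpos : 0 < -Real.log δ := by linarith
  obtain ⟨A, hAd⟩ : ∃ A, -Real.log s0 = A := ⟨_, rfl⟩
  obtain ⟨B, hBd⟩ : ∃ B, -Real.log δ = B := ⟨_, rfl⟩
  have hXAB : X = A / B := by
    rw [hX, ← hAd, ← hBd, neg_div_neg_eq]
  have hlogs : Real.log δ < Real.log s0 := Real.log_lt_log hδ (by linarith)
  rw [hAd] at hA
  rw [hBd] at hB hBpos
  have hApos : 0 < A := by linarith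
  have hAB : A < B := by linarith
  have hX0 : 0 < X := by rw [hXAB]; positivity
  have hX1 : X ≤ 1 := by rw [hXAB, div_le_one hBpos]; exact hAB.le
  obtain ⟨D, hDd⟩ : ∃ D, (B - Real.log 32) / 2 = D := ⟨_, rfl⟩
  have hDB : B / 4 ≤ D := by linarith
  have hD : 0 < D := by linarith
  have hexpD : Real.exp (-(2 * D)) = 32 * δ := by
    have : -(2 * D) = Real.log 32 + Real.log δ := by linarith
    rw [this, Real.exp_add, Real.exp_log (by norm_num), Real.exp_log hδ]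
  obtain ⟨n0, hn0, hpars⟩ := pars hD hX0 hX1
  refine ⟨n0, 64 * Real.exp 4 + 3, ?_⟩
  intro V ι L _ _ _ _ _ s t side perm E r hside hE hn hr hsum
  have hn1 : (1 : ℝ) < Fintype.card V := lt_of_lt_of_le hn0 hn
  obtain ⟨J, lam, hJe, hJ0, hl, hl8, hnl, hQ8, hJQ, hJup⟩ := hpars _ hn
  have hε0 : 0 ≤ 1 - s0 := by linarith
  have hε1 : 1 - s0 ≤ 1 / 32 := by linarith
  have hεD : 1 - s0 ≤ 4 * X * D := by
    have h1 : A = X * B := by rw [hXAB]; field_simp
    nlinarith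
  have hdeg := (deg_bound hε0 hε1 hD hX0 hX1 hεD hn1 hJup).trans hr
  have hQ1 : 1 ≤ (Fintype.card V : ℝ) ^ X := Real.one_le_rpow hn1.le hX0.le
  have hpos16 : 0 < 1 - 16 * (1 - s0) := by linarith
  have hr3 : 3 ≤ r := by
    have h1 : (3 : ℝ) ≤ r := by
      refine le_trans ?_ hdeg
      have : 0 ≤ 64 * (Fintype.card V : ℝ) ^ X * (1 - 16 * (1 - s0))⁻¹ ^ (2 * J) := by positivity
      linarith
    exact_mod_cast h1
  have hR := sos_thr (s := s) (t := t) perm hE hJe hJ0 hQ1 hε0 hε1 hdeg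
  classical
  obtain ⟨f, hf⟩ : ∃ f : ι → ℝ, (fun e => E (P325u.sat (s e) (t e) (perm e))) = f := ⟨_, rfl⟩
  have hfe : ∀ e, E (P325u.sat (s e) (t e) (perm e)) = f e := fun e => congrFun hf e
  have hf1 : ∀ e, f e ≤ 1 := fun e => by
    rw [← hfe e]
    exact (pe_sat_mem (s := s) (t := t) perm hE (by omega) e).2
  simp only [hfe] at hsum hR
  let w : ι → ℝ := fun e => if 1 - 2 * (1 - s0) ≤ f e then 1 else 0
  have hw0 : ∀ e, 0 ≤ w e := fun e => by
    show 0 ≤ (if 1 - 2 * (1 - s0) ≤ f e then (1 : ℝ) else 0)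
    split_ifs <;> norm_num
  have hw1 : ∀ e, w e ≤ 1 := fun e => by
    show (if 1 - 2 * (1 - s0) ≤ f e then (1 : ℝ) else 0) ≤ 1
    split_ifs <;> norm_num
  have hwG : ∀ e, w e ≠ 0 → 1 - 2 * (1 - s0) ≤ f e := fun e he => by
    by_contra h
    exact he (if_neg h)
  have hwsum : (Fintype.card ι : ℝ) / 2 ≤ ∑ e, w e := by
    have key : ∀ e, 2 * (1 - s0) * (1 - w e) ≤ 1 - f e := by
      intro e
      by_cases h : 1 - 2 * (1 - s0) ≤ f e
      · have : w e = 1 := if_pos h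
        rw [this]
        have := hf1 e
        linarith
      · have : w e = 0 := if_neg h
        rw [this]
        linarith
    have h1 := Finset.sum_le_sum fun e (_ : e ∈ Finset.univ) => key e
    rw [← Finset.mul_sum, Finset.sum_sub_distrib, Finset.sum_sub_distrib] at h1
    simp only [Finset.sum_const, Finset.card_univ, nsmul_eq_mul, mul_one] at h1
    have h2 : 0 < 1 - s0 := by linarith
    have h3 : 2 * (1 - s0) * ((Fintype.card ι : ℝ) - ∑ e, w e) ≤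
        2 * (1 - s0) * ((Fintype.card ι : ℝ) / 2) := by linarith
    have h4 := le_of_mul_le_mul_left h3 (by linarith)
    linarith
  obtain ⟨x, hx⟩ := core_main (s := s) (t := t) (nonempty_labelings hE) perm hside
    (fun e => 1 - 2 * (1 - s0) ≤ f e) hJ0 hl hl8 hQ8 hJQ (by norm_num : (0 : ℝ) < 1 / 2) hR w hw0 hwG
  refine ⟨x, ?_⟩
  have hsat : P325F.sat s t perm w x ≤ P325F.sat s t perm (fun _ => 1) x := by
    unfold P325F.sat
    refine Finset.sum_le_sum fun e _ => ?_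
    split_ifs
    · exact hw1 e
    · exact le_rfl
  refine le_trans ?_ (hx.trans hsat)
  rw [hnl]
  have h1 : (1 / 2 * Real.exp (-D) / 2) ^ 2 = 2 * δ := by
    have : Real.exp (-D) ^ 2 = 32 * δ := by
      rw [← hexpD, ← Real.exp_nat_mul]; congr 1; push_cast; ring
    calc (1 / 2 * Real.exp (-D) / 2) ^ 2 = Real.exp (-D) ^ 2 / 16 := by ring
      _ = 2 * δ := by rw [this]; ring
  rw [h1]
  nlinarith

end Pool.Agent.Lib.P325v
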