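import Pool.Agent.Lib.P325v.FinU

/-!
# A general explicit form, and polynomial approximation factors with polylogarithmic degree
-/

set_option autoImplicit false

open Finset Matrix Pool.Agent.Lib.P325F Pool.Agent.Lib.P325u

namespace Pool.Agent.Lib.P325v

/-- The explicit form behind all the estimates (independent rounding). -/
theorem gen_indep {V ι L : Type} [Fintype V] [DecidableEq V] [Fintype ι] [Fintype L]
    [DecidableEq L] {s t : ι → V} {side : V → Bool} (perm : ι → Equiv.Perm L)
    {E : ((V → L) → ℝ) →ₗ[ℝ] ℝ} {r : ℕ} (hside : ∀ e, side (s e) ≠ side (t e))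
    (hE : IsPseudoExpectation r E) {s0 : ℝ} (hs0 : 0 < s0) (hs01 : s0 < 1) {J : ℕ}
    (hJe : Even J) (hJ0 : 0 < J) {Q lam : ℝ} (hl : 0 < lam) (hl8 : lam ≤ 1 / 8)
    (hQ : 2 * (16 / lam ^ 2) ^ 8 ≤ Q)
    (hJQ : Real.log (2 * Fintype.card V / lam) ≤ (1 + lam / 4) ^ J * Real.log Q)
    (hdeg : Q * (s0 ^ 3)⁻¹ ^ (2 * J) + 3 ≤ r)
    (hsum : s0 * Fintype.card ι ≤ ∑ e, E (P325u.sat (s e) (t e) (perm e))) :
    ∃ x : V → L, ((s0 ^ 2 - s0 ^ 3) * (Fintype.card V : ℝ) ^ (-lam) / 2) ^ 2 * (s0 / 2) *
      Fintype.card ι ≤ P325F.sat s t perm (fun _ => 1) x := by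
  have hQ1 : 1 ≤ Q := by
    have h1 : 1 ≤ 16 / lam ^ 2 := by
      rw [le_div_iff₀ (by positivity)]
      nlinarith
    have h2 : 1 ≤ (16 / lam ^ 2) ^ 8 := one_le_pow₀ h1
    linarith
  have hr2 : 2 ≤ r := by
    have h1 : 0 ≤ Q * (s0 ^ 3)⁻¹ ^ (2 * J) := by positivity
    have h2 : (2 : ℝ) ≤ r := by linarith
    exact_mod_cast h2
  have hst : ∀ e, s e ≠ t e := fun e h => hside e (by rw [h])
  have hSOS := sos_of_pe (s := s) (t := t) perm hst hE (Or.inr hJe) hJ0 hQ1
    (by positivity : (0 : ℝ) < s0 ^ 3) hdeg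
  have hf := fun e => pe_sat_mem (s := s) (t := t) perm hE hr2 e
  set f : ι → ℝ := fun e => E (P325u.sat (s e) (t e) (perm e)) with hfdef
  have hf1 : ∀ e, f e ≤ 1 := fun e => (hf e).2
  set v := s0 ^ 2 - s0 ^ 3 with hvdef
  have hv : 0 < v := by
    have h1 : v = s0 ^ 2 * (1 - s0) := by rw [hvdef]; ring
    rw [h1]
    have : 0 < 1 - s0 := by linarith
    positivity
  have hRND : RND s t perm (fun e => s0 ^ 2 ≤ f e) J Q v := by
    intro w hw hwG htr
    obtain ⟨x, hx⟩ := hSOS w hw htr
    refine ⟨x, le_trans ?_ hx⟩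
    have h1 : s0 ^ 2 * ∑ e, w e ≤ ∑ e, w e * f e := by
      rw [Finset.mul_sum]
      refine Finset.sum_le_sum fun e _ => ?_
      by_cases h : w e = 0
      · rw [h]
        simp
      · have := mul_le_mul_of_nonneg_left (hwG e h) (hw e)
        linarith
    rw [hvdef, sub_mul]
    linarith
  classical
  set w0 : ι → ℝ := fun e => if s0 ^ 2 ≤ f e then 1 else 0 with hw0def
  have hw0 : ∀ e, 0 ≤ w0 e := by
    intro e
    simp only [hw0def]
    split_ifs <;> norm_num
  have hw01 : ∀ e, w0 e ≤ (fun _ => (1 : ℝ)) e := by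
    intro e
    simp only [hw0def]
    split_ifs <;> norm_num
  have hw0G : ∀ e, w0 e ≠ 0 → s0 ^ 2 ≤ f e := by
    intro e h
    by_contra hcon
    apply h
    simp only [hw0def]
    rw [if_neg hcon]
  have hm : (∑ _e : ι, (1 : ℝ)) = Fintype.card ι := by simp
  have hfw : ∑ e, f e ≤ ∑ e, w0 e + s0 ^ 2 * ((Fintype.card ι : ℝ) - ∑ e, w0 e) := by
    rw [← hm, ← Finset.sum_sub_distrib, Finset.mul_sum, ← Finset.sum_add_distrib]
    refine Finset.sum_le_sum fun e _ => ?_
    simp only [hw0def]
    split_ifs with h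
    · have := hf1 e
      linarith
    · have := not_le.1 h
      linarith
  have hW : s0 / 2 * Fintype.card ι ≤ ∑ e, w0 e := by
    have h1 := hsum.trans hfw
    have h2 : 0 < 1 - s0 := by linarith
    have h3 : 0 ≤ ∑ e, w0 e := Finset.sum_nonneg fun e _ => hw0 e
    have h4 : (1 - s0) * (s0 * Fintype.card ι) ≤ (1 - s0) * ((1 + s0) * ∑ e, w0 e) := by nlinarith
    have h5 := le_of_mul_le_mul_left h4 h2
    nlinarith
  have hL : Nonempty (V → L) := nonempty_labelings hE
  obtain ⟨x, hx⟩ := core_main hL perm hside (fun e => s0 ^ 2 ≤ f e) hJ0 hl hl8 hQ hJQ hv hRND w0 hw0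
    hw0G
  refine ⟨x, ?_⟩
  have hmono : P325F.sat s t perm w0 x ≤ P325F.sat s t perm (fun _ => 1) x := by
    unfold P325F.sat
    refine Finset.sum_le_sum fun e _ => ?_
    split_ifs
    · exact hw01 e
    · exact le_rfl
  refine le_trans ?_ (hx.trans hmono)
  rw [mul_assoc]
  exact mul_le_mul_of_nonneg_left hW (sq_nonneg _)

/-- the choice of the number of steps -/
theorem exists_steps {lam n : ℝ} (hl : 0 < lam) (hl1 : lam ≤ 1 / 8) (hn : 16 ≤ n) :
    ∃ J : ℕ, Even J ∧ 0 < J ∧ 2 * Real.log n ≤ (1 + lam / 4) ^ J ∧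
      (J : ℝ) ≤ 5 / lam * Real.log (2 * Real.log n) + 2 := by
  have hln : 1 ≤ Real.log n := by
    rw [Real.le_log_iff_exp_le (by linarith)]
    have := Real.exp_one_lt_d9
    linarith
  have h2 : 1 < 2 * Real.log n := by linarith
  have hlog2 : 0 < Real.log (2 * Real.log n) := Real.log_pos h2
  have h1l : 1 < 1 + lam / 4 := by linarith
  have hlogl : 0 < Real.log (1 + lam / 4) := Real.log_pos h1l
  set J0 : ℝ := Real.log (2 * Real.log n) / Real.log (1 + lam / 4) with hJ0
  have hJ0p : 0 < J0 := div_pos hlog2 hlogl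
  have hc : 0 < ⌈J0 / 2⌉₊ := Nat.ceil_pos.2 (by positivity)
  refine ⟨2 * ⌈J0 / 2⌉₊, even_two_mul _, by omega, ?_, ?_⟩
  · have h3 : J0 ≤ ((2 * ⌈J0 / 2⌉₊ : ℕ) : ℝ) := by
      have := Nat.le_ceil (J0 / 2)
      push_cast
      linarith
    have h4 : 2 * Real.log n = (1 + lam / 4) ^ J0 := by
      rw [Real.rpow_def_of_pos (by linarith), hJ0, mul_div_cancel₀ _ hlogl.ne',
        Real.exp_log (by linarith)]
    rw [h4, ← Real.rpow_natCast]
    exact Real.rpow_le_rpow_of_exponent_le h1l.le h3
  · have h3 : ((2 * ⌈J0 / 2⌉₊ : ℕ) : ℝ) ≤ J0 + 2 := by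
      have := (Nat.ceil_lt_add_one (by positivity : 0 ≤ J0 / 2)).le
      push_cast
      linarith
    have h4 : J0 ≤ 5 / lam * Real.log (2 * Real.log n) := by
      rw [hJ0, div_le_iff₀ hlogl]
      have h5 := Real.one_sub_inv_le_log_of_pos (by linarith : 0 < 1 + lam / 4)
      have h6 : lam / 5 ≤ 1 - (1 + lam / 4)⁻¹ := by
        have h7 : 1 - (1 + lam / 4)⁻¹ = (lam / 4) / (1 + lam / 4) := by
          field_simp
          ring
        rw [h7, le_div_iff₀ (by linarith)]
        nlinarith
      have h8 : lam / 5 ≤ Real.log (1 + lam / 4) := h6.trans h5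
      calc Real.log (2 * Real.log n) = 5 / lam * Real.log (2 * Real.log n) * (lam / 5) := by
            field_simp
        _ ≤ 5 / lam * Real.log (2 * Real.log n) * Real.log (1 + lam / 4) :=
            mul_le_mul_of_nonneg_left h8 (by positivity)
    linarith

/-- Polynomial approximation factors: sum of squares of polylogarithmic degree. -/
theorem poly_factor (s c : ℝ) (hs0 : 0 < s) (hs1 : s < 1) (hc : 0 < c) (hc4 : c ≤ 1 / 4) :
    ∃ K : ℝ, 0 < K ∧ ∀ (U W Ω ι : Type) [Fintype U] [Fintype W] [Fintype Ω] [Fintype ι]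
      (I : P325x.Game U W Ω ι) (r : ℕ) (E : ((U ⊕ W → Ω) → ℝ) →ₗ[ℝ] ℝ),
      IsPseudoExpectation r E →
      K * Real.log ((Fintype.card U : ℝ) + Fintype.card W) ^ (60 / c * Real.log (1 / s)) ≤ r →
      s ≤ E (fun z => I.satFrac (fun u => z (Sum.inl u)) (fun v => z (Sum.inr v))) →
      ((Fintype.card U : ℝ) + Fintype.card W) ^ (-c) / K ≤ I.value := by
  set A : ℝ := -Real.log s with hA
  have hA0 : 0 < A := by
    have := Real.log_neg hs0 hs1
    rw [hA]
    linarith
  have hlog1s : Real.log (1 / s) = A := by rw [one_div, Real.log_inv]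
  set e0 : ℝ := 60 / c * Real.log (1 / s) with he0
  have he0A : e0 = 60 / c * A := by rw [he0, hlog1s]
  have he00 : 0 < e0 := by rw [he0A]; positivity
  set lam : ℝ := c / 2 with hlam
  have hl : 0 < lam := by positivity
  have hl8 : lam ≤ 1 / 8 := by rw [hlam]; linarith
  set Q : ℝ := 2 * (16 / lam ^ 2) ^ 8 with hQ
  have hQ0 : 0 < Q := by positivity
  have hQe : Real.exp 1 ≤ Q := by
    have h1 : 1 ≤ 16 / lam ^ 2 := by
      rw [le_div_iff₀ (by positivity)]
      nlinarith
    have h3 : 16 / lam ^ 2 ≤ (16 / lam ^ 2) ^ 8 := le_self_pow₀ h1 (by norm_num)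
    have h4 : 16 ≤ 16 / lam ^ 2 := by
      rw [le_div_iff₀ (by positivity)]
      nlinarith
    have := Real.exp_one_lt_d9
    rw [hQ]
    linarith
  have hlogQ : 1 ≤ Real.log Q := by
    rw [Real.le_log_iff_exp_le hQ0]
    exact hQe
  set n0 : ℝ := 4 / c with hn0
  have hn016 : 16 ≤ n0 := by
    rw [hn0, le_div_iff₀ hc]
    linarith
  have hlog2 : 0 < Real.log 2 := Real.log_pos (by norm_num)
  set v : ℝ := s ^ 2 - s ^ 3 with hv
  have hv0 : 0 < v := by
    have h1 : v = s ^ 2 * (1 - s) := by rw [hv]; ring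
    rw [h1]
    have : 0 < 1 - s := by linarith
    positivity
  set K1 : ℝ := Q * Real.exp (12 * A) * 2 ^ e0 + 3 with hK1
  set K2 : ℝ := (n0 * (s / 2)⁻¹ ^ 2 + 3) / Real.log 2 ^ e0 with hK2
  set K3 : ℝ := 8 / (v ^ 2 * s) with hK3
  set K4 : ℝ := 2 / s with hK4
  have hK10 : 0 < K1 := by positivity
  have hK20 : 0 < K2 := by positivity
  have hK30 : 0 < K3 := by positivity
  have hK40 : 0 < K4 := by positivity
  set K : ℝ := K1 + K2 + K3 + K4 with hK
  have hK0 : 0 < K := by positivity
  refine ⟨K, hK0, ?_⟩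
  intro U W Ω ι _ _ _ _ I r E hE hr hval
  classical
  have hm : 0 < Fintype.card ι := by
    by_contra hcon
    have h0 : Fintype.card ι = 0 := by omega
    have h1 : (fun z : U ⊕ W → Ω =>
        I.satFrac (fun u => z (Sum.inl u)) (fun v => z (Sum.inr v))) = 0 := by
      funext z
      unfold P325x.Game.satFrac
      rw [h0]
      simp
    rw [h1, map_zero] at hval
    linarith
  have hm' : (0 : ℝ) < Fintype.card ι := by exact_mod_cast hm
  have hι : Nonempty ι := Fintype.card_pos_iff.1 hm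
  obtain ⟨i0⟩ := hι
  set n : ℝ := (Fintype.card U : ℝ) + Fintype.card W with hn
  have hcard : (Fintype.card (U ⊕ W) : ℝ) = n := by
    rw [Fintype.card_sum, hn]; push_cast; ring
  have hn2 : 2 ≤ n := by
    have h1 : 1 ≤ Fintype.card U := Fintype.card_pos_iff.2 ⟨I.src i0⟩
    have h2 : 1 ≤ Fintype.card W := Fintype.card_pos_iff.2 ⟨I.dst i0⟩
    have h3 : (1 : ℝ) ≤ Fintype.card U := by exact_mod_cast h1
    have h4 : (1 : ℝ) ≤ Fintype.card W := by exact_mod_cast h2
    linarith
  have hnpos : 0 < n := by linarith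
  have hsum : s * Fintype.card ι ≤ ∑ e, E (P325u.sat (Sum.inl (I.src e) : U ⊕ W)
      (Sum.inr (I.dst e)) (I.perm e)) := by
    have h1 : (fun z : U ⊕ W → Ω =>
        I.satFrac (fun u => z (Sum.inl u)) (fun v => z (Sum.inr v))) =
        (Fintype.card ι : ℝ)⁻¹ • ∑ e, P325u.sat (Sum.inl (I.src e) : U ⊕ W)
          (Sum.inr (I.dst e)) (I.perm e) := by
      funext z
      have h2 := satFrac_card I hm z
      rw [Pi.smul_apply, Finset.sum_apply, smul_eq_mul, ← div_eq_inv_mul, eq_div_iff hm'.ne', h2]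
      unfold P325F.sat P325u.sat Good
      apply Finset.sum_congr rfl
      intro e _
      by_cases hc : I.perm e (z (Sum.inl (I.src e))) = z (Sum.inr (I.dst e))
      · simp only [hc, if_true]
      · simp only [hc, if_false]
    rw [h1, map_smul, map_sum, smul_eq_mul, ← div_eq_inv_mul, le_div_iff₀ hm'] at hval
    exact hval
  have hlogn : Real.log 2 ≤ Real.log n := Real.log_le_log (by norm_num) hn2
  have hnc1 : n ^ (-c) ≤ 1 := Real.rpow_le_one_of_one_le_of_nonpos (by linarith) (by linarith)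
  have hnc0 : 0 < n ^ (-c) := Real.rpow_pos_of_pos hnpos _
  have hfin : ∃ x : U ⊕ W → Ω, n ^ (-c) / K * Fintype.card ι ≤ P325F.sat
        (fun e => (Sum.inl (I.src e) : U ⊕ W)) (fun e => Sum.inr (I.dst e)) I.perm
        (fun _ => 1) x := by
    rcases le_or_gt n0 n with hlarge | hsmall
    · -- many vertices
      have hn16 : 16 ≤ n := hn016.trans hlarge
      have hln1 : 1 ≤ Real.log n := by
        rw [Real.le_log_iff_exp_le hnpos]
        have := Real.exp_one_lt_d9
        linarith
      obtain ⟨J, hJe, hJ0, hJ1, hJ2⟩ := exists_steps hl hl8 hn16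
      have hJQ : Real.log (2 * Fintype.card (U ⊕ W) / lam) ≤ (1 + lam / 4) ^ J * Real.log Q := by
        rw [hcard]
        have h1 : 2 * n / lam ≤ n ^ 2 := by
          rw [div_le_iff₀ hl, sq]
          have h2 : n0 * c = 4 := by rw [hn0]; field_simp
          have h3 : 4 ≤ n * c := by
            rw [← h2]
            exact mul_le_mul_of_nonneg_right hlarge hc.le
          rw [hlam]
          nlinarith
        have h2 : Real.log (2 * n / lam) ≤ 2 * Real.log n := by
          calc Real.log (2 * n / lam) ≤ Real.log (n ^ 2) :=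
                Real.log_le_log (by positivity) h1
            _ = 2 * Real.log n := by
                rw [Real.log_pow]
                push_cast
                ring
        have h3 : 0 ≤ (1 + lam / 4) ^ J := by positivity
        nlinarith
      have hdeg : Q * (s ^ 3)⁻¹ ^ (2 * J) + 3 ≤ r := by
        have hsexp : s = Real.exp (-A) := by rw [hA, neg_neg, Real.exp_log hs0]
        have hτinv : (s ^ 3)⁻¹ ^ (2 * J) = Real.exp (6 * A * J) := by
          rw [hsexp, ← Real.exp_nat_mul, ← Real.exp_neg, ← Real.exp_nat_mul]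
          congr 1
          push_cast
          ring
        have h1 : 6 * A * J ≤ 12 * A + Real.log (2 * Real.log n) * e0 := by
          have h2 : 6 * A * J ≤ 6 * A * (5 / lam * Real.log (2 * Real.log n) + 2) :=
            mul_le_mul_of_nonneg_left hJ2 (by positivity)
          have h3 : 6 * A * (5 / lam * Real.log (2 * Real.log n) + 2) =
              12 * A + Real.log (2 * Real.log n) * e0 := by
            rw [he0A, hlam]
            field_simp
            ring
          linarith
        have h2 : (s ^ 3)⁻¹ ^ (2 * J) ≤ Real.exp (12 * A) * (2 ^ e0 * Real.log n ^ e0) := by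
          rw [hτinv, ← Real.mul_rpow (by norm_num) (by linarith),
            Real.rpow_def_of_pos (by linarith : 0 < 2 * Real.log n), ← Real.exp_add]
          exact Real.exp_le_exp.2 h1
        have h3 : 1 ≤ Real.log n ^ e0 := Real.one_le_rpow hln1 he00.le
        have h4 : Q * (s ^ 3)⁻¹ ^ (2 * J) + 3 ≤ K1 * Real.log n ^ e0 := by
          have h5 := mul_le_mul_of_nonneg_left h2 hQ0.le
          rw [hK1, add_mul]
          have h6 : Q * (Real.exp (12 * A) * (2 ^ e0 * Real.log n ^ e0)) =
              Q * Real.exp (12 * A) * 2 ^ e0 * Real.log n ^ e0 := by ring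
          linarith
        refine h4.trans (le_trans ?_ hr)
        apply mul_le_mul_of_nonneg_right _ (by linarith)
        rw [hK]
        linarith
      obtain ⟨x, hx⟩ := gen_indep (s := fun e => (Sum.inl (I.src e) : U ⊕ W))
        (t := fun e => Sum.inr (I.dst e)) (side := fun v => v.isLeft) I.perm
        (by intro e; simp) hE hs0 hs1 hJe hJ0 hl hl8 le_rfl hJQ hdeg hsum
      refine ⟨x, le_trans ?_ hx⟩
      apply mul_le_mul_of_nonneg_right _ hm'.le
      rw [hcard]
      have h1 : (n ^ (-lam)) ^ 2 = n ^ (-c) := by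
        rw [← Real.rpow_natCast, ← Real.rpow_mul hnpos.le]
        congr 1
        rw [hlam]
        push_cast
        ring
      have h2 : (v * n ^ (-lam) / 2) ^ 2 * (s / 2) = n ^ (-c) / K3 := by
        rw [hK3, div_div_eq_mul_div, div_pow, mul_pow, h1]
        ring
      rw [h2]
      apply div_le_div_of_nonneg_left hnc0.le hK30
      rw [hK]
      linarith
    · -- few vertices
      obtain ⟨x, hx⟩ := triv_bound (s := fun e => (Sum.inl (I.src e) : U ⊕ W))
        (t := fun e => Sum.inr (I.dst e)) I.perm (fun e => Sum.inl_ne_inr) hE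
        (s0 := s) (δ := s / 2) (by linarith) (by rw [hcard]; linarith) (by
          rw [hcard]
          have h0 : s - s / 2 = s / 2 := by ring
          rw [h0]
          have h1 : n * (s / 2)⁻¹ ^ 2 + 3 ≤ n0 * (s / 2)⁻¹ ^ 2 + 3 := by
            have : 0 ≤ (s / 2)⁻¹ ^ 2 := by positivity
            nlinarith
          have h2 : Real.log 2 ^ e0 ≤ Real.log n ^ e0 :=
            Real.rpow_le_rpow hlog2.le hlogn he00.le
          have h3 : 0 < Real.log 2 ^ e0 := Real.rpow_pos_of_pos hlog2 _
          have h4 : n0 * (s / 2)⁻¹ ^ 2 + 3 = K2 * Real.log 2 ^ e0 := by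
            rw [hK2, div_mul_cancel₀ _ h3.ne']
          have h5 : K2 * Real.log 2 ^ e0 ≤ K * Real.log n ^ e0 := by
            apply mul_le_mul _ h2 h3.le hK0.le
            rw [hK]
            linarith
          linarith) hsum
      refine ⟨x, le_trans ?_ hx⟩
      apply mul_le_mul_of_nonneg_right _ hm'.le
      rw [div_le_iff₀ hK0]
      have h1 : s / 2 * K4 = 1 := by rw [hK4]; field_simp
      have h2 : s / 2 * K4 ≤ s / 2 * K := by
        apply mul_le_mul_of_nonneg_left _ (by positivity)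
        rw [hK]
        linarith
      linarith
  obtain ⟨z, hz⟩ := hfin
  rw [← satFrac_card I hm z] at hz
  exact (le_of_mul_le_mul_right hz hm').trans (P325u.satFrac_le_value I _ _)

end Pool.Agent.Lib.P325v
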