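import Mathlib

/-!
# Module Num (1.5 h): a numerical inequality

`ψ = log U ≥ 8 log (16/lam^2)`, `y = lam ψ > 0`. `(4/(lam δ U))^lam = exp (lam (log (4/(lam δ)) - ψ))`.
* `y ≤ 1`: `δ = y/4`: `log (4/(lam δ)) = log (16/(lam y)) ≤ log (16/lam^2) ≤ ψ/8` because `y = lam ψ ≥ lam` (`ψ ≥ 8 log 1024 ≥ 1`). So the power is `≤ exp (-7y/8) ≤ 1 - 7y/8 + 49y^2/128`,
  and `y/4 + (1 - y/4)(1 - 7y/8 + 49y^2/128) = 1 - 7y/8 + 77y^2/128 - 49y^3/512 ≤ 1 - y/4 ≤ exp (-y/4) = U^(-lam/4)` for `0 ≤ y ≤ 1`.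
* `y ≥ 1`: `δ = exp (-y/2)/4`: `lam log (4/(lam δ)) = lam log (16/lam) + lam y/2 ≤ y/8 + y/16` (`log (16/lam) ≤ log (16/lam^2) ≤ ψ/8`, `lam ≤ 1/8`), the power is `≤ exp (-13y/16)`, and
  `exp (-y/2)/4 + exp (-13y/16) ≤ exp (-y/4)` because `exp (-1/4)/4 + exp (-9/16) ≤ 1/4 + 16/25 < 1` (`exp (9/16) ≥ 1 + 9/16 = 25/16`).
-/

set_option autoImplicit false

namespace Pool.Agent.Lib.P325v

namespace NumAux

theorem exp_neg_le {z : ℝ} (hz : 0 ≤ z) : Real.exp (-z) ≤ 1 - z + z ^ 2 / 2 := by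
  have h1 := Real.quadratic_le_exp_of_nonneg hz
  have h2 : 0 < 1 + z + z ^ 2 / 2 := by positivity
  rw [Real.exp_neg]
  have h3 : (Real.exp z)⁻¹ ≤ (1 + z + z ^ 2 / 2)⁻¹ := inv_anti₀ h2 h1
  refine h3.trans ?_
  rw [inv_le_iff_one_le_mul₀ h2]
  nlinarith [sq_nonneg (z ^ 2)]

end NumAux

open NumAux

theorem num_nash {lam U : ℝ} (hl : 0 < lam) (hl8 : lam ≤ 1 / 8) (hU : (16 / lam ^ 2) ^ 8 ≤ U) :
    ∃ δ : ℝ, 0 < δ ∧ δ ≤ 1 ∧
      δ + (1 - δ) * (4 / (lam * δ * U)) ^ lam ≤ U ^ (-(lam / 4)) := by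
  have hbase : (1024 : ℝ) ≤ 16 / lam ^ 2 := by
    rw [le_div_iff₀ (by positivity)]
    nlinarith
  have hb0 : (0 : ℝ) < 16 / lam ^ 2 := by positivity
  have hU0 : 0 < U := lt_of_lt_of_le (by positivity) hU
  set ψ : ℝ := Real.log U with hψ
  set A : ℝ := Real.log (16 / lam ^ 2) with hA
  have hA1 : 1 ≤ A := by
    rw [hA, Real.le_log_iff_exp_le hb0]
    have := Real.exp_one_lt_d9
    linarith
  have hψA : 8 * A ≤ ψ := by
    have h1 := Real.log_le_log (by positivity) hU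
    rw [Real.log_pow] at h1
    exact_mod_cast h1
  have hψ1 : 1 ≤ ψ := by linarith
  set y : ℝ := lam * ψ with hy
  have hylam : lam ≤ y := by
    rw [hy]; nlinarith
  have hy0 : 0 < y := lt_of_lt_of_le hl hylam
  have hR : U ^ (-(lam / 4)) = Real.exp (-(y / 4)) := by
    rw [Real.rpow_def_of_pos hU0, ← hψ, hy]
    congr 1
    ring
  have hpow : ∀ δ : ℝ, 0 < δ → (4 / (lam * δ * U)) ^ lam =
      Real.exp (lam * (Real.log (4 / (lam * δ)) - ψ)) := by
    intro δ hδ
    have h1 : 4 / (lam * δ * U) = 4 / (lam * δ) / U := by rw [div_div]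
    have h2 : 0 < 4 / (lam * δ) := by positivity
    rw [h1, Real.rpow_def_of_pos (by positivity), Real.log_div h2.ne' hU0.ne', ← hψ, mul_comm]
  have hAy : lam * A ≤ y / 8 := by
    rw [hy]
    nlinarith
  rcases le_total y 1 with hy1 | hy1
  · refine ⟨y / 4, by positivity, by linarith, ?_⟩
    rw [hpow (y / 4) (by positivity), hR]
    have h1 : Real.log (4 / (lam * (y / 4))) ≤ A := by
      rw [hA]
      refine Real.log_le_log (by positivity) ?_
      rw [div_le_div_iff₀ (by positivity) (by positivity)]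
      nlinarith
    have h2 : lam * (Real.log (4 / (lam * (y / 4))) - ψ) ≤ -(7 * y / 8) := by
      have : lam * Real.log (4 / (lam * (y / 4))) ≤ lam * A := mul_le_mul_of_nonneg_left h1 hl.le
      have h3 : lam * (Real.log (4 / (lam * (y / 4))) - ψ) =
          lam * Real.log (4 / (lam * (y / 4))) - y := by rw [hy]; ring
      rw [h3]
      linarith
    have h3 : Real.exp (lam * (Real.log (4 / (lam * (y / 4))) - ψ)) ≤
        1 - 7 * y / 8 + (7 * y / 8) ^ 2 / 2 :=
      (Real.exp_le_exp.2 h2).trans (exp_neg_le (by positivity))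
    have h4 : 1 - y / 4 ≤ Real.exp (-(y / 4)) := by
      have := Real.add_one_le_exp (-(y / 4))
      linarith
    have h5 : (1 - y / 4) * Real.exp (lam * (Real.log (4 / (lam * (y / 4))) - ψ)) ≤
        (1 - y / 4) * (1 - 7 * y / 8 + (7 * y / 8) ^ 2 / 2) :=
      mul_le_mul_of_nonneg_left h3 (by linarith)
    have h6 : y / 4 + (1 - y / 4) * (1 - 7 * y / 8 + (7 * y / 8) ^ 2 / 2) ≤ 1 - y / 4 := by
      have e : y / 4 + (1 - y / 4) * (1 - 7 * y / 8 + (7 * y / 8) ^ 2 / 2) - (1 - y / 4) =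
          y * (-5 / 8 + 77 * y / 128 - 49 * y ^ 2 / 512) := by ring
      have e2 : y * (-5 / 8 + 77 * y / 128 - 49 * y ^ 2 / 512) ≤ 0 := by
        refine mul_nonpos_of_nonneg_of_nonpos hy0.le ?_
        nlinarith [sq_nonneg y]
      linarith
    linarith
  · have he : Real.exp (-(y / 2)) ≤ 1 := Real.exp_le_one_iff.2 (by linarith)
    have hep : 0 < Real.exp (-(y / 2)) := Real.exp_pos _
    refine ⟨Real.exp (-(y / 2)) / 4, by positivity, by linarith, ?_⟩
    rw [hpow _ (by positivity), hR]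
    have h1 : Real.log (4 / (lam * (Real.exp (-(y / 2)) / 4))) = Real.log (16 / lam) + y / 2 := by
      have : 4 / (lam * (Real.exp (-(y / 2)) / 4)) = 16 / lam * Real.exp (y / 2) := by
        rw [Real.exp_neg]
        have := (Real.exp_pos (y / 2)).ne'
        field_simp
        norm_num
      rw [this, Real.log_mul (by positivity) (Real.exp_pos _).ne', Real.log_exp]
    have h2 : Real.log (16 / lam) ≤ A := by
      rw [hA]
      refine Real.log_le_log (by positivity) ?_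
      rw [div_le_div_iff₀ (by positivity) (by positivity)]
      nlinarith
    have h3 : lam * (Real.log (4 / (lam * (Real.exp (-(y / 2)) / 4))) - ψ) ≤ -(13 * y / 16) := by
      rw [h1]
      have e1 : lam * Real.log (16 / lam) ≤ lam * A := mul_le_mul_of_nonneg_left h2 hl.le
      have e2 : lam * (Real.log (16 / lam) + y / 2 - ψ) =
          lam * Real.log (16 / lam) + lam * y / 2 - y := by rw [hy]; ring
      rw [e2]
      nlinarith
    have h4 : Real.exp (lam * (Real.log (4 / (lam * (Real.exp (-(y / 2)) / 4))) - ψ)) ≤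
        Real.exp (-(13 * y / 16)) := Real.exp_le_exp.2 h3
    set X : ℝ := Real.exp (lam * (Real.log (4 / (lam * (Real.exp (-(y / 2)) / 4))) - ψ)) with hX
    have hX0 : 0 < X := Real.exp_pos _
    have h5 : (1 - Real.exp (-(y / 2)) / 4) * X ≤ X := by nlinarith
    have h6 : Real.exp (-(y / 2)) = Real.exp (-(y / 4)) * Real.exp (-(y / 4)) := by
      rw [← Real.exp_add]; congr 1; ring
    have h7 : Real.exp (-(13 * y / 16)) = Real.exp (-(y / 4)) * Real.exp (-(9 * y / 16)) := by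
      rw [← Real.exp_add]; congr 1; ring
    have h8 : Real.exp (-(y / 4)) ≤ 1 := Real.exp_le_one_iff.2 (by linarith)
    have h9 : Real.exp (-(9 * y / 16)) ≤ 16 / 25 := by
      have a1 : (25 / 16 : ℝ) ≤ Real.exp (9 * y / 16) := by
        have := Real.add_one_le_exp (9 * y / 16)
        linarith
      rw [Real.exp_neg]
      calc (Real.exp (9 * y / 16))⁻¹ ≤ (25 / 16 : ℝ)⁻¹ := inv_anti₀ (by norm_num) a1
        _ = 16 / 25 := by norm_num
    have h10 : 0 < Real.exp (-(y / 4)) := Real.exp_pos _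
    rw [h6] at h5 ⊢
    rw [h7] at h4
    nlinarith

end Pool.Agent.Lib.P325v
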