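import Pool.Agent.Lib.P325v.Defs
import Pool.Agent.Lib.P325v.Num

/-!
# Module Nash (2 h): from Faber-Krahn to a Nash type inequality

`nash_raw`: `ℓ = f ⬝ᵥ φ`, `F = f ⬝ᵥ f`, `N = card S`. `φ > 0` on `S` (`low`). Put `g x = f x / φ x` on `S`, so `f = g φ`, `ℓ = ∑ x ∈ S, g x * φ x ^ 2`, `F = ∑ x ∈ S, g x ^ 2 * φ x ^ 2`. For
every `g ≥ 0` on `S`: `Lam * ∑ g^2 φ^2 - (g φ) ⬝ᵥ (M *ᵥ (g φ)) = (1/2) ∑ x y ∈ S, M x y φ x φ y (g x - g y)^2` (`eig`, symmetry). Replacing `g` by `g_t = max (g - t) 0`, `t ≥ 0`, does not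
increase the right side. With `f_t = g_t φ`: `Lam F - f ⬝ᵥ (M *ᵥ f) ≥ Lam (f_t ⬝ᵥ f_t) - f_t ⬝ᵥ (M *ᵥ f_t) ≥ Lam (1 - (card T / N)^lam) (f_t ⬝ᵥ f_t)` with `T = {x ∈ S | t < g x}` (`fk`).
`F > 0` as `ℓ > 0`. `t = δ F/(2 ℓ) > 0`: `card T * lam/(2N) ≤ ∑ x ∈ T, φ x ^ 2 ≤ ℓ/t` gives `card T / N ≤ q := 4 ℓ^2/(lam δ F)`, and `f_t ⬝ᵥ f_t ≥ F - 2 t ℓ = (1-δ) F` (`max (g-t) 0 ^2 ≥ g^2 - 2 t g`).
If `q ≥ 1` the claim follows from `fk` with `T = S` (`q^lam ≥ 1`); otherwise `Lam F - f ⬝ᵥ (M *ᵥ f) ≥ Lam (1 - q^lam) (1-δ) F`, which is the claim.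
`nash`: `U = F/ℓ^2`, `num_nash`.
-/

set_option autoImplicit false

open Finset Matrix

namespace Pool.Agent.Lib.P325v

variable {V : Type} [Fintype V] [DecidableEq V] {M : Matrix V V ℝ} {lam Lam : ℝ} {S : Finset V}
  {φ : V → ℝ}

namespace NashAux

/-- the energy identity -/
theorem energy (hs : M.IsSymm) (hC : IsCore M lam S Lam φ) (h : V → ℝ) :
    Lam * ((fun x => h x * φ x) ⬝ᵥ (fun x => h x * φ x)) -
      (fun x => h x * φ x) ⬝ᵥ (M *ᵥ (fun x => h x * φ x)) =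
      1 / 2 * ∑ x, ∑ y, M x y * φ x * φ y * (h x - h y) ^ 2 := by
  have hsym : ∀ x y, M x y = M y x := fun x y => by
    have := congrFun (congrFun hs x) y
    rw [Matrix.transpose_apply] at this
    exact this.symm
  have e1 : ∑ x, ∑ y, M x y * φ x * φ y * h x ^ 2 = Lam * ∑ x, h x * φ x * (h x * φ x) := by
    rw [Finset.mul_sum]
    refine Finset.sum_congr rfl fun x _ => ?_
    by_cases hx : x ∈ S
    · have := hC.eig x hx
      unfold Matrix.mulVec dotProduct at this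
      calc ∑ y, M x y * φ x * φ y * h x ^ 2 = φ x * h x ^ 2 * ∑ y, M x y * φ y := by
            rw [Finset.mul_sum]
            refine Finset.sum_congr rfl fun y _ => ?_
            ring
        _ = Lam * (h x * φ x * (h x * φ x)) := by
            rw [this]
            ring
    · rw [hC.supp x hx]
      simp
  have e2 : ∑ x, ∑ y, M x y * φ x * φ y * h y ^ 2 = ∑ x, ∑ y, M x y * φ x * φ y * h x ^ 2 := by
    rw [Finset.sum_comm]
    refine Finset.sum_congr rfl fun x _ => Finset.sum_congr rfl fun y _ => ?_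
    rw [hsym y x]
    ring
  have e3 : ∑ x, ∑ y, M x y * φ x * φ y * (h x - h y) ^ 2 =
      ∑ x, ∑ y, M x y * φ x * φ y * h x ^ 2 + ∑ x, ∑ y, M x y * φ x * φ y * h y ^ 2 -
        2 * ∑ x, ∑ y, h x * φ x * (M x y * (h y * φ y)) := by
    simp only [Finset.mul_sum, ← Finset.sum_add_distrib, ← Finset.sum_sub_distrib]
    refine Finset.sum_congr rfl fun x _ => Finset.sum_congr rfl fun y _ => ?_
    ring
  have e4 : (fun x => h x * φ x) ⬝ᵥ (M *ᵥ (fun x => h x * φ x)) =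
      ∑ x, ∑ y, h x * φ x * (M x y * (h y * φ y)) := by
    unfold Matrix.mulVec dotProduct
    refine Finset.sum_congr rfl fun x _ => ?_
    rw [Finset.mul_sum]
  rw [e3, e2, e1, e4]
  unfold dotProduct
  ring

theorem trunc_le (t a b : ℝ) : (max (a - t) 0 - max (b - t) 0) ^ 2 ≤ (a - b) ^ 2 := by
  have h1 : |max (a - t) 0 - max (b - t) 0| ≤ |(a - t) - (b - t)| := by
    have := abs_max_sub_max_le_max (a - t) 0 (b - t) 0
    simpa using this
  have h2 : (a - t) - (b - t) = a - b := by ring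
  rw [h2] at h1
  exact sq_le_sq.2 h1

theorem q_eq {ℓ F lam δ : ℝ} (hl : 0 < lam) (hℓ : 0 < ℓ) (hF : 0 < F) (hδ : 0 < δ) :
    4 * ℓ ^ 2 / (lam * δ * F) = ℓ * (2 / (lam * (δ * F / (2 * ℓ)))) := by
  field_simp
  ring

theorem t_eq {ℓ F δ : ℝ} (hℓ : 0 < ℓ) : 2 * (δ * F / (2 * ℓ)) * ℓ = δ * F := by
  field_simp

theorem c_eq {c N lam t : ℝ} (hN : 0 < N) (hl : 0 < lam) (ht : 0 < t) :
    c / N = (t * (c * (lam / (2 * N)))) * (2 / (lam * t)) := by
  field_simp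

end NashAux

open NashAux

theorem nash_raw (hs : M.IsSymm) (h0 : ∀ x y, 0 ≤ M x y) (hC : IsCore M lam S Lam φ)
    (hl : 0 < lam) {f : V → ℝ} (hf : ∀ x, 0 ≤ f x) (hfS : ∀ x, x ∉ S → f x = 0)
    (hℓ : 0 < f ⬝ᵥ φ) {δ : ℝ} (hδ : 0 < δ) (hδ1 : δ ≤ 1) :
    f ⬝ᵥ (M *ᵥ f) ≤ Lam * (δ + (1 - δ) *
      (4 * (f ⬝ᵥ φ) ^ 2 / (lam * δ * (f ⬝ᵥ f))) ^ lam) * (f ⬝ᵥ f) := by
  have hN : (0 : ℝ) < S.card := by exact_mod_cast hC.nonempty.card_pos
  have hφ : ∀ x ∈ S, 0 < φ x := by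
    intro x hx
    have h1 := hC.low x hx
    have h2 : 0 < lam / (2 * S.card) := by positivity
    have h3 : 0 < φ x ^ 2 := lt_of_lt_of_le h2 h1
    rcases (hC.nonneg x).eq_or_lt with h | h
    · rw [← h] at h3; norm_num at h3
    · exact h
  set ℓ := f ⬝ᵥ φ with hℓd
  set F := f ⬝ᵥ f with hFd
  have hF : 0 < F := by
    rcases (Finset.sum_nonneg fun x (_ : x ∈ univ) => mul_self_nonneg (f x)).eq_or_lt with h | h
    · exfalso
      have hz := (Finset.sum_eq_zero_iff_of_nonneg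
        (fun x (_ : x ∈ univ) => mul_self_nonneg (f x))).1 h.symm
      have : ℓ = 0 := by
        rw [hℓd]
        unfold dotProduct
        refine Finset.sum_eq_zero fun x hx => ?_
        have := hz x hx
        rw [mul_self_eq_zero] at this
        rw [this, zero_mul]
      linarith
    · exact h
  set g : V → ℝ := fun x => f x / φ x with hg
  have hg0 : ∀ x, 0 ≤ g x := fun x => div_nonneg (hf x) (hC.nonneg x)
  have hfg : ∀ x, f x = g x * φ x := by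
    intro x
    by_cases hx : x ∈ S
    · exact (div_mul_cancel₀ _ (hφ x hx).ne').symm
    · rw [hfS x hx, hC.supp x hx, mul_zero]
  have hfg' : f = fun x => g x * φ x := funext hfg
  have hℓg : ℓ = ∑ x, g x * φ x ^ 2 := by
    rw [hℓd]
    unfold dotProduct
    refine Finset.sum_congr rfl fun x _ => ?_
    rw [hfg x]; ring
  have hFg : F = ∑ x, g x ^ 2 * φ x ^ 2 := by
    rw [hFd]
    unfold dotProduct
    refine Finset.sum_congr rfl fun x _ => ?_
    rw [hfg x]; ring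
  set q : ℝ := 4 * ℓ ^ 2 / (lam * δ * F) with hq
  have hq0 : 0 < q := by positivity
  have hLam := hC.pos
  rcases le_or_gt 1 q with hq1 | hq1
  · have h1 := hC.fk S f (le_refl _) hfS
    rw [div_self hN.ne', Real.one_rpow, mul_one] at h1
    have h2 : 1 ≤ q ^ lam := Real.one_le_rpow hq1 hl.le
    have h3 : 1 ≤ δ + (1 - δ) * q ^ lam := by nlinarith
    calc f ⬝ᵥ (M *ᵥ f) ≤ Lam * F := h1
      _ = Lam * 1 * F := by ring
      _ ≤ Lam * (δ + (1 - δ) * q ^ lam) * F := by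
          refine mul_le_mul_of_nonneg_right ?_ hF.le
          exact mul_le_mul_of_nonneg_left h3 hLam.le
  · set t : ℝ := δ * F / (2 * ℓ) with ht
    have ht0 : 0 < t := by positivity
    set gt : V → ℝ := fun x => max (g x - t) 0 with hgt
    set ft : V → ℝ := fun x => gt x * φ x with hft
    set T : Finset V := S.filter (fun x => t < g x) with hT
    have hE : Lam * (ft ⬝ᵥ ft) - ft ⬝ᵥ (M *ᵥ ft) ≤ Lam * F - f ⬝ᵥ (M *ᵥ f) := by
      rw [hFd, hfg', hft, energy hs hC gt, energy hs hC g]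
      refine mul_le_mul_of_nonneg_left ?_ (by norm_num)
      refine Finset.sum_le_sum fun x _ => Finset.sum_le_sum fun y _ => ?_
      refine mul_le_mul_of_nonneg_left (trunc_le t (g x) (g y)) ?_
      exact mul_nonneg (mul_nonneg (h0 x y) (hC.nonneg x)) (hC.nonneg y)
    have hTs : ∀ x, x ∉ T → ft x = 0 := by
      intro x hx
      by_cases hxS : x ∈ S
      · have : ¬ t < g x := fun h => hx (mem_filter.2 ⟨hxS, h⟩)
        push Not at this
        rw [hft]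
        change max (g x - t) 0 * φ x = 0
        rw [max_eq_right (by linarith), zero_mul]
      · change gt x * φ x = 0
        rw [hC.supp x hxS, mul_zero]
    have hfk := hC.fk T ft (filter_subset _ _) hTs
    -- the size of T
    have hTc : (T.card : ℝ) / S.card ≤ q := by
      have h1 : (T.card : ℝ) * (lam / (2 * S.card)) ≤ ∑ x ∈ T, φ x ^ 2 := by
        rw [← nsmul_eq_mul]
        exact Finset.card_nsmul_le_sum _ _ _ fun x hx => hC.low x (mem_filter.1 hx).1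
      have h2 : t * ∑ x ∈ T, φ x ^ 2 ≤ ℓ := by
        rw [hℓg, Finset.mul_sum]
        calc ∑ x ∈ T, t * φ x ^ 2 ≤ ∑ x ∈ T, g x * φ x ^ 2 := by
              refine Finset.sum_le_sum fun x hx => ?_
              exact mul_le_mul_of_nonneg_right (mem_filter.1 hx).2.le (sq_nonneg _)
          _ ≤ ∑ x, g x * φ x ^ 2 := by
              refine Finset.sum_le_univ_sum_of_nonneg fun x => ?_
              exact mul_nonneg (hg0 x) (sq_nonneg _)
      have h3 : t * ((T.card : ℝ) * (lam / (2 * S.card))) ≤ ℓ :=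
        le_trans (mul_le_mul_of_nonneg_left h1 ht0.le) h2
      have h4 : (T.card : ℝ) / S.card = (t * ((T.card : ℝ) * (lam / (2 * S.card)))) * (2 / (lam * t)) :=
        c_eq hN hl ht0
      have h5 : q = ℓ * (2 / (lam * t)) := by
        rw [hq, ht]
        exact q_eq hl hℓ hF hδ
      rw [h4, h5]
      exact mul_le_mul_of_nonneg_right h3 (by positivity)
    have hff : (1 - δ) * F ≤ ft ⬝ᵥ ft := by
      have h1 : (1 - δ) * F = ∑ x, (g x ^ 2 - 2 * t * g x) * φ x ^ 2 := by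
        have : 2 * t * ℓ = δ * F := by
          rw [ht]
          exact t_eq hℓ
        have h2 : ∑ x, (g x ^ 2 - 2 * t * g x) * φ x ^ 2 = F - 2 * t * ℓ := by
          rw [hFg, hℓg, Finset.mul_sum, ← Finset.sum_sub_distrib]
          refine Finset.sum_congr rfl fun x _ => ?_
          ring
        rw [h2, this]
        ring
      rw [h1]
      unfold dotProduct
      refine Finset.sum_le_sum fun x _ => ?_
      change _ ≤ max (g x - t) 0 * φ x * (max (g x - t) 0 * φ x)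
      have h3 : g x ^ 2 - 2 * t * g x ≤ max (g x - t) 0 ^ 2 := by
        rcases le_total (g x) t with h | h
        · rw [max_eq_right (by linarith)]
          nlinarith [hg0 x]
        · rw [max_eq_left (by linarith)]
          nlinarith
      calc (g x ^ 2 - 2 * t * g x) * φ x ^ 2 ≤ max (g x - t) 0 ^ 2 * φ x ^ 2 :=
            mul_le_mul_of_nonneg_right h3 (sq_nonneg _)
        _ = max (g x - t) 0 * φ x * (max (g x - t) 0 * φ x) := by ring
    have hTq : ((T.card : ℝ) / S.card) ^ lam ≤ q ^ lam :=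
      Real.rpow_le_rpow (div_nonneg (Nat.cast_nonneg _) hN.le) hTc hl.le
    have hq2 : q ^ lam ≤ 1 := Real.rpow_le_one hq0.le hq1.le hl.le
    have hff0 : 0 ≤ ft ⬝ᵥ ft := Finset.sum_nonneg fun x _ => mul_self_nonneg _
    have k1 : Lam * (1 - q ^ lam) * ((1 - δ) * F) ≤ Lam * F - f ⬝ᵥ (M *ᵥ f) := by
      calc Lam * (1 - q ^ lam) * ((1 - δ) * F) ≤ Lam * (1 - q ^ lam) * (ft ⬝ᵥ ft) := by
            refine mul_le_mul_of_nonneg_left hff ?_
            exact mul_nonneg hLam.le (by linarith)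
        _ ≤ Lam * (1 - ((T.card : ℝ) / S.card) ^ lam) * (ft ⬝ᵥ ft) := by
            refine mul_le_mul_of_nonneg_right ?_ hff0
            exact mul_le_mul_of_nonneg_left (by linarith) hLam.le
        _ = Lam * (ft ⬝ᵥ ft) - Lam * ((T.card : ℝ) / S.card) ^ lam * (ft ⬝ᵥ ft) := by ring
        _ ≤ Lam * (ft ⬝ᵥ ft) - ft ⬝ᵥ (M *ᵥ ft) := by linarith
        _ ≤ Lam * F - f ⬝ᵥ (M *ᵥ f) := hE
    nlinarith [k1]

theorem nash (hs : M.IsSymm) (h0 : ∀ x y, 0 ≤ M x y) (hC : IsCore M lam S Lam φ)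
    (hl : 0 < lam) (hl8 : lam ≤ 1 / 8) {f : V → ℝ} (hf : ∀ x, 0 ≤ f x)
    (hfS : ∀ x, x ∉ S → f x = 0) (hℓ : 0 < f ⬝ᵥ φ)
    (hU : (16 / lam ^ 2) ^ 8 ≤ (f ⬝ᵥ f) / (f ⬝ᵥ φ) ^ 2) :
    f ⬝ᵥ (M *ᵥ f) ≤ Lam * ((f ⬝ᵥ f) / (f ⬝ᵥ φ) ^ 2) ^ (-(lam / 4)) * (f ⬝ᵥ f) := by
  obtain ⟨δ, hδ, hδ1, hn⟩ := num_nash hl hl8 hU
  have h1 := nash_raw hs h0 hC hl hf hfS hℓ hδ hδ1
  have h2 : 4 / (lam * δ * ((f ⬝ᵥ f) / (f ⬝ᵥ φ) ^ 2)) =
      4 * (f ⬝ᵥ φ) ^ 2 / (lam * δ * (f ⬝ᵥ f)) := by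
    have : (f ⬝ᵥ φ) ^ 2 ≠ 0 := (pow_pos hℓ 2).ne'
    rw [mul_div_assoc', div_div_eq_mul_div]
  rw [h2] at hn
  refine le_trans h1 ?_
  refine mul_le_mul_of_nonneg_right ?_ (Finset.sum_nonneg fun x _ => mul_self_nonneg _)
  exact mul_le_mul_of_nonneg_left hn hC.pos.le

end Pool.Agent.Lib.P325v
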