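import Pool.Agent.Lib.P325v.Defs

/-!
# Module Perron (1.5 h): the largest Rayleigh quotient on a set

The set of the vectors `f` with `f x = 0` off `S` and `f ⬝ᵥ f = 1` is compact (closed, entries in `[-1, 1]`) and nonempty. Let `f` maximise the continuous function
`f ⬝ᵥ (M *ᵥ f)` on it and put `φ = |f|`: `φ ⬝ᵥ φ = 1` and `φ ⬝ᵥ (M *ᵥ φ) ≥ f ⬝ᵥ (M *ᵥ f)` (nonnegative entries), so `φ` is a maximiser. `Λ = φ ⬝ᵥ (M *ᵥ φ)`. By
homogeneity `f ⬝ᵥ (M *ᵥ f) ≤ Λ (f ⬝ᵥ f)` for all `f` supported on `S`. For `x ∈ S` and real `c` apply this to `φ + c e_x`: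
`0 ≤ Λ |φ + c e_x|^2 - <φ + c e_x, M (φ + c e_x)> = 2 c (Λ φ x - (M φ) x) + c^2 (Λ - M x x)` for all `c`, so `(M φ) x = Λ φ x`.
-/

set_option autoImplicit false

open Finset Matrix

namespace Pool.Agent.Lib.P325v

variable {V : Type} [Fintype V] [DecidableEq V]

namespace PerronAux

theorem cont_dot : Continuous fun f : V → ℝ => f ⬝ᵥ f := by
  unfold dotProduct
  fun_prop

theorem cont_quad (M : Matrix V V ℝ) : Continuous fun f : V → ℝ => f ⬝ᵥ (M *ᵥ f) := by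
  unfold dotProduct Matrix.mulVec dotProduct
  fun_prop

theorem compact (S : Finset V) :
    IsCompact {f : V → ℝ | (∀ x, x ∉ S → f x = 0) ∧ f ⬝ᵥ f = 1} := by
  refine IsCompact.of_isClosed_subset (isCompact_Icc (a := fun _ : V => (-1 : ℝ))
    (b := fun _ : V => (1 : ℝ))) ?_ ?_
  · refine IsClosed.and ?_ (isClosed_eq cont_dot continuous_const)
    simp only [Set.setOf_forall]
    exact isClosed_iInter fun x => isClosed_iInter fun _ =>
      isClosed_eq (continuous_apply x) continuous_const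
  · rintro f ⟨-, hf⟩
    have h : ∀ x, f x * f x ≤ 1 := by
      intro x
      rw [← hf]
      exact Finset.single_le_sum (f := fun y => f y * f y) (fun y _ => mul_self_nonneg (f y))
        (Finset.mem_univ x)
    refine ⟨fun x => ?_, fun x => ?_⟩
    · exact (abs_le.1 (abs_le_one_iff_mul_self_le_one.2 (h x))).1
    · exact (abs_le.1 (abs_le_one_iff_mul_self_le_one.2 (h x))).2

theorem cross {M : Matrix V V ℝ} (hs : M.IsSymm) (φ : V → ℝ) (x : V) :
    φ ⬝ᵥ (M *ᵥ Pi.single x 1) = (M *ᵥ φ) x := by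
  rw [Matrix.dotProduct_mulVec, ← Matrix.mulVec_transpose, hs.eq, dotProduct_single, mul_one]

theorem quad {M : Matrix V V ℝ} (hs : M.IsSymm) (φ : V → ℝ) (x : V) (c : ℝ) :
    (φ + c • Pi.single x 1) ⬝ᵥ (M *ᵥ (φ + c • Pi.single x 1)) =
      φ ⬝ᵥ (M *ᵥ φ) + 2 * c * (M *ᵥ φ) x + c ^ 2 * M x x := by
  rw [Matrix.mulVec_add, Matrix.mulVec_smul, add_dotProduct, dotProduct_add, dotProduct_add,
    dotProduct_smul, smul_dotProduct, smul_dotProduct, dotProduct_smul, cross hs,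
    single_dotProduct, single_dotProduct, one_mul, one_mul, Matrix.mulVec_single_one]
  simp only [smul_eq_mul, Matrix.col_apply]
  ring

theorem dots (φ : V → ℝ) (x : V) (c : ℝ) :
    (φ + c • Pi.single x 1) ⬝ᵥ (φ + c • Pi.single x 1) =
      φ ⬝ᵥ φ + 2 * c * φ x + c ^ 2 := by
  rw [add_dotProduct, dotProduct_add, dotProduct_add, dotProduct_smul, smul_dotProduct,
    smul_dotProduct, dotProduct_smul, single_dotProduct, single_dotProduct, dotProduct_single,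
    one_mul, mul_one, one_mul]
  simp only [smul_eq_mul, Pi.single_eq_same]
  ring

theorem lagrange {a b : ℝ} (h : ∀ c : ℝ, 0 ≤ 2 * c * a + c ^ 2 * b) : a = 0 := by
  by_contra ha
  have hB : 0 < |b| + 1 := by positivity
  have h1 := h (-a / (|b| + 1))
  have h2 : 2 * (-a / (|b| + 1)) * a + (-a / (|b| + 1)) ^ 2 * b =
      a ^ 2 / (|b| + 1) ^ 2 * (b - 2 * (|b| + 1)) := by
    field_simp
    ring
  rw [h2] at h1
  have h3 : 0 < a ^ 2 / (|b| + 1) ^ 2 := by positivity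
  have h4 : b - 2 * (|b| + 1) < 0 := by
    have := le_abs_self b
    have := abs_nonneg b
    linarith
  nlinarith [mul_neg_of_pos_of_neg h3 h4]

end PerronAux

open PerronAux in
theorem exists_perron {M : Matrix V V ℝ} (hs : M.IsSymm) (h0 : ∀ x y, 0 ≤ M x y)
    {S : Finset V} (hS : S.Nonempty) :
    ∃ φ : V → ℝ, (∀ x, 0 ≤ φ x) ∧ (∀ x, x ∉ S → φ x = 0) ∧ φ ⬝ᵥ φ = 1 ∧
      (∀ x ∈ S, (M *ᵥ φ) x = (φ ⬝ᵥ (M *ᵥ φ)) * φ x) ∧
      ∀ f : V → ℝ, (∀ x, x ∉ S → f x = 0) →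
        f ⬝ᵥ (M *ᵥ f) ≤ (φ ⬝ᵥ (M *ᵥ φ)) * (f ⬝ᵥ f) := by
  obtain ⟨x₀, hx₀⟩ := hS
  have hne : {f : V → ℝ | (∀ x, x ∉ S → f x = 0) ∧ f ⬝ᵥ f = 1}.Nonempty := by
    refine ⟨Pi.single x₀ 1, fun x hx => ?_, by simp⟩
    rw [Pi.single_eq_of_ne]
    rintro rfl
    exact hx hx₀
  obtain ⟨f, ⟨hf0, hf1⟩, hmax⟩ := (compact S).exists_isMaxOn hne (cont_quad M).continuousOn
  have habs : (fun x => |f x|) ⬝ᵥ (fun x => |f x|) = 1 := by
    rw [← hf1]
    simp only [dotProduct]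
    exact Finset.sum_congr rfl fun x _ => abs_mul_abs_self (f x)
  have hle : f ⬝ᵥ (M *ᵥ f) ≤ (fun x => |f x|) ⬝ᵥ (M *ᵥ fun x => |f x|) := by
    simp only [dotProduct, Matrix.mulVec, Finset.mul_sum]
    refine Finset.sum_le_sum fun x _ => Finset.sum_le_sum fun y _ => ?_
    calc f x * (M x y * f y) ≤ |f x * (M x y * f y)| := le_abs_self _
      _ = |f x| * (M x y * |f y|) := by rw [abs_mul, abs_mul, abs_of_nonneg (h0 x y)]
  have hmain : ∀ g : V → ℝ, (∀ x, x ∉ S → g x = 0) → g ⬝ᵥ (M *ᵥ g) ≤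
      ((fun x => |f x|) ⬝ᵥ (M *ᵥ fun x => |f x|)) * (g ⬝ᵥ g) := by
    intro g hg
    by_cases hgg : g ⬝ᵥ g = 0
    · have : g = 0 := dotProduct_self_eq_zero.1 hgg
      subst this
      simp
    · have hpos : 0 < g ⬝ᵥ g := by
        refine lt_of_le_of_ne ?_ (Ne.symm hgg)
        exact Finset.sum_nonneg fun x _ => mul_self_nonneg (g x)
      have hr : √(g ⬝ᵥ g) ≠ 0 := (Real.sqrt_pos.2 hpos).ne'
      have hr2 : √(g ⬝ᵥ g) * √(g ⬝ᵥ g) = g ⬝ᵥ g := Real.mul_self_sqrt hpos.le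
      have h1 := hmax (show (√(g ⬝ᵥ g))⁻¹ • g ∈
          {f : V → ℝ | (∀ x, x ∉ S → f x = 0) ∧ f ⬝ᵥ f = 1} from by
        refine ⟨fun x hx => by rw [Pi.smul_apply, hg x hx, smul_zero], ?_⟩
        rw [smul_dotProduct, dotProduct_smul, smul_eq_mul, smul_eq_mul, ← mul_assoc, ← mul_inv,
          hr2, inv_mul_cancel₀ hgg])
      simp only [Set.mem_setOf_eq] at h1
      rw [Matrix.mulVec_smul, smul_dotProduct, dotProduct_smul, smul_eq_mul, smul_eq_mul,
        ← mul_assoc, ← mul_inv, hr2, inv_mul_le_iff₀ hpos] at h1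
      refine h1.trans ?_
      rw [mul_comm]
      exact mul_le_mul_of_nonneg_right hle hpos.le
  refine ⟨fun x => |f x|, fun x => abs_nonneg _, fun x hx => by simp only [hf0 x hx, abs_zero],
    habs, ?_, hmain⟩
  intro x hx
  have hsupp : ∀ c : ℝ, ∀ y, y ∉ S → ((fun x => |f x|) + c • Pi.single x 1 : V → ℝ) y = 0 := by
    intro c y hy
    have hne : y ≠ x := by
      rintro rfl
      exact hy hx
    rw [Pi.add_apply, Pi.smul_apply, Pi.single_eq_of_ne hne, hf0 y hy, abs_zero, smul_zero,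
      add_zero]
  have h := lagrange (a := ((fun x => |f x|) ⬝ᵥ (M *ᵥ fun x => |f x|)) * |f x| -
    (M *ᵥ fun x => |f x|) x) (b := ((fun x => |f x|) ⬝ᵥ (M *ᵥ fun x => |f x|)) - M x x) (by
    intro c
    have h1 := hmain _ (hsupp c)
    rw [quad hs, dots, habs] at h1
    linarith)
  linarith

end Pool.Agent.Lib.P325v
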